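import Pool.Agent.H902R3.ZA.Defs

open MeasureTheory ProbabilityTheory Finset

open scoped RealInnerProductSpace ENNReal

namespace Pool.Agent.H902R3.ZA

namespace AVGaux

open Pool.Agent.H172R2.ZS

theorem sg_not (b : Bool) : sg (!b) = -sg b := by
  cases b <;> simp [sg]

theorem sg_sq (b : Bool) : sg b * sg b = 1 := by
  cases b <;> simp [sg]

/-- orthogonality -/
theorem orth {I : Type} [Fintype I] [DecidableEq I] (i i' : I) (h : i ≠ i') :
    ∑ ε : I → Bool, sg (ε i) * sg (ε i') = 0 := by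
  have h1 : ∑ ε : I → Bool, sg (ε i) * sg (ε i') =
      ∑ ε : I → Bool, -(sg (ε i) * sg (ε i')) := by
    apply Fintype.sum_equiv (⟨fun ε => Function.update ε i (!(ε i)),
      fun ε => Function.update ε i (!(ε i)), fun ε => by simp, fun ε => by simp⟩ :
      (I → Bool) ≃ (I → Bool))
    intro ε
    simp only [Equiv.coe_fn_mk, Function.update_self]
    rw [Function.update_of_ne (Ne.symm h), sg_not]
    ring
  rw [Finset.sum_neg_distrib] at h1
  linarith

theorem diag {I : Type} [Fintype I] [DecidableEq I] (i : I) :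
    ∑ ε : I → Bool, sg (ε i) * sg (ε i) = 2 ^ Fintype.card I := by
  simp [sg_sq]

theorem sq_sum {I : Type} [Fintype I] [DecidableEq I] (m : ℕ) (e : Fin m → I)
    (he : Function.Injective e) :
    ∑ ε : I → Bool, (∑ l : Fin m, sg (ε (e l))) ^ 2 = 2 ^ Fintype.card I * (m : ℝ) := by
  have h1 : ∀ ε : I → Bool, (∑ l : Fin m, sg (ε (e l))) ^ 2 =
      ∑ l : Fin m, ∑ l' : Fin m, sg (ε (e l)) * sg (ε (e l')) := by
    intro ε
    rw [sq, Finset.sum_mul_sum]
  simp only [h1]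
  rw [Finset.sum_comm]
  have h2 : ∀ l : Fin m, ∑ ε : I → Bool, ∑ l' : Fin m, sg (ε (e l)) * sg (ε (e l')) =
      2 ^ Fintype.card I := by
    intro l
    rw [Finset.sum_comm, Finset.sum_eq_single l]
    · exact diag (e l)
    · intro l' _ hl'
      exact orth (e l) (e l') (fun h => hl' (he h).symm)
    · simp
  simp only [h2]
  rw [Finset.sum_const, Finset.card_univ, Fintype.card_fin, nsmul_eq_mul, mul_comm]

end AVGaux

open AVGaux in
theorem AVG_ok : S_AVG := by
  intro M m w hm hw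
  rw [Finset.sum_comm]
  have h1 : ∀ j : Fin M, ∑ ε : (Σ j : Fin M, Fin (m j)) → Bool,
      (((∑ l : Fin (m j), Pool.Agent.H172R2.ZS.sg (ε ⟨j, l⟩)) / m j) * w j) ^ 2 ≤
      2 ^ (Fintype.card (Σ j : Fin M, Fin (m j))) := by
    intro j
    have hmj : (0 : ℝ) < m j := by exact_mod_cast hm j
    have h2 : ∀ ε : (Σ j : Fin M, Fin (m j)) → Bool,
        (((∑ l : Fin (m j), Pool.Agent.H172R2.ZS.sg (ε ⟨j, l⟩)) / m j) * w j) ^ 2 =
        (w j ^ 2 / (m j : ℝ) ^ 2) * (∑ l : Fin (m j), Pool.Agent.H172R2.ZS.sg (ε ⟨j, l⟩)) ^ 2 := by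
      intro ε
      field_simp
    simp only [h2]
    rw [← Finset.mul_sum, sq_sum (m j) (fun l => (⟨j, l⟩ : Σ j : Fin M, Fin (m j)))
      (fun a b hab => by simpa using hab)]
    have h3 : w j ^ 2 / (m j : ℝ) ^ 2 * (2 ^ Fintype.card (Σ j : Fin M, Fin (m j)) * (m j : ℝ)) =
        (w j ^ 2 / m j) * 2 ^ Fintype.card (Σ j : Fin M, Fin (m j)) := by
      field_simp
    rw [h3]
    have h4 : w j ^ 2 / (m j : ℝ) ≤ 1 := by
      rw [div_le_one hmj]
      exact hw j
    have h5 : (0 : ℝ) ≤ 2 ^ Fintype.card (Σ j : Fin M, Fin (m j)) := by positivity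
    nlinarith
  calc _ ≤ ∑ j : Fin M, (2 : ℝ) ^ (Fintype.card (Σ j : Fin M, Fin (m j))) :=
        Finset.sum_le_sum (fun j _ => h1 j)
    _ = _ := by
        rw [Finset.sum_const, Finset.card_univ, Fintype.card_fin, nsmul_eq_mul, mul_comm]

end Pool.Agent.H902R3.ZA
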