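import Pool.Agent.H902R3.ZA.Defs

set_option autoImplicit false

open MeasureTheory ProbabilityTheory Finset
open scoped RealInnerProductSpace ENNReal

namespace Pool.Agent.H902R3.ZA

open Pool.Agent.H172R2.ZS (E Zon Lew sg)

namespace COLaux

/-- exponential Jensen inequality for a finite sum -/
theorem exp_sum {I : Type} (s : Finset I) (t : I → ℝ) (A : ℝ)
    (h : ∑ i ∈ s, t i ≤ (s.card : ℝ) * A) :
    (s.card : ℝ) * Real.exp (-A) ≤ ∑ i ∈ s, Real.exp (-t i) := by
  have h1 : ∀ i ∈ s, Real.exp (-A) * (1 + A - t i) ≤ Real.exp (-t i) := by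
    intro i _
    have h2 : Real.exp (-t i) = Real.exp (-A) * Real.exp (A - t i) := by
      rw [← Real.exp_add]; congr 1; ring
    rw [h2]
    refine mul_le_mul_of_nonneg_left ?_ (Real.exp_pos _).le
    have := Real.add_one_le_exp (A - t i)
    linarith
  refine le_trans ?_ (Finset.sum_le_sum h1)
  rw [← Finset.mul_sum, Finset.sum_sub_distrib, Finset.sum_const, nsmul_eq_mul, mul_comm]
  refine mul_le_mul_of_nonneg_left ?_ (Real.exp_pos _).le
  linarith

/-- pigeonhole: a point covered by many of the sets -/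
theorem exists_point {Ω I : Type} [MeasurableSpace Ω] [Fintype I] (μ : Measure Ω)
    [IsProbabilityMeasure μ] (S : I → Set Ω) (hS : ∀ i, MeasurableSet (S i)) (c : ℝ)
    (h : c ≤ ∑ i, (μ (S i)).toReal) [∀ k, DecidablePred fun i => k ∈ S i] :
    ∃ k, c ≤ ((univ.filter fun i => k ∈ S i).card : ℝ) := by
  have e : (fun k => ((univ.filter fun i => k ∈ S i).card : ℝ)) =
      fun k => ∑ i, (S i).indicator (1 : Ω → ℝ) k := by
    funext k
    rw [Finset.card_filter]
    push_cast
    refine Finset.sum_congr rfl fun i _ => ?_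
    simp [Set.indicator_apply]
  have hI : ∑ i, (μ (S i)).toReal = ∫ k, ((univ.filter fun i => k ∈ S i).card : ℝ) ∂μ := by
    have hi : ∀ i ∈ (univ : Finset I), Integrable ((S i).indicator (1 : Ω → ℝ)) μ := fun i _ =>
      (integrable_const (1 : ℝ)).indicator (hS i)
    rw [e, integral_finsetSum _ hi]
    refine Finset.sum_congr rfl fun i _ => ?_
    exact (integral_indicator_one (hS i)).symm
  have hint : Integrable (fun k => ((univ.filter fun i => k ∈ S i).card : ℝ)) μ := by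
    rw [e]
    exact integrable_finsetSum _ (fun i _ => (integrable_const (1 : ℝ)).indicator (hS i))
  obtain ⟨k, hk⟩ := exists_integral_le hint
  exact ⟨k, (h.trans (le_of_eq hI)).trans hk⟩

end COLaux

open COLaux in
theorem COL_ok (h1 : S_SHI) (h2 : S_AVG) (h3 : Pool.Agent.H172R2.ZS.S_HAM) : S_COL := by
  classical
  intro M B hBconv hBc hBs σ m hσ hm hM hB
  have hmpos : ∀ j, 0 < m j := fun j => by
    have h0 : (0 : ℝ) < 1 / σ j ^ 2 := by have := hσ j; positivity
    exact_mod_cast h0.trans_le (hm j)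
  have hcard : Fintype.card (Σ j : Fin M, Fin (m j)) = ∑ j, m j := by simp
  have hMJ : M ≤ Fintype.card (Σ j : Fin M, Fin (m j)) := by
    rw [hcard]
    calc M = ∑ j : Fin M, 1 := by simp
      _ ≤ _ := Finset.sum_le_sum fun j _ => hmpos j
  let z : ((Σ j : Fin M, Fin (m j)) → Bool) → Fin M → ℝ := fun ε j =>
    (1 / 10) * ((∑ l : Fin (m j), sg (ε ⟨j, l⟩)) / m j) / σ j
  let S : ((Σ j : Fin M, Fin (m j)) → Bool) → Set (Fin M → ℝ) := fun ε => {g | g - z ε ∈ B}
  have hSm : ∀ ε, MeasurableSet (S ε) := fun ε =>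
    (hBc.preimage (continuous_id.sub continuous_const)).measurableSet
  have havg := h2 M m (fun j => 1 / σ j) hmpos (fun j => by rw [div_pow, one_pow]; exact hm j)
  have hcu : ((univ : Finset ((Σ j : Fin M, Fin (m j)) → Bool)).card : ℝ) =
      2 ^ Fintype.card (Σ j : Fin M, Fin (m j)) := by
    rw [Finset.card_univ, Fintype.card_fun, Fintype.card_bool]
    push_cast
    rfl
  have hsumz : ∑ ε : (Σ j : Fin M, Fin (m j)) → Bool, (∑ j, z ε j ^ 2) / 2 ≤
      ((univ : Finset ((Σ j : Fin M, Fin (m j)) → Bool)).card : ℝ) * ((M : ℝ) / 200) := by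
    have e : ∀ ε : (Σ j : Fin M, Fin (m j)) → Bool, (∑ j, z ε j ^ 2) / 2 =
        (1 / 200) * ∑ j, (((∑ l : Fin (m j), sg (ε ⟨j, l⟩)) / m j) * (1 / σ j)) ^ 2 := by
      intro ε
      rw [Finset.mul_sum, Finset.sum_div]
      refine Finset.sum_congr rfl fun j _ => ?_
      simp only [z]; ring
    rw [Finset.sum_congr rfl fun ε _ => e ε, ← Finset.mul_sum, hcu]
    have := mul_le_mul_of_nonneg_left havg (by norm_num : (0 : ℝ) ≤ 1 / 200)
    refine this.trans (le_of_eq ?_); ring
  have hexp := exp_sum univ (fun ε : (Σ j : Fin M, Fin (m j)) → Bool => (∑ j, z ε j ^ 2) / 2)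
    ((M : ℝ) / 200) hsumz
  rw [hcu] at hexp
  have hγ : (2 : ℝ) ^ (Fintype.card (Σ j : Fin M, Fin (m j))) / 2 *
      Real.exp (-(Fintype.card (Σ j : Fin M, Fin (m j)) : ℝ) / 50) ≤
      ∑ ε, ((gm M) (S ε)).toReal := by
    have hMR : (M : ℝ) ≤ (Fintype.card (Σ j : Fin M, Fin (m j)) : ℝ) := by exact_mod_cast hMJ
    have s1 : (2 : ℝ) ^ (Fintype.card (Σ j : Fin M, Fin (m j))) / 2 *
        Real.exp (-(Fintype.card (Σ j : Fin M, Fin (m j)) : ℝ) / 50) ≤
        (2 : ℝ) ^ (Fintype.card (Σ j : Fin M, Fin (m j))) * Real.exp (-((M : ℝ) / 200)) *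
          ((gm M) B).toReal := by
      have t1 : Real.exp (-(Fintype.card (Σ j : Fin M, Fin (m j)) : ℝ) / 50) ≤
          Real.exp (-((M : ℝ) / 200)) * Real.exp (-(3 * (M : ℝ) / 200)) := by
        rw [← Real.exp_add]
        apply Real.exp_le_exp.2
        linarith
      calc (2 : ℝ) ^ (Fintype.card (Σ j : Fin M, Fin (m j))) / 2 *
          Real.exp (-(Fintype.card (Σ j : Fin M, Fin (m j)) : ℝ) / 50)
          ≤ (2 : ℝ) ^ (Fintype.card (Σ j : Fin M, Fin (m j))) / 2 *
            (Real.exp (-((M : ℝ) / 200)) * Real.exp (-(3 * (M : ℝ) / 200))) :=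
            mul_le_mul_of_nonneg_left t1 (by positivity)
        _ = (2 : ℝ) ^ (Fintype.card (Σ j : Fin M, Fin (m j))) * Real.exp (-((M : ℝ) / 200)) *
            (Real.exp (-(3 * (M : ℝ) / 200)) / 2) := by ring
        _ ≤ _ := mul_le_mul_of_nonneg_left hB (by positivity)
    refine s1.trans ((mul_le_mul_of_nonneg_right hexp ENNReal.toReal_nonneg).trans ?_)
    rw [Finset.sum_mul]
    refine Finset.sum_le_sum fun ε _ => ?_
    have := h1 M B hBc.measurableSet hBs (z ε)
    rwa [neg_div] at this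
  obtain ⟨k, hk⟩ := exists_point (gm M) S hSm _ hγ
  obtain ⟨p, hp, q, hq, hpq⟩ := h3 (Σ j : Fin M, Fin (m j)) (univ.filter fun ε => k ∈ S ε)
    (hM.trans hMJ) hk
  have hp' : k - z p ∈ B := by simpa [S] using hp
  have hq' : k - z q ∈ B := by simpa [S] using hq
  have hval : ∀ i, ((sg (p i) - sg (q i)) / 2 = 0 ↔ p i = q i) := fun i => by
    unfold sg
    cases p i <;> cases q i <;> norm_num
  refine ⟨fun i => (sg (p i) - sg (q i)) / 2, fun i => ?_, ?_, ?_⟩
  · show (sg (p i) - sg (q i)) / 2 = 0 ∨ (sg (p i) - sg (q i)) / 2 = 1 ∨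
      (sg (p i) - sg (q i)) / 2 = -1
    unfold sg
    cases p i <;> cases q i <;> norm_num
  · have e1 : (∑ j, (m j : ℝ)) = (Fintype.card (Σ j : Fin M, Fin (m j)) : ℝ) := by
      rw [hcard]; push_cast; rfl
    rw [e1]
    refine hpq.trans (le_of_eq ?_)
    congr 3
    ext i
    simp only [mem_filter, mem_univ, true_and, ne_eq, hval i]
  · have hc := hBconv hq' (hBs _ hp') (by norm_num : (0 : ℝ) ≤ 1 / 2)
      (by norm_num : (0 : ℝ) ≤ 1 / 2) (by norm_num)
    convert hc using 1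
    funext j
    simp only [Pi.add_apply, Pi.smul_apply, Pi.sub_apply, Pi.neg_apply, smul_eq_mul, z]
    rw [← Finset.sum_div, Finset.sum_sub_distrib]
    ring

end Pool.Agent.H902R3.ZA
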