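import Pool.Agent.H902R3.ZA.Defs

/-! Task DOM: one sided domination. -/

set_option autoImplicit false

open MeasureTheory ProbabilityTheory Finset
open scoped RealInnerProductSpace ENNReal

namespace Pool.Agent.H902R3.ZA

namespace DOMaux

/-- the one dimensional fact -/
theorem one_dim (X : Type) (T w : X → ℝ) :
    gaussianReal 0 1 {s | ∀ x, s * T x ≤ w x} ≤ gaussianReal 0 1 {s | ∀ x, s * |T x| ≤ w x} := by
  have hPl : IsLowerSet {s : ℝ | ∀ x, 0 ≤ T x → s * T x ≤ w x} := by
    intro s s' hs h x hx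
    exact (mul_le_mul_of_nonneg_right hs hx).trans (h x hx)
  have hNl : IsLowerSet {s : ℝ | ∀ x, T x < 0 → s * |T x| ≤ w x} := by
    intro s s' hs h x hx
    exact (mul_le_mul_of_nonneg_right hs (abs_nonneg _)).trans (h x hx)
  have hNm : MeasurableSet {s : ℝ | ∀ x, T x < 0 → s * |T x| ≤ w x} :=
    hNl.ordConnected.measurableSet
  rcases hPl.total hNl with h | h
  · apply measure_mono
    intro s hs x
    rcases le_or_gt 0 (T x) with hx | hx
    · rw [abs_of_nonneg hx]; exact hs x
    · exact h (fun y _ => hs y) x hx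
  · have hneg : (gaussianReal 0 1).map (fun x => -x) = gaussianReal 0 1 := by
      have := gaussianReal_map_neg (μ := 0) (v := 1)
      simpa using this
    calc gaussianReal 0 1 {s | ∀ x, s * T x ≤ w x}
        ≤ gaussianReal 0 1 ((fun s : ℝ => -s) ⁻¹' {s : ℝ | ∀ x, T x < 0 → s * |T x| ≤ w x}) := by
          apply measure_mono
          intro s hs x hx
          rw [abs_of_neg hx]
          have := hs x
          linarith
      _ = (gaussianReal 0 1).map (fun x => -x) {s : ℝ | ∀ x, T x < 0 → s * |T x| ≤ w x} := by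
          rw [Measure.map_apply measurable_neg hNm]
      _ = gaussianReal 0 1 {s : ℝ | ∀ x, T x < 0 → s * |T x| ≤ w x} := by rw [hneg]
      _ ≤ gaussianReal 0 1 {s | ∀ x, s * |T x| ≤ w x} := by
          apply measure_mono
          intro s hs x
          rcases le_or_gt 0 (T x) with hx | hx
          · rw [abs_of_nonneg hx]; exact h hs x hx
          · exact hs x hx

theorem sum_upd {M : ℕ} (g τ : Fin M → ℝ) (j : Fin M) (s : ℝ) :
    ∑ i, (Function.update g j s) i * τ i = s * τ j + ∑ i ∈ univ.erase j, g i * τ i := by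
  rw [← Finset.add_sum_erase _ _ (Finset.mem_univ j), Function.update_self]
  congr 1
  apply Finset.sum_congr rfl
  intro i hi
  rw [Function.update_of_ne (Finset.ne_of_mem_erase hi)]

theorem closed {M : ℕ} (X : Type) (t : X → Fin M → ℝ) (v : X → ℝ) :
    IsClosed {g : Fin M → ℝ | ∀ x, ∑ j, g j * t x j ≤ v x} := by
  rw [Set.setOf_forall]
  apply isClosed_iInter
  intro x
  apply isClosed_le _ continuous_const
  fun_prop

theorem slice (h : S_RES) {M : ℕ} (j : Fin M) (A : Set (Fin M → ℝ)) (hA : IsClosed A) :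
    (gm M) A = ∫⁻ g, (gaussianReal 0 1) {s | Function.update g j s ∈ A} ∂(gm M) := by
  have h1 := h M j (A.indicator 1) (measurable_one.indicator hA.measurableSet)
  rw [lintegral_indicator_one hA.measurableSet] at h1
  rw [h1]
  congr 1
  funext g
  have hc : Continuous fun s : ℝ => Function.update g j s := by fun_prop
  have hm : MeasurableSet {s | Function.update g j s ∈ A} := (hA.preimage hc).measurableSet
  rw [← lintegral_indicator_one hm]
  rfl

theorem step (h : S_RES) (M : ℕ) (X : Type) (t t' : X → Fin M → ℝ) (v : X → ℝ) (j : Fin M)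
    (h1 : ∀ x, t' x j = |t x j|) (h2 : ∀ x i, i ≠ j → t' x i = t x i) :
    (gm M) {g | ∀ x, ∑ j, g j * t x j ≤ v x} ≤ (gm M) {g | ∀ x, ∑ j, g j * t' x j ≤ v x} := by
  rw [slice h j _ (closed X t v), slice h j _ (closed X t' v)]
  apply lintegral_mono
  intro g
  have e1 : {s : ℝ | Function.update g j s ∈ {g : Fin M → ℝ | ∀ x, ∑ j, g j * t x j ≤ v x}} =
      {s : ℝ | ∀ x, s * t x j ≤ v x - ∑ i ∈ univ.erase j, g i * t x i} := by
    ext s
    simp only [Set.mem_setOf_eq, sum_upd, le_sub_iff_add_le]
  have e2 : {s : ℝ | Function.update g j s ∈ {g : Fin M → ℝ | ∀ x, ∑ j, g j * t' x j ≤ v x}} =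
      {s : ℝ | ∀ x, s * |t x j| ≤ v x - ∑ i ∈ univ.erase j, g i * t x i} := by
    ext s
    simp only [Set.mem_setOf_eq, sum_upd, le_sub_iff_add_le]
    have e3 : ∀ x, ∑ i ∈ univ.erase j, g i * t' x i = ∑ i ∈ univ.erase j, g i * t x i := fun x =>
      Finset.sum_congr rfl fun i hi => by rw [h2 x i (Finset.ne_of_mem_erase hi)]
    simp only [e3, h1]
  show gaussianReal 0 1 _ ≤ gaussianReal 0 1 _
  rw [e1, e2]
  exact one_dim X _ _

end DOMaux

theorem DOM_ok (h : S_RES) : S_DOM := by
  classical
  intro M X t v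
  have key : ∀ S : Finset (Fin M), (gm M) {g | ∀ x, ∑ j, g j * t x j ≤ v x} ≤
      (gm M) {g | ∀ x, ∑ j, g j * (if j ∈ S then |t x j| else t x j) ≤ v x} := by
    intro S
    induction S using Finset.induction_on with
    | empty => simp
    | insert j S hj ih =>
      refine ih.trans (DOMaux.step h M X (fun x j => if j ∈ S then |t x j| else t x j) _ v j ?_ ?_)
      · intro x
        simp [hj]
      · intro x i hi
        simp [hi]
  have := key Finset.univ
  simpa using this

end Pool.Agent.H902R3.ZA
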