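import Mathlib
import Pool.Agent.H172R2.ZS.Defs

/-!
# Approximation of zonoids by zonotopes with `C n / ε ^ 2` segments: statements of the steps
-/

set_option autoImplicit false

open MeasureTheory ProbabilityTheory Finset
open scoped RealInnerProductSpace ENNReal

namespace Pool.Agent.H902R3.ZA

open Pool.Agent.H172R2.ZS (E Zon Lew sg)

/-- standard Gaussian measure on `Fin M → ℝ` -/
noncomputable def gm (M : ℕ) : Measure (Fin M → ℝ) := Measure.pi (fun _ => gaussianReal 0 1)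

instance (M : ℕ) : IsProbabilityMeasure (gm M) := by unfold gm; infer_instance

/-- support function of `∑ c j [-a j, a j]` -/
noncomputable def hh {n M : ℕ} (c : Fin M → ℝ) (a : Fin M → E n) (x : E n) : ℝ :=
  ∑ j, c j * |⟪a j, x⟫|

/-- the signed sum `∑ y j c j |⟪a j, x⟫|` -/
noncomputable def FF {n M : ℕ} (c : Fin M → ℝ) (a : Fin M → E n) (y : Fin M → ℝ) (x : E n) : ℝ :=
  ∑ j, y j * (c j * |⟪a j, x⟫|)

/-- the gauge -/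
noncomputable def Phi {n M : ℕ} (c : Fin M → ℝ) (a : Fin M → E n) (y : Fin M → ℝ) : ℝ :=
  ⨆ x : E n, FF c a y x / hh c a x

/-- the convex penalty -/
noncomputable def WW {n M : ℕ} (c : Fin M → ℝ) (a : Fin M → E n) (u β : ℝ) (σ g : Fin M → ℝ) : ℝ :=
  β * max 0 (Phi c a (fun j => σ j * g j) - u)

/-- its partition function -/
noncomputable def pp {n M : ℕ} (c : Fin M → ℝ) (a : Fin M → E n) (u β : ℝ) (σ : Fin M → ℝ) : ℝ :=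
  ∫ g, Real.exp (-(WW c a u β σ g)) ∂(gm M)

/-- its mean -/
noncomputable def bb {n M : ℕ} (c : Fin M → ℝ) (a : Fin M → E n) (u β : ℝ) (σ : Fin M → ℝ)
    (j : Fin M) : ℝ :=
  (∫ g, g j * Real.exp (-(WW c a u β σ g)) ∂(gm M)) / pp c a u β σ

/-- LBM: one dimensional Brunn-Minkowski -/
def S_LBM : Prop := ∀ (s : ℝ), 0 < s → s < 1 → ∀ A B C : Set ℝ, MeasurableSet A →
  MeasurableSet B → MeasurableSet C → A.Nonempty → B.Nonempty →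
  (∀ x ∈ A, ∀ y ∈ B, s * x + (1 - s) * y ∈ C) →
  ENNReal.ofReal s * volume A + ENNReal.ofReal (1 - s) * volume B ≤ volume C

/-- PLA: one dimensional Gaussian Prekopa-Leindler -/
def S_PLA : Prop := ∀ (s : ℝ), 0 < s → s < 1 → ∀ f g h : ℝ → ℝ≥0∞, Measurable f → Measurable g →
  Measurable h → (∀ x, f x ≤ 1) → (∀ x, g x ≤ 1) →
  (∀ x y, f x ^ s * g y ^ (1 - s) ≤ h (s * x + (1 - s) * y)) →
  (∫⁻ x, f x ∂(gaussianReal 0 1)) ^ s * (∫⁻ x, g x ∂(gaussianReal 0 1)) ^ (1 - s) ≤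
    ∫⁻ x, h x ∂(gaussianReal 0 1)

/-- PLN: Gaussian Prekopa-Leindler -/
def S_PLN : Prop := ∀ (M : ℕ) (s : ℝ), 0 < s → s < 1 → ∀ f g h : (Fin M → ℝ) → ℝ≥0∞,
  Measurable f → Measurable g → Measurable h → (∀ x, f x ≤ 1) → (∀ x, g x ≤ 1) →
  (∀ x y : Fin M → ℝ, f x ^ s * g y ^ (1 - s) ≤ h (fun i => s * x i + (1 - s) * y i)) →
  (∫⁻ x, f x ∂(gm M)) ^ s * (∫⁻ x, g x ∂(gm M)) ^ (1 - s) ≤ ∫⁻ x, h x ∂(gm M)

/-- RES: resampling one coordinate -/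
def S_RES : Prop := ∀ (M : ℕ) (j : Fin M) (f : (Fin M → ℝ) → ℝ≥0∞), Measurable f →
  ∫⁻ g, f g ∂(gm M) = ∫⁻ g, (∫⁻ s, f (Function.update g j s) ∂(gaussianReal 0 1)) ∂(gm M)

/-- DOM: one sided domination, coordinatewise replacement of `t` by `|t|` -/
def S_DOM : Prop := ∀ (M : ℕ) (X : Type) (t : X → Fin M → ℝ) (v : X → ℝ),
  (gm M) {g | ∀ x, ∑ j, g j * t x j ≤ v x} ≤ (gm M) {g | ∀ x, ∑ j, g j * |t x j| ≤ v x}

/-- SEC: sections of a symmetric closed convex set -/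
def S_SEC : Prop := ∀ (M : ℕ) (D : Set (Fin M → ℝ)), Convex ℝ D → IsClosed D → (∀ y ∈ D, -y ∈ D) →
  ∀ (β : Fin M → ℝ) (j : Fin M) (y θ : ℝ), 0 ≤ θ → θ ≤ 1 →
  (gm M) {g | Function.update (fun i => β i * g i) j y ∈ D} ≤
    (gm M) {g | Function.update (fun i => β i * g i) j (θ * y) ∈ D}

/-- SC: diagonal contractions increase the Gaussian measure of symmetric closed convex sets -/
def S_SC : Prop := ∀ (M : ℕ) (D : Set (Fin M → ℝ)), Convex ℝ D → IsClosed D → (∀ y ∈ D, -y ∈ D) →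
  ∀ (α β : Fin M → ℝ), (∀ j, 0 ≤ α j) → (∀ j, α j ≤ β j) →
  (gm M) {g | (fun j => β j * g j) ∈ D} ≤ (gm M) {g | (fun j => α j * g j) ∈ D}

/-- LAW: the vector `∑ sqrt (c j) g j a j` is standard Gaussian in Lewis position -/
def S_LAW : Prop := ∀ (n M : ℕ) (c : Fin M → ℝ) (a : Fin M → E n), Lew c a →
  ∀ C : Set (E n), IsClosed C →
  ((gm M) {g | ∑ j, (Real.sqrt (c j) * g j) • a j ∈ C}).toReal *
    ∫ x : E n, Real.exp (-‖x‖ ^ 2 / 2) = ∫ x in C, Real.exp (-‖x‖ ^ 2 / 2)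

/-- LOW: lower bound for the one sided event -/
def S_LOW : Prop := ∀ (n M : ℕ) (c : Fin M → ℝ) (a : Fin M → E n), Lew c a →
  ∀ τ r : ℝ, 0 < τ → 0 < r → (∀ j, c j ≤ τ) → ∀ σ : Fin M → ℝ, (∀ j, 0 ≤ σ j ∧ σ j ≤ 1) →
  Real.exp (-(9 * n / (8 * r ^ 2))) ≤
    ((gm M) {g | ∀ x, FF c a (fun j => σ j * g j) x ≤ r * Real.sqrt τ * hh c a x}).toReal

/-- PHI: properties of the gauge -/
def S_PHI : Prop := ∀ (n M : ℕ) (c : Fin M → ℝ) (a : Fin M → E n), (∀ j, 0 ≤ c j) →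
  ConvexOn ℝ Set.univ (Phi c a) ∧ (∀ y, 0 ≤ Phi c a y ∧ Phi c a y ≤ ‖y‖) ∧
  Continuous (Phi c a) ∧
  ∀ (y : Fin M → ℝ) (s : ℝ), 0 ≤ s →
    (Phi c a y ≤ s ↔ ∀ x, FF c a y x ≤ s * hh c a x)

/-- ROT: rotation invariance -/
def S_ROT : Prop := ∀ (M : ℕ) (F : (Fin M → ℝ) → (Fin M → ℝ) → ℝ),
  Integrable (fun z : (Fin M → ℝ) × (Fin M → ℝ) => F z.1 z.2) ((gm M).prod (gm M)) →
  ∫ x, ∫ y, F x y ∂(gm M) ∂(gm M) =
    ∫ x, ∫ y, F (fun j => (x j + y j) / Real.sqrt 2) (fun j => (x j - y j) / Real.sqrt 2)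
      ∂(gm M) ∂(gm M)

/-- QJ: value of a log-concave function at its centre of mass -/
def S_QJ : Prop := ∀ (M : ℕ) (V : (Fin M → ℝ) → ℝ), ConvexOn ℝ Set.univ V → Continuous V →
  (∀ g, 0 ≤ V g) → ∀ (P : ℝ) (m : Fin M → ℝ), P = ∫ g, Real.exp (-V g) ∂(gm M) →
    (∀ j, P * m j = ∫ g, g j * Real.exp (-V g) ∂(gm M)) → P ≤ Real.exp (-V m)

/-- JEN: the centre of mass of a log-concave perturbation of the Gaussian measure is a good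
centre of symmetry -/
def S_JEN : Prop := ∀ (M : ℕ) (W : (Fin M → ℝ) → ℝ), ConvexOn ℝ Set.univ W → Continuous W →
  (∀ g, 0 ≤ W g) → ∀ (p : ℝ) (b : Fin M → ℝ), p = ∫ g, Real.exp (-W g) ∂(gm M) →
    (∀ j, p * b j = ∫ g, g j * Real.exp (-W g) ∂(gm M)) →
  p ^ 2 ≤ ∫ k, Real.exp (-W (fun j => b j + k j / Real.sqrt 2)) *
    Real.exp (-W (fun j => b j - k j / Real.sqrt 2)) ∂(gm M)

/-- MEAN: the mean is short -/
def S_MEAN : Prop := ∀ (M : ℕ) (W : (Fin M → ℝ) → ℝ), Continuous W → (∀ g, 0 ≤ W g) →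
  ∀ (p : ℝ) (b : Fin M → ℝ), p = ∫ g, Real.exp (-W g) ∂(gm M) →
    (∀ j, p * b j = ∫ g, g j * Real.exp (-W g) ∂(gm M)) →
  0 < p ∧ p ≤ 1 ∧ ∑ j, b j ^ 2 ≤ 2 * Real.log (1 / p)

/-- FIX: the fixed point -/
def S_FIX : Prop := ∀ (n M : ℕ) (c : Fin M → ℝ) (a : Fin M → E n), (∀ j, 0 ≤ c j) →
  ∀ u β : ℝ, 0 < u → 0 < β →
  ∃ σ : Fin M → ℝ, ∀ j, σ j = u / max u |bb c a u β σ j|

/-- TWO: the two sided estimate after a rescaling of few coordinates -/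
def S_TWO : Prop := ∀ (n M : ℕ) (c : Fin M → ℝ) (a : Fin M → E n), Lew c a →
  ∀ τ r : ℝ, 0 < τ → 0 < r → (∀ j, c j ≤ τ) →
  ∃ (σ : Fin M → ℝ) (m : Fin M → ℕ), (∀ j, 0 < σ j ∧ σ j ≤ 1) ∧ (∀ j, 1 / σ j ^ 2 ≤ (m j : ℝ)) ∧
    (∑ j, (m j : ℝ)) ≤ M + 9 * n / (4 * r ^ 4 * τ) ∧
    Real.exp (-(9 * n / (4 * r ^ 2))) / 2 ≤
      ((gm M) {k | ∀ x, |FF c a (fun j => σ j * k j) x| ≤ 5 * r * Real.sqrt τ * hh c a x}).toReal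

/-- SHI: translates of symmetric sets -/
def S_SHI : Prop := ∀ (M : ℕ) (B : Set (Fin M → ℝ)), MeasurableSet B → (∀ y ∈ B, -y ∈ B) →
  ∀ z : Fin M → ℝ, Real.exp (-(∑ j, z j ^ 2) / 2) * ((gm M) B).toReal ≤
    ((gm M) {g | g - z ∈ B}).toReal

/-- AVG: second moment of block averages of signs -/
def S_AVG : Prop := ∀ (M : ℕ) (m : Fin M → ℕ) (w : Fin M → ℝ), (∀ j, 0 < m j) →
  (∀ j, w j ^ 2 ≤ (m j : ℝ)) →
  ∑ ε : (Σ j : Fin M, Fin (m j)) → Bool,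
    ∑ j, (((∑ l : Fin (m j), sg (ε ⟨j, l⟩)) / m j) * w j) ^ 2 ≤
      2 ^ (Fintype.card (Σ j : Fin M, Fin (m j))) * (M : ℝ)

/-- COL: partial colouring after splitting -/
def S_COL : Prop := ∀ (M : ℕ) (B : Set (Fin M → ℝ)), Convex ℝ B → IsClosed B → (∀ y ∈ B, -y ∈ B) →
  ∀ (σ : Fin M → ℝ) (m : Fin M → ℕ), (∀ j, 0 < σ j) → (∀ j, 1 / σ j ^ 2 ≤ (m j : ℝ)) → 4 ≤ M →
  Real.exp (-(3 * (M : ℝ) / 200)) / 2 ≤ ((gm M) B).toReal →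
  ∃ δ : (Σ j : Fin M, Fin (m j)) → ℝ, (∀ i, δ i = 0 ∨ δ i = 1 ∨ δ i = -1) ∧
    (∑ j, (m j : ℝ)) ≤ 10 * ((univ.filter fun i => δ i ≠ 0).card : ℝ) ∧
    (fun j => (1 / 10 : ℝ) * ((∑ l : Fin (m j), δ ⟨j, l⟩) / m j) / σ j) ∈ B

/-- STEPL: one step in Lewis position -/
def S_STEPL : Prop := ∀ (n M : ℕ) (c : Fin M → ℝ) (a : Fin M → E n), Lew c a →
  ∀ τ : ℝ, 0 < τ → (∀ j, c j ≤ τ) → 0 < n → 10 * n ≤ M →
  ∃ (N' : ℕ) (w : Fin N' → ℝ) (f : Fin N' → Fin M), (∀ k, 0 ≤ w k) ∧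
    (N' : ℝ) ≤ 95 / 100 * (M + 9 * n / (1024 * τ)) ∧
    ∀ x : E n, abs ((∑ k, w k * |⟪a (f k), x⟫|) - hh c a x) ≤ 200 * Real.sqrt τ * hh c a x

/-- STEP: one step, general position -/
def S_STEP : Prop := ∀ (n N : ℕ) (u : Fin N → E n), 0 < n →
  (∀ x : E n, (∀ j, ⟪u j, x⟫ = 0) → x = 0) → 1000 * n ≤ N →
  ∃ (N' : ℕ) (v : Fin N' → E n), (N' : ℝ) ≤ 97 / 100 * N ∧
    ∀ x : E n, abs ((∑ k, |⟪v k, x⟫|) - ∑ j, |⟪u j, x⟫|) ≤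
      2000 * Real.sqrt ((n : ℝ) / N) * ∑ j, |⟪u j, x⟫|

/-- ITER: iteration -/
def S_ITER : Prop := ∃ C : ℝ, 0 < C ∧ ∀ (n N : ℕ) (u : Fin N → E n), 0 < n →
  (∀ x : E n, (∀ j, ⟪u j, x⟫ = 0) → x = 0) → ∀ ε : ℝ, 0 < ε → ε < 1 →
  ∃ (N' : ℕ) (v : Fin N' → E n), (N' : ℝ) ≤ C * n / ε ^ 2 ∧
    ∀ x : E n, abs ((∑ k, |⟪v k, x⟫|) - ∑ j, |⟪u j, x⟫|) ≤ ε * ∑ j, |⟪u j, x⟫|

/-- a zonotope that is a sum of `M` segments, up to translation -/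
def IsZon {n : ℕ} (M : ℕ) (Z : Set (E n)) : Prop :=
  ∃ (z : E n) (v : Fin M → E n), Z = {x | ∃ y ∈ Zon v, x = z + y}

/-- origin-symmetric zonoid: a convex body that is a Hausdorff limit of zonotopes -/
def IsZonoid {n : ℕ} (K : Set (E n)) : Prop :=
  Convex ℝ K ∧ IsCompact K ∧ (interior K).Nonempty ∧ (∀ x ∈ K, -x ∈ K) ∧
    ∀ ε : ℝ, 0 < ε → ∃ (M : ℕ) (Z : Set (E n)), IsZon M Z ∧ Metric.hausdorffDist K Z < ε

/-- ZSUP: comparison of zonotopes through their support functions -/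
def S_ZSUP : Prop := ∀ (n N N' : ℕ) (u : Fin N → E n) (v : Fin N' → E n) (s : ℝ), 0 ≤ s →
  (∀ x : E n, ∑ k, |⟪v k, x⟫| ≤ s * ∑ j, |⟪u j, x⟫|) →
  ∀ y ∈ Zon v, ∃ z ∈ Zon u, y = s • z

/-- ZOND: a zonoid is close to an origin-symmetric zonotope -/
def S_ZOND : Prop := ∀ (n : ℕ) (K : Set (E n)), IsZonoid K → ∀ κ : ℝ, 0 < κ →
  ∃ (N : ℕ) (u : Fin N → E n), (∀ x ∈ Zon u, ∃ y ∈ K, x = (1 + κ) • y) ∧
    (∀ x ∈ K, ∃ y ∈ Zon u, x = (1 + κ) • y) ∧ (∀ x : E n, (∀ j, ⟪u j, x⟫ = 0) → x = 0)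

/-- FIN: the theorem -/
def S_FIN : Prop := ∃ C : ℝ, 0 < C ∧ ∀ (n : ℕ) (K : Set (E n)), IsZonoid K →
  ∀ ε : ℝ, 0 < ε → ε < 1 →
  ∃ (M : ℕ) (v : Fin M → E n), (M : ℝ) ≤ C * n / ε ^ 2 ∧ Zon v ⊆ K ∧
    ∀ x ∈ K, ∃ y ∈ Zon v, x = (1 + ε) • y

end Pool.Agent.H902R3.ZA
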