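import Pool.Agent.H902R3.ZA.Defs

/-!
# Assembly of the theorem
-/

set_option autoImplicit false

open MeasureTheory ProbabilityTheory Finset
open scoped RealInnerProductSpace ENNReal

namespace Pool.Agent.H902R3.ZA

open Pool.Agent.H172R2.ZS (E Zon Lew sg)

namespace FINaux

theorem zero_mem {n M : ℕ} (v : Fin M → E n) : (0 : E n) ∈ Zon v := by
  refine ⟨fun _ => 0, fun j => ?_, ?_⟩
  · simp
  · simp

theorem smul_mem {n M : ℕ} (v : Fin M → E n) (s : ℝ) (h0 : 0 ≤ s) (h1 : s ≤ 1) (x : E n)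
    (hx : x ∈ Zon v) : s • x ∈ Zon v := by
  obtain ⟨t, ht, rfl⟩ := hx
  refine ⟨fun j => s * t j, fun j => ?_, ?_⟩
  · have h2 := ht j
    rw [Set.mem_Icc] at h2
    show s * t j ∈ Set.Icc (-1 : ℝ) 1
    rw [Set.mem_Icc]
    constructor <;> nlinarith [h2.1, h2.2]
  · rw [Finset.smul_sum]
    exact Finset.sum_congr rfl fun j _ => by rw [smul_smul]

theorem zon_smul {n M : ℕ} (v : Fin M → E n) (l : ℝ) (x : E n) :
    x ∈ Zon (fun j => l • v j) ↔ ∃ y ∈ Zon v, x = l • y := by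
  constructor
  · rintro ⟨t, ht, rfl⟩
    refine ⟨∑ j, t j • v j, ⟨t, ht, rfl⟩, ?_⟩
    rw [Finset.smul_sum]
    exact Finset.sum_congr rfl fun j _ => smul_comm _ _ _
  · rintro ⟨y, ⟨t, ht, rfl⟩, rfl⟩
    refine ⟨t, ht, ?_⟩
    rw [Finset.smul_sum]
    exact Finset.sum_congr rfl fun j _ => smul_comm _ _ _

end FINaux

theorem FIN_ok (h1 : S_ITER) (h2 : S_ZSUP) (h3 : S_ZOND) : S_FIN := by
  obtain ⟨C, hC, hit⟩ := h1
  refine ⟨64 * C, by positivity, ?_⟩
  intro n K hK ε hε0 hε1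
  rcases Nat.eq_zero_or_pos n with hn | hn
  · subst hn
    refine ⟨0, fun _ => 0, ?_, ?_, ?_⟩
    · simp
    · intro y _
      obtain ⟨x, hx⟩ := hK.2.2.1
      have : y = x := Subsingleton.elim _ _
      rw [this]
      exact interior_subset hx
    · intro x _
      exact ⟨0, FINaux.zero_mem _, Subsingleton.elim _ _⟩
  · obtain ⟨t, ht⟩ : ∃ t : ℝ, t = ε / 8 := ⟨_, rfl⟩
    have ht0 : 0 < t := by rw [ht]; positivity
    have ht8 : t < 1 / 8 := by rw [ht]; linarith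
    have hεt : ε = 8 * t := by rw [ht]; ring
    obtain ⟨N, u, hu1, hu2, hu3⟩ := h3 n K hK t ht0
    obtain ⟨N', v0, hN', hv⟩ := hit n N u hn hu3 t ht0 (by linarith)
    obtain ⟨l, hl⟩ : ∃ l : ℝ, l = 1 / ((1 + t) * (1 + t)) := ⟨_, rfl⟩
    have hl0 : 0 < l := by rw [hl]; positivity
    have hH0 : ∀ x : E n, 0 ≤ ∑ j, |⟪u j, x⟫| := fun x => Finset.sum_nonneg fun j _ => abs_nonneg _
    have hA := h2 n N N' u v0 (1 + t) (by linarith) (fun x => by
      have := (abs_le.mp (hv x)).2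
      linarith)
    have hB := h2 n N' N v0 u (1 / (1 - t)) (by
      apply div_nonneg <;> linarith) (fun x => by
      have := (abs_le.mp (hv x)).1
      rw [one_div, ← div_eq_inv_mul, le_div_iff₀ (by linarith)]
      linarith)
    refine ⟨N', fun j => l • v0 j, ?_, ?_, ?_⟩
    · refine hN'.trans (le_of_eq ?_)
      rw [ht]
      field_simp
      ring
    · intro y hy
      obtain ⟨y0, hy0, rfl⟩ := (FINaux.zon_smul v0 l y).mp hy
      obtain ⟨z, hz, rfl⟩ := hA y0 hy0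
      obtain ⟨w, hw, rfl⟩ := hu1 z hz
      have e : l • (1 + t) • (1 + t) • w = w := by
        rw [smul_smul, smul_smul, hl]
        have : 1 / ((1 + t) * (1 + t)) * ((1 + t) * (1 + t)) = 1 := by field_simp
        rw [mul_assoc, this, one_smul]
      rw [e]
      exact hw
    · intro x hx
      obtain ⟨y1, hy1, hx1⟩ := hu2 x hx
      obtain ⟨z, hz, hz1⟩ := hB y1 hy1
      obtain ⟨μ, hμ⟩ : ∃ μ : ℝ, μ = (1 + t) * (1 / (1 - t)) * ((1 + t) * (1 + t)) / (1 + ε) := ⟨_, rfl⟩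
      have h1t : 0 < 1 - t := by linarith
      have hμ0 : 0 ≤ μ := by rw [hμ]; positivity
      have hμ1 : μ ≤ 1 := by
        rw [hμ, div_le_one (by positivity), mul_one_div, div_mul_eq_mul_div, div_le_iff₀ h1t, hεt]
        nlinarith [mul_pos ht0 ht0, mul_pos (mul_pos ht0 ht0) ht0]
      refine ⟨μ • (l • z), FINaux.smul_mem _ μ hμ0 hμ1 _ ((FINaux.zon_smul v0 l _).mpr ⟨z, hz, rfl⟩), ?_⟩
      rw [hx1, hz1, smul_smul, smul_smul, smul_smul]
      congr 1
      rw [hμ, hl]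
      field_simp

end Pool.Agent.H902R3.ZA
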