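import Pool.Agent.H902R3.ZA.Defs
import Pool.Agent.Helper608.Brouwer

/-!
# FIX: the fixed point
-/

set_option autoImplicit false

open MeasureTheory ProbabilityTheory Finset
open scoped RealInnerProductSpace ENNReal

namespace Pool.Agent.H902R3.ZA

open Pool.Agent.H172R2.ZS (E Zon Lew sg)

namespace FIXaux

theorem WW_nonneg {n M : ℕ} (c : Fin M → ℝ) (a : Fin M → E n) (u β : ℝ) (hβ : 0 < β)
    (σ g : Fin M → ℝ) : 0 ≤ WW c a u β σ g :=
  mul_nonneg hβ.le (le_max_left _ _)

theorem WW_cont {n M : ℕ} (c : Fin M → ℝ) (a : Fin M → E n) (hc : Continuous (Phi c a)) (u β : ℝ) :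
    Continuous (fun p : (Fin M → ℝ) × (Fin M → ℝ) => WW c a u β p.1 p.2) := by
  unfold WW
  have h1 : Continuous (fun p : (Fin M → ℝ) × (Fin M → ℝ) => fun j => p.1 j * p.2 j) := by
    fun_prop
  have h2 := hc.comp h1
  exact continuous_const.mul (continuous_const.max (h2.sub continuous_const))

theorem int_coord {M : ℕ} (j : Fin M) : Integrable (fun g : Fin M → ℝ => g j) (gm M) := by
  have h1 : Integrable (fun x : ℝ => x) (gaussianReal 0 1) := by
    have := (memLp_id_gaussianReal (μ := 0) (v := 1) 1)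
    exact this.integrable (by simp)
  have h2 : MeasurePreserving (Function.eval j) (gm M) (gaussianReal 0 1) :=
    measurePreserving_eval (fun _ : Fin M => gaussianReal 0 1) j
  exact h2.integrable_comp_of_integrable h1

theorem exp_le {n M : ℕ} (c : Fin M → ℝ) (a : Fin M → E n) (u β : ℝ) (hβ : 0 < β)
    (σ g : Fin M → ℝ) : ‖Real.exp (-(WW c a u β σ g))‖ ≤ 1 := by
  rw [Real.norm_eq_abs, abs_of_pos (Real.exp_pos _)]
  exact Real.exp_le_one_iff.mpr (neg_nonpos.mpr (WW_nonneg c a u β hβ σ g))

theorem cont_right {n M : ℕ} (c : Fin M → ℝ) (a : Fin M → E n) (hc : Continuous (Phi c a))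
    (u β : ℝ) (σ : Fin M → ℝ) : Continuous (fun g => Real.exp (-(WW c a u β σ g))) :=
  Real.continuous_exp.comp ((WW_cont c a hc u β).comp (Continuous.prodMk_right σ)).neg

theorem cont_left {n M : ℕ} (c : Fin M → ℝ) (a : Fin M → E n) (hc : Continuous (Phi c a))
    (u β : ℝ) (g : Fin M → ℝ) : Continuous (fun σ => Real.exp (-(WW c a u β σ g))) :=
  Real.continuous_exp.comp ((WW_cont c a hc u β).comp (Continuous.prodMk_left g)).neg

theorem pp_cont {n M : ℕ} (c : Fin M → ℝ) (a : Fin M → E n) (hc : Continuous (Phi c a))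
    (u β : ℝ) (hβ : 0 < β) : Continuous (fun σ => pp c a u β σ) := by
  unfold pp
  refine continuous_of_dominated (bound := fun _ => 1) ?_ ?_ (integrable_const _) ?_
  · intro σ
    exact (cont_right c a hc u β σ).aestronglyMeasurable
  · intro σ
    exact Filter.Eventually.of_forall (fun g => exp_le c a u β hβ σ g)
  · exact Filter.Eventually.of_forall (fun g => cont_left c a hc u β g)

theorem pp_pos {n M : ℕ} (c : Fin M → ℝ) (a : Fin M → E n) (hc : Continuous (Phi c a))
    (u β : ℝ) (hβ : 0 < β) (σ : Fin M → ℝ) : 0 < pp c a u β σ := by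
  unfold pp
  apply integral_exp_pos
  apply Integrable.mono' (integrable_const (1 : ℝ)) (cont_right c a hc u β σ).aestronglyMeasurable
  exact Filter.Eventually.of_forall (fun g => exp_le c a u β hβ σ g)

theorem num_cont {n M : ℕ} (c : Fin M → ℝ) (a : Fin M → E n) (hc : Continuous (Phi c a))
    (u β : ℝ) (hβ : 0 < β) (j : Fin M) :
    Continuous (fun σ => ∫ g, g j * Real.exp (-(WW c a u β σ g)) ∂(gm M)) := by
  refine continuous_of_dominated (bound := fun g => ‖g j‖) ?_ ?_ (int_coord j).norm ?_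
  · intro σ
    exact ((continuous_apply j).mul (cont_right c a hc u β σ)).aestronglyMeasurable
  · intro σ
    refine Filter.Eventually.of_forall (fun g => ?_)
    rw [norm_mul]
    exact mul_le_of_le_one_right (norm_nonneg _) (exp_le c a u β hβ σ g)
  · exact Filter.Eventually.of_forall (fun g => continuous_const.mul (cont_left c a hc u β g))

theorem bb_cont {n M : ℕ} (c : Fin M → ℝ) (a : Fin M → E n) (hc : Continuous (Phi c a))
    (u β : ℝ) (hβ : 0 < β) (j : Fin M) : Continuous (fun σ => bb c a u β σ j) := by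
  unfold bb
  exact (num_cont c a hc u β hβ j).div (pp_cont c a hc u β hβ)
    (fun σ => (pp_pos c a hc u β hβ σ).ne')

end FIXaux

open FIXaux

theorem FIX_ok (h : S_PHI) : S_FIX := by
  intro n M c a hc0 u β hu hβ
  have hc : Continuous (Phi c a) := (h n M c a hc0).2.2.1
  let f : (Fin M → ℝ) → (Fin M → ℝ) := fun σ j => u / max u |bb c a u β σ j|
  have hmax : ∀ σ j, 0 < max u |bb c a u β σ j| := fun σ j => lt_max_of_lt_left hu
  have hf : Continuous f := by
    refine continuous_pi (fun j => ?_)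
    exact continuous_const.div (continuous_const.max (bb_cont c a hc u β hβ j).abs)
      (fun σ => (hmax σ j).ne')
  have hb : ∀ σ, ‖f σ‖ ≤ 1 := by
    intro σ
    rw [pi_norm_le_iff_of_nonneg zero_le_one]
    intro j
    rw [Real.norm_eq_abs, abs_of_nonneg (div_nonneg hu.le (hmax σ j).le)]
    rw [div_le_one (hmax σ j)]
    exact le_max_left _ _
  obtain ⟨σ, hσ⟩ := Pool.Agent.Helper608.Brouwer.brouwer f hf 1 hb
  exact ⟨σ, fun j => (congrFun hσ j).symm⟩

end Pool.Agent.H902R3.ZA
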