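import Pool.Agent.H902R3.ZA.Defs

/-!
# ITER: iteration of the step
-/

set_option autoImplicit false

open MeasureTheory ProbabilityTheory Finset
open scoped RealInnerProductSpace ENNReal

namespace Pool.Agent.H902R3.ZA

open Pool.Agent.H172R2.ZS (E Zon Lew sg)

namespace ITERaux

/-- the support function of the zonotope -/
noncomputable def HH {n N : ℕ} (u : Fin N → E n) (x : E n) : ℝ := ∑ j, |⟪u j, x⟫|

theorem HH_nonneg {n N : ℕ} (u : Fin N → E n) (x : E n) : 0 ≤ HH u x :=
  Finset.sum_nonneg fun _ _ => abs_nonneg _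

theorem HH_eq_zero {n N : ℕ} (u : Fin N → E n) (x : E n) (h : HH u x = 0) :
    ∀ j, ⟪u j, x⟫ = 0 := by
  intro j
  have := (Finset.sum_eq_zero_iff_of_nonneg (fun j _ => abs_nonneg (⟪u j, x⟫))).1 h j
    (Finset.mem_univ j)
  exact abs_eq_zero.1 this

theorem exp_neg_two_le {q : ℝ} (h0 : 0 ≤ q) (h1 : q ≤ 1 / 2) : Real.exp (-(2 * q)) ≤ 1 - q := by
  have h2 : 1 + 2 * q ≤ Real.exp (2 * q) := by
    have := Real.add_one_le_exp (2 * q)
    linarith
  rw [Real.exp_neg, inv_le_comm₀ (Real.exp_pos _) (by linarith)]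
  refine le_trans ?_ h2
  rw [inv_le_comm₀ (by linarith) (by linarith), inv_eq_one_div, div_le_iff₀ (by linarith)]
  nlinarith

theorem exp_le_add {q : ℝ} (h0 : 0 ≤ q) (h1 : q ≤ 1 / 2) : Real.exp q ≤ 1 + 2 * q := by
  have h2 : 1 - q ≤ Real.exp (-q) := by
    have := Real.add_one_le_exp (-q)
    linarith
  rw [Real.exp_neg] at h2
  have h3 : Real.exp q * (Real.exp q)⁻¹ = 1 := mul_inv_cancel₀ (Real.exp_pos _).ne'
  have h4 : Real.exp q * (1 - q) ≤ 1 := by
    calc Real.exp q * (1 - q) ≤ Real.exp q * (Real.exp q)⁻¹ :=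
          mul_le_mul_of_nonneg_left h2 (Real.exp_pos _).le
      _ = 1 := h3
  have h5 : 0 < Real.exp q := Real.exp_pos _
  nlinarith [mul_nonneg h5.le (by nlinarith : (0:ℝ) ≤ (1 - q) * (1 + 2 * q) - 1)]

/-- error function -/
noncomputable def EE (n : ℕ) (T : ℝ) (N : ℕ) : ℝ :=
  400000 * (Real.sqrt (n / T) - Real.sqrt (n / max (N : ℝ) T)) + 4000 * Real.sqrt (n / T)

theorem EE_of_le (n : ℕ) (T : ℝ) (N : ℕ) (h : (N : ℝ) ≤ T) :
    EE n T N = 4000 * Real.sqrt (n / T) := by
  unfold EE
  rw [max_eq_right h]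
  ring

theorem EE_of_ge (n : ℕ) (T : ℝ) (N : ℕ) (h : T ≤ (N : ℝ)) :
    EE n T N = 400000 * (Real.sqrt (n / T) - Real.sqrt (n / (N : ℝ))) +
      4000 * Real.sqrt (n / T) := by
  unfold EE
  rw [max_eq_left h]

theorem EE_nonneg (n : ℕ) (T : ℝ) (hT : 0 < T) (N : ℕ) : 0 ≤ EE n T N := by
  unfold EE
  have h1 : Real.sqrt (n / max (N : ℝ) T) ≤ Real.sqrt (n / T) := by
    apply Real.sqrt_le_sqrt
    exact div_le_div_of_nonneg_left (Nat.cast_nonneg n) hT (le_max_right _ _)
  have h2 := Real.sqrt_nonneg ((n : ℝ) / T)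
  nlinarith

theorem EE_le (n : ℕ) (T : ℝ) (N : ℕ) : EE n T N ≤ 404000 * Real.sqrt (n / T) := by
  unfold EE
  have h2 := Real.sqrt_nonneg ((n : ℝ) / max (N : ℝ) T)
  nlinarith

theorem key (h : S_STEP) (n : ℕ) (hn : 0 < n) (T : ℝ) (hT : 100000000 * (n : ℝ) ≤ T) :
    ∀ (N : ℕ) (u : Fin N → E n), (∀ x : E n, (∀ j, ⟪u j, x⟫ = 0) → x = 0) →
    ∃ (N' : ℕ) (v : Fin N' → E n), (N' : ℝ) ≤ T ∧
      ∀ x : E n, Real.exp (-(EE n T N)) * HH u x ≤ HH v x ∧
        HH v x ≤ Real.exp (EE n T N) * HH u x := by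
  have hn' : (1 : ℝ) ≤ n := by exact_mod_cast hn
  have hT0 : 0 < T := by linarith
  intro N
  induction N using Nat.strong_induction_on with
  | _ N ih =>
    intro u hu
    by_cases hNT : (N : ℝ) ≤ T
    · refine ⟨N, u, hNT, fun x => ?_⟩
      have hE := EE_nonneg n T hT0 N
      have h0 := HH_nonneg u x
      constructor
      · have : Real.exp (-(EE n T N)) ≤ 1 := Real.exp_le_one_iff.2 (by linarith)
        nlinarith
      · have : 1 ≤ Real.exp (EE n T N) := Real.one_le_exp hE
        nlinarith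
    · rw [not_le] at hNT
      have hN0 : (0 : ℝ) < N := by linarith
      have hN1000 : 1000 * n ≤ N := by
        have h1 : (1000 * (n : ℝ)) ≤ N := by linarith
        exact_mod_cast h1
      obtain ⟨N1, v1, hN1, hv1⟩ := h n N u hn hu hN1000
      set s : ℝ := Real.sqrt ((n : ℝ) / N) with hs
      have hs0 : 0 ≤ s := Real.sqrt_nonneg _
      have hs2 : s ≤ 1 / 10000 := by
        rw [hs]
        apply Real.sqrt_le_iff.2
        refine ⟨by norm_num, ?_⟩
        rw [div_le_iff₀ hN0]
        nlinarith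
      set q : ℝ := 2000 * s with hq
      have hq0 : 0 ≤ q := by positivity
      have hq1 : q ≤ 1 / 2 := by rw [hq]; linarith
      have hlo : ∀ x, Real.exp (-(2 * q)) * HH u x ≤ HH v1 x := by
        intro x
        have h1 : |HH v1 x - HH u x| ≤ q * HH u x := hv1 x
        have h2 := (abs_le.1 h1).1
        have h3 := exp_neg_two_le hq0 hq1
        have h4 := HH_nonneg u x
        nlinarith
      have hup : ∀ x, HH v1 x ≤ Real.exp (2 * q) * HH u x := by
        intro x
        have h1 : |HH v1 x - HH u x| ≤ q * HH u x := hv1 x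
        have h2 := (abs_le.1 h1).2
        have h3 : 1 + 2 * q ≤ Real.exp (2 * q) := by
          have := Real.add_one_le_exp (2 * q)
          linarith
        have h4 := HH_nonneg u x
        nlinarith
      have hv1s : ∀ x : E n, (∀ j, ⟪v1 j, x⟫ = 0) → x = 0 := by
        intro x hx
        apply hu
        apply HH_eq_zero
        have h1 : HH v1 x = 0 := by
          unfold HH
          exact Finset.sum_eq_zero fun j _ => by rw [hx j, abs_zero]
        have h2 := hlo x
        rw [h1] at h2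
        have h3 := Real.exp_pos (-(2 * q))
        have h4 := HH_nonneg u x
        nlinarith
      have hEN := EE_of_ge n T N hNT.le
      rw [← hs] at hEN
      have hsT : s ≤ Real.sqrt ((n : ℝ) / T) := by
        rw [hs]
        apply Real.sqrt_le_sqrt
        exact div_le_div_of_nonneg_left (Nat.cast_nonneg n) hT0 hNT.le
      by_cases hN1T : (N1 : ℝ) ≤ T
      · refine ⟨N1, v1, hN1T, fun x => ?_⟩
        have hle : 2 * q ≤ EE n T N := by
          rw [hEN, hq]
          nlinarith
        have h4 := HH_nonneg u x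
        constructor
        · refine le_trans ?_ (hlo x)
          exact mul_le_mul_of_nonneg_right (Real.exp_le_exp.2 (by linarith)) h4
        · refine le_trans (hup x) ?_
          exact mul_le_mul_of_nonneg_right (Real.exp_le_exp.2 hle) h4
      · rw [not_le] at hN1T
        have hN10 : (0 : ℝ) < N1 := by linarith
        have hlt : N1 < N := by
          have : (N1 : ℝ) < N := by nlinarith
          exact_mod_cast this
        obtain ⟨N', v, hN', hv⟩ := ih N1 hlt v1 hv1s
        refine ⟨N', v, hN', fun x => ?_⟩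
        have hEN1 := EE_of_ge n T N1 hN1T.le
        have hr : 1.015 * s ≤ Real.sqrt ((n : ℝ) / N1) := by
          apply Real.le_sqrt_of_sq_le
          have hs2' : s ^ 2 = (n : ℝ) / N := by
            rw [hs]; exact Real.sq_sqrt (by positivity)
          rw [mul_pow, hs2', mul_div_assoc', div_le_div_iff₀ hN0 hN10]
          have : (0 : ℝ) ≤ n := by linarith
          nlinarith [mul_le_mul_of_nonneg_left hN1 this]
        have hle : 2 * q + EE n T N1 ≤ EE n T N := by
          rw [hEN, hEN1, hq]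
          nlinarith
        have h4 := HH_nonneg u x
        obtain ⟨h5, h6⟩ := hv x
        constructor
        · calc Real.exp (-(EE n T N)) * HH u x
              ≤ Real.exp (-(EE n T N1) + -(2 * q)) * HH u x :=
                mul_le_mul_of_nonneg_right (Real.exp_le_exp.2 (by linarith)) h4
            _ = Real.exp (-(EE n T N1)) * (Real.exp (-(2 * q)) * HH u x) := by
                rw [Real.exp_add]; ring
            _ ≤ Real.exp (-(EE n T N1)) * HH v1 x :=
                mul_le_mul_of_nonneg_left (hlo x) (Real.exp_pos _).le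
            _ ≤ HH v x := h5
        · calc HH v x ≤ Real.exp (EE n T N1) * HH v1 x := h6
            _ ≤ Real.exp (EE n T N1) * (Real.exp (2 * q) * HH u x) :=
                mul_le_mul_of_nonneg_left (hup x) (Real.exp_pos _).le
            _ = Real.exp (EE n T N1 + 2 * q) * HH u x := by
                rw [Real.exp_add]; ring
            _ ≤ Real.exp (EE n T N) * HH u x :=
                mul_le_mul_of_nonneg_right (Real.exp_le_exp.2 (by linarith)) h4

end ITERaux

open ITERaux in
theorem ITER_ok (h : S_STEP) : S_ITER := by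
  refine ⟨1000000000000, by norm_num, ?_⟩
  intro n N u hn hu ε hε0 hε1
  have hn' : (1 : ℝ) ≤ n := by exact_mod_cast hn
  have hT : 100000000 * (n : ℝ) ≤ 1000000000000 * n / ε ^ 2 := by
    rw [le_div_iff₀ (by positivity)]
    have : ε ^ 2 ≤ 1 := by nlinarith
    nlinarith
  obtain ⟨N', v, hN', hv⟩ := key h n hn (1000000000000 * n / ε ^ 2) hT N u hu
  refine ⟨N', v, hN', fun x => ?_⟩
  obtain ⟨h1, h2⟩ := hv x
  set e := EE n (1000000000000 * n / ε ^ 2) N with he
  have hT0 : (0 : ℝ) < 1000000000000 * n / ε ^ 2 := by positivity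
  have he0 : 0 ≤ e := EE_nonneg _ _ hT0 _
  have hsq : Real.sqrt ((n : ℝ) / (1000000000000 * n / ε ^ 2)) = ε / 1000000 := by
    have : (n : ℝ) / (1000000000000 * n / ε ^ 2) = (ε / 1000000) ^ 2 := by
      field_simp
      norm_num
    rw [this, Real.sqrt_sq (by positivity)]
  have he1 : e ≤ 404000 * (ε / 1000000) := by
    rw [← hsq]; exact EE_le _ _ _
  have he2 : e ≤ ε / 2 := by linarith
  have h0 := HH_nonneg u x
  have h3 : Real.exp e ≤ 1 + 2 * e := exp_le_add he0 (by linarith)
  have h4 : 1 - e ≤ Real.exp (-e) := by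
    have := Real.add_one_le_exp (-e)
    linarith
  show |HH v x - HH u x| ≤ ε * HH u x
  rw [abs_le]
  constructor
  · nlinarith
  · nlinarith

end Pool.Agent.H902R3.ZA
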