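import Pool.Agent.H902R3.ZA.Defs

set_option autoImplicit false

open MeasureTheory ProbabilityTheory Finset
open scoped RealInnerProductSpace ENNReal

namespace Pool.Agent.H902R3.ZA

namespace JENaux

variable {M : ℕ}

noncomputable def U (W : (Fin M → ℝ) → ℝ) (η k : Fin M → ℝ) : ℝ :=
  W (fun j => (η j + k j) / Real.sqrt 2) + W (fun j => (η j - k j) / Real.sqrt 2)

noncomputable def Q (W : (Fin M → ℝ) → ℝ) (η : Fin M → ℝ) : ℝ :=
  ∫ k, Real.exp (-U W η k) ∂(gm M)

lemma U_cont (W : (Fin M → ℝ) → ℝ) (hW : Continuous W) :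
    Continuous (fun z : (Fin M → ℝ) × (Fin M → ℝ) => U W z.1 z.2) := by
  unfold U
  refine (hW.comp ?_).add (hW.comp ?_)
  · refine continuous_pi fun j => ?_
    fun_prop
  · refine continuous_pi fun j => ?_
    fun_prop

lemma U_cont2 (W : (Fin M → ℝ) → ℝ) (hW : Continuous W) (η : Fin M → ℝ) :
    Continuous (fun k : (Fin M → ℝ) => U W η k) :=
  (U_cont W hW).comp (Continuous.prodMk continuous_const continuous_id)

lemma U_cont1 (W : (Fin M → ℝ) → ℝ) (hW : Continuous W) (k : Fin M → ℝ) :
    Continuous (fun η : (Fin M → ℝ) => U W η k) :=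
  (U_cont W hW).comp (Continuous.prodMk continuous_id continuous_const)

lemma U_nonneg (W : (Fin M → ℝ) → ℝ) (hW : ∀ g, 0 ≤ W g) (η k : Fin M → ℝ) : 0 ≤ U W η k :=
  add_nonneg (hW _) (hW _)

lemma U_conv (W : (Fin M → ℝ) → ℝ) (hW : ConvexOn ℝ Set.univ W) (s : ℝ) (hs0 : 0 ≤ s)
    (hs1 : s ≤ 1) (η η' x y : Fin M → ℝ) :
    U W (fun i => s * η i + (1 - s) * η' i) (fun i => s * x i + (1 - s) * y i) ≤
      s * U W η x + (1 - s) * U W η' y := by
  unfold U
  have h1 := hW.2 (Set.mem_univ (fun j => (η j + x j) / Real.sqrt 2))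
    (Set.mem_univ (fun j => (η' j + y j) / Real.sqrt 2)) hs0 (sub_nonneg.2 hs1) (by ring)
  have h2 := hW.2 (Set.mem_univ (fun j => (η j - x j) / Real.sqrt 2))
    (Set.mem_univ (fun j => (η' j - y j) / Real.sqrt 2)) hs0 (sub_nonneg.2 hs1) (by ring)
  have e1 : (s • (fun j => (η j + x j) / Real.sqrt 2) +
      (1 - s) • (fun j => (η' j + y j) / Real.sqrt 2)) =
      (fun j => ((s * η j + (1 - s) * η' j) + (s * x j + (1 - s) * y j)) / Real.sqrt 2) := by
    funext j
    simp only [Pi.add_apply, Pi.smul_apply, smul_eq_mul]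
    ring
  have e2 : (s • (fun j => (η j - x j) / Real.sqrt 2) +
      (1 - s) • (fun j => (η' j - y j) / Real.sqrt 2)) =
      (fun j => ((s * η j + (1 - s) * η' j) - (s * x j + (1 - s) * y j)) / Real.sqrt 2) := by
    funext j
    simp only [Pi.add_apply, Pi.smul_apply, smul_eq_mul]
    ring
  rw [e1] at h1
  rw [e2] at h2
  simp only [smul_eq_mul] at h1 h2
  linarith

lemma F_le_one (W : (Fin M → ℝ) → ℝ) (hW : ∀ g, 0 ≤ W g) (η k : Fin M → ℝ) :
    Real.exp (-U W η k) ≤ 1 := by
  rw [Real.exp_le_one_iff]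
  linarith [U_nonneg W hW η k]

lemma F_int (W : (Fin M → ℝ) → ℝ) (hWc : Continuous W) (hW : ∀ g, 0 ≤ W g) (η : Fin M → ℝ) :
    Integrable (fun k => Real.exp (-U W η k)) (gm M) := by
  refine Integrable.of_bound (C := 1)
    (Real.continuous_exp.comp (U_cont2 W hWc η).neg).aestronglyMeasurable ?_
  refine Filter.Eventually.of_forall fun k => ?_
  rw [Real.norm_of_nonneg (Real.exp_pos _).le]
  exact F_le_one W hW η k

lemma Q_pos (W : (Fin M → ℝ) → ℝ) (hWc : Continuous W) (hW : ∀ g, 0 ≤ W g) (η : Fin M → ℝ) :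
    0 < Q W η :=
  integral_exp_pos (F_int W hWc hW η)

lemma Q_le_one (W : (Fin M → ℝ) → ℝ) (hWc : Continuous W) (hW : ∀ g, 0 ≤ W g) (η : Fin M → ℝ) :
    Q W η ≤ 1 := by
  have h := integral_mono (F_int W hWc hW η) (integrable_const (1 : ℝ))
    (fun k => F_le_one W hW η k)
  simpa [Q] using h

lemma Q_cont (W : (Fin M → ℝ) → ℝ) (hWc : Continuous W) (hW : ∀ g, 0 ≤ W g) :
    Continuous (Q W) := by
  unfold Q
  refine continuous_of_dominated (bound := fun _ => (1 : ℝ)) ?_ ?_ (integrable_const _) ?_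
  · intro η
    exact (Real.continuous_exp.comp (U_cont2 W hWc η).neg).aestronglyMeasurable
  · intro η
    refine Filter.Eventually.of_forall fun k => ?_
    rw [Real.norm_of_nonneg (Real.exp_pos _).le]
    exact F_le_one W hW η k
  · refine Filter.Eventually.of_forall fun k => ?_
    exact Real.continuous_exp.comp (U_cont1 W hWc k).neg

lemma Q_lint (W : (Fin M → ℝ) → ℝ) (hWc : Continuous W) (hW : ∀ g, 0 ≤ W g) (η : Fin M → ℝ) :
    ∫⁻ k, ENNReal.ofReal (Real.exp (-U W η k)) ∂(gm M) = ENNReal.ofReal (Q W η) := by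
  rw [Q, ofReal_integral_eq_lintegral_ofReal (F_int W hWc hW η)]
  exact Filter.Eventually.of_forall fun k => (Real.exp_pos _).le

lemma Q_logconc (h1 : S_PLN) (W : (Fin M → ℝ) → ℝ) (hWx : ConvexOn ℝ Set.univ W)
    (hWc : Continuous W) (hW : ∀ g, 0 ≤ W g) (s : ℝ) (hs0 : 0 < s) (hs1 : s < 1)
    (η η' : Fin M → ℝ) :
    (Q W η) ^ s * (Q W η') ^ (1 - s) ≤ Q W (fun i => s * η i + (1 - s) * η' i) := by
  have hm : ∀ η : Fin M → ℝ, Measurable (fun k => ENNReal.ofReal (Real.exp (-U W η k))) :=
    fun η => (Real.continuous_exp.comp (U_cont2 W hWc η).neg).measurable.ennreal_ofReal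
  have hle : ∀ (η k : Fin M → ℝ), ENNReal.ofReal (Real.exp (-U W η k)) ≤ 1 := by
    intro η k
    rw [← ENNReal.ofReal_one]
    exact ENNReal.ofReal_le_ofReal (F_le_one W hW η k)
  have h := h1 M s hs0 hs1 (fun k => ENNReal.ofReal (Real.exp (-U W η k)))
    (fun k => ENNReal.ofReal (Real.exp (-U W η' k)))
    (fun k => ENNReal.ofReal (Real.exp (-U W (fun i => s * η i + (1 - s) * η' i) k)))
    (hm _) (hm _) (hm _) (hle _) (hle _) (by
      intro x y
      rw [ENNReal.ofReal_rpow_of_pos (Real.exp_pos _), ENNReal.ofReal_rpow_of_pos (Real.exp_pos _),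
        ← ENNReal.ofReal_mul (Real.rpow_nonneg (Real.exp_pos _).le _)]
      apply ENNReal.ofReal_le_ofReal
      rw [← Real.exp_mul, ← Real.exp_mul, ← Real.exp_add]
      apply Real.exp_le_exp.2
      have := U_conv W hWx s hs0.le hs1.le η η' x y
      linarith)
  simp only [Q_lint W hWc hW] at h
  rw [ENNReal.ofReal_rpow_of_pos (Q_pos W hWc hW _), ENNReal.ofReal_rpow_of_pos (Q_pos W hWc hW _),
    ← ENNReal.ofReal_mul (Real.rpow_nonneg (Q_pos W hWc hW _).le _),
    ENNReal.ofReal_le_ofReal_iff (Q_pos W hWc hW _).le] at h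
  exact h

lemma V_conv (h1 : S_PLN) (W : (Fin M → ℝ) → ℝ) (hWx : ConvexOn ℝ Set.univ W)
    (hWc : Continuous W) (hW : ∀ g, 0 ≤ W g) :
    ConvexOn ℝ Set.univ (fun η => -Real.log (Q W η)) := by
  refine ⟨convex_univ, ?_⟩
  intro η _ η' _ s t hs ht hst
  have ht' : t = 1 - s := by linarith
  subst ht'
  simp only [smul_eq_mul]
  rcases hs.eq_or_lt with h0 | h0
  · subst h0
    simp
  rcases ht.eq_or_lt with h0' | h0'
  · have : s = 1 := by linarith
    subst this
    simp
  have h := Q_logconc h1 W hWx hWc hW s h0 (by linarith) η η'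
  have e : (s • η + (1 - s) • η') = (fun i => s * η i + (1 - s) * η' i) := by
    funext i
    simp
  rw [e]
  have hq1 := Q_pos W hWc hW η
  have hq2 := Q_pos W hWc hW η'
  have h' := Real.log_le_log (by positivity) h
  rw [Real.log_mul (by positivity) (by positivity), Real.log_rpow hq1, Real.log_rpow hq2] at h'
  linarith

lemma coord_int (j : Fin M) : Integrable (fun g : Fin M → ℝ => g j) (gm M) := by
  unfold gm
  have h1 : Integrable (fun x : ℝ => x) (gaussianReal 0 1) := by
    have h := memLp_id_gaussianReal (μ := 0) (v := 1) 1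
    rw [ENNReal.coe_one] at h
    exact memLp_one_iff_integrable.1 h
  exact (measurePreserving_eval (fun _ : Fin M => gaussianReal 0 1) j).integrable_comp_of_integrable h1

end JENaux

open JENaux in
theorem JEN_ok (h1 : S_PLN) (h2 : S_ROT) (h3 : S_QJ) : S_JEN := by
  intro M W hWx hWc hW p b hp hb
  have hf_le : ∀ g, Real.exp (-W g) ≤ 1 := fun g => by
    rw [Real.exp_le_one_iff]; linarith [hW g]
  have hf_sm : AEStronglyMeasurable (fun g => Real.exp (-W g)) (gm M) :=
    (Real.continuous_exp.comp hWc.neg).aestronglyMeasurable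
  have hf_int : Integrable (fun g => Real.exp (-W g)) (gm M) := by
    refine Integrable.of_bound (C := 1) hf_sm ?_
    refine Filter.Eventually.of_forall fun k => ?_
    rw [Real.norm_of_nonneg (Real.exp_pos _).le]
    exact hf_le k
  have hxf_int : ∀ j, Integrable (fun g : Fin M → ℝ => g j * Real.exp (-W g)) (gm M) := by
    intro j
    refine (coord_int j).mul_bdd (c := 1) hf_sm ?_
    refine Filter.Eventually.of_forall fun k => ?_
    rw [Real.norm_of_nonneg (Real.exp_pos _).le]
    exact hf_le k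
  have hs2 : Real.sqrt 2 ^ 2 = 2 := Real.sq_sqrt (by norm_num)
  have hs2p : 0 < Real.sqrt 2 := by positivity
  -- total mass
  have hA : ∫ η, Q W η ∂(gm M) = p ^ 2 := by
    have h := h2 M (fun x y => Real.exp (-W x) * Real.exp (-W y)) (hf_int.mul_prod hf_int)
    have hl : ∫ x, ∫ y, Real.exp (-W x) * Real.exp (-W y) ∂(gm M) ∂(gm M) = p ^ 2 := by
      simp only [integral_const_mul, integral_mul_const, ← hp]
      ring
    rw [hl] at h
    rw [h]
    refine integral_congr_ae (Filter.Eventually.of_forall fun η => ?_)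
    simp only [Q, U]
    refine integral_congr_ae (Filter.Eventually.of_forall fun k => ?_)
    simp only
    rw [← Real.exp_add]
    congr 1
    ring
  have hB : ∀ j, ∫ η, η j * Q W η ∂(gm M) = p ^ 2 * (Real.sqrt 2 * b j) := by
    intro j
    have hI : Integrable (fun z : (Fin M → ℝ) × (Fin M → ℝ) =>
        (z.1 j + z.2 j) / Real.sqrt 2 * (Real.exp (-W z.1) * Real.exp (-W z.2)))
        ((gm M).prod (gm M)) := by
      have i1 := (hxf_int j).mul_prod hf_int
      have i2 := hf_int.mul_prod (hxf_int j)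
      refine ((i1.add i2).div_const (Real.sqrt 2)).congr ?_
      refine Filter.Eventually.of_forall fun z => ?_
      simp only [Pi.add_apply]
      ring
    have h := h2 M (fun x y => (x j + y j) / Real.sqrt 2 * (Real.exp (-W x) * Real.exp (-W y))) hI
    have hl : ∫ x, ∫ y, (x j + y j) / Real.sqrt 2 * (Real.exp (-W x) * Real.exp (-W y))
        ∂(gm M) ∂(gm M) = p ^ 2 * (Real.sqrt 2 * b j) := by
      have e1 : ∀ x : Fin M → ℝ, ∫ y, (x j + y j) / Real.sqrt 2 *
          (Real.exp (-W x) * Real.exp (-W y)) ∂(gm M) =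
          ((x j * Real.exp (-W x)) * p + Real.exp (-W x) * (p * b j)) / Real.sqrt 2 := by
        intro x
        have e2 : ∀ y : Fin M → ℝ, (x j + y j) / Real.sqrt 2 *
            (Real.exp (-W x) * Real.exp (-W y)) =
            ((x j * Real.exp (-W x)) * Real.exp (-W y) +
              Real.exp (-W x) * (y j * Real.exp (-W y))) / Real.sqrt 2 := by
          intro y; ring
        simp only [e2]
        rw [integral_div, integral_add (hf_int.const_mul _) ((hxf_int j).const_mul _),
          integral_const_mul, integral_const_mul, ← hp, ← hb j]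
      simp only [e1]
      rw [integral_div, integral_add ((hxf_int j).mul_const _) (hf_int.mul_const _),
        integral_mul_const, integral_mul_const, ← hp, ← hb j]
      field_simp
      rw [hs2]
      ring
    rw [hl] at h
    rw [h]
    refine integral_congr_ae (Filter.Eventually.of_forall fun η => ?_)
    simp only [Q, U]
    rw [← integral_const_mul]
    refine integral_congr_ae (Filter.Eventually.of_forall fun k => ?_)
    simp only
    rw [← Real.exp_add]
    have e3 : ((η j + k j) / Real.sqrt 2 + (η j - k j) / Real.sqrt 2) / Real.sqrt 2 = η j := by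
      field_simp
      rw [hs2]
      ring
    rw [e3]
    congr 2
    ring
  have hexp : ∀ η, Real.exp (-(fun η => -Real.log (Q W η)) η) = Q W η := by
    intro η
    simp only [neg_neg]
    exact Real.exp_log (Q_pos W hWc hW η)
  have h := h3 M (fun η => -Real.log (Q W η)) (V_conv h1 W hWx hWc hW)
    ((Q_cont W hWc hW).log fun η => (Q_pos W hWc hW η).ne').neg
    (fun η => by
      have := Real.log_nonpos (Q_pos W hWc hW η).le (Q_le_one W hWc hW η)
      simpa using this) (p ^ 2) (fun j => Real.sqrt 2 * b j)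
    (by rw [← hA]; exact integral_congr_ae (Filter.Eventually.of_forall fun η => (hexp η).symm))
    (fun j => by
      rw [← hB j]
      refine integral_congr_ae (Filter.Eventually.of_forall fun η => ?_)
      simp only [neg_neg]
      rw [Real.exp_log (Q_pos W hWc hW η)])
  rw [hexp] at h
  refine h.trans (le_of_eq ?_)
  simp only [Q, U]
  refine integral_congr_ae (Filter.Eventually.of_forall fun k => ?_)
  simp only
  rw [← Real.exp_add]
  have e4 : ∀ j, (Real.sqrt 2 * b j + k j) / Real.sqrt 2 = b j + k j / Real.sqrt 2 := by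
    intro j; field_simp
  have e5 : ∀ j, (Real.sqrt 2 * b j - k j) / Real.sqrt 2 = b j - k j / Real.sqrt 2 := by
    intro j; field_simp
  simp only [e4, e5]
  congr 1
  ring

end Pool.Agent.H902R3.ZA
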