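import Pool.Agent.H902R3.ZA.Defs

set_option autoImplicit false

open MeasureTheory ProbabilityTheory Finset
open scoped RealInnerProductSpace ENNReal

namespace Pool.Agent.H902R3.ZA

open Pool.Agent.H172R2.ZS (E Zon Lew sg)

namespace LAWaux

noncomputable def T {n M : ℕ} (c : Fin M → ℝ) (a : Fin M → E n) (g : Fin M → ℝ) : E n :=
  ∑ j, (Real.sqrt (c j) * g j) • a j

lemma T_cont {n M : ℕ} (c : Fin M → ℝ) (a : Fin M → E n) : Continuous (T c a) := by
  unfold T
  fun_prop

lemma char_T {n M : ℕ} (c : Fin M → ℝ) (a : Fin M → E n) (hL : Lew c a) (ξ : E n) :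
    charFun ((gm M).map (T c a)) ξ = Complex.exp (-((‖ξ‖ ^ 2 / 2 : ℝ) : ℂ)) := by
  rw [charFun_apply, integral_map (T_cont c a).aemeasurable
    (by
      apply Continuous.aestronglyMeasurable
      fun_prop)]
  have h1 : ∀ g : Fin M → ℝ, Complex.exp (((⟪T c a g, ξ⟫ : ℝ) : ℂ) * Complex.I) =
      ∏ j, Complex.exp (((Real.sqrt (c j) * ⟪a j, ξ⟫ : ℝ) : ℂ) * (g j : ℂ) * Complex.I) := by
    intro g
    rw [← Complex.exp_sum]
    congr 1
    rw [← Finset.sum_mul]
    congr 1
    unfold T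
    rw [sum_inner]
    push_cast
    refine Finset.sum_congr rfl fun j _ => ?_
    rw [real_inner_smul_left]
    push_cast
    ring
  simp only [h1]
  unfold gm
  rw [integral_fintype_prod_eq_prod (𝕜 := ℂ) (fun (j : Fin M) (x : ℝ) =>
    Complex.exp (((Real.sqrt (c j) * ⟪a j, ξ⟫ : ℝ) : ℂ) * (x : ℂ) * Complex.I))]
  simp only [← charFun_apply_real, charFun_gaussianReal]
  rw [← Complex.exp_sum]
  congr 1
  rw [← hL.2.2 ξ]
  push_cast
  rw [Finset.sum_div, ← Finset.sum_neg_distrib]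
  refine Finset.sum_congr rfl fun j _ => ?_
  have h2 : ((Real.sqrt (c j) : ℝ) : ℂ) ^ 2 = ((c j : ℝ) : ℂ) := by
    rw [← Complex.ofReal_pow, Real.sq_sqrt (hL.1 j)]
  rw [mul_pow, h2]
  ring

noncomputable def nu (n : ℕ) : Measure (E n) :=
  (volume : Measure (E n)).withDensity (fun x => ENNReal.ofReal (Real.exp (-‖x‖ ^ 2 / 2)))

lemma dens_int (n : ℕ) : Integrable (fun x : E n => Real.exp (-‖x‖ ^ 2 / 2)) := by
  have h := GaussianFourier.integrable_cexp_neg_mul_sq_norm_add (V := E n)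
    (b := (1 / 2 : ℂ)) (by norm_num) 0 (0 : E n)
  have h2 := h.norm
  refine h2.congr (Filter.Eventually.of_forall fun x => ?_)
  simp only [Complex.norm_exp]
  congr 1
  simp only [zero_mul, add_zero]
  have : (-(1 / 2 : ℂ) * ((‖x‖ : ℝ) : ℂ) ^ 2) = ((-‖x‖ ^ 2 / 2 : ℝ) : ℂ) := by
    push_cast
    ring
  rw [this, Complex.ofReal_re]

lemma dens_meas (n : ℕ) :
    Measurable (fun x : E n => ENNReal.ofReal (Real.exp (-‖x‖ ^ 2 / 2))) := by
  apply Measurable.ennreal_ofReal
  apply Continuous.measurable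
  fun_prop

lemma nu_apply (n : ℕ) (C : Set (E n)) (hC : MeasurableSet C) :
    nu n C = ENNReal.ofReal (∫ x in C, Real.exp (-‖x‖ ^ 2 / 2)) := by
  unfold nu
  rw [withDensity_apply _ hC, ofReal_integral_eq_lintegral_ofReal (dens_int n).integrableOn]
  exact Filter.Eventually.of_forall fun k => (Real.exp_pos _).le

lemma nu_univ (n : ℕ) :
    nu n Set.univ = ENNReal.ofReal (∫ x : E n, Real.exp (-‖x‖ ^ 2 / 2)) := by
  rw [nu_apply n _ MeasurableSet.univ, Measure.restrict_univ]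

instance nu_fin (n : ℕ) : IsFiniteMeasure (nu n) := by
  constructor
  rw [nu_univ]
  exact ENNReal.ofReal_lt_top

lemma char_nu (n : ℕ) (ξ : E n) :
    charFun (nu n) ξ = ((2 * Real.pi : ℝ) : ℂ) ^ ((n : ℂ) / 2) *
      Complex.exp (-((‖ξ‖ ^ 2 / 2 : ℝ) : ℂ)) := by
  rw [charFun_apply]
  unfold nu
  rw [integral_withDensity_eq_integral_toReal_smul (dens_meas n)
    (Filter.Eventually.of_forall fun _ => ENNReal.ofReal_lt_top)]
  have h := GaussianFourier.integral_cexp_neg_mul_sq_norm_add (V := E n)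
    (b := (1 / 2 : ℂ)) (by norm_num) Complex.I ξ
  have h1 : ∀ x : E n, (ENNReal.ofReal (Real.exp (-‖x‖ ^ 2 / 2))).toReal •
      Complex.exp (((⟪x, ξ⟫ : ℝ) : ℂ) * Complex.I) =
      Complex.exp (-(1 / 2 : ℂ) * ((‖x‖ : ℝ) : ℂ) ^ 2 + Complex.I * ((⟪ξ, x⟫ : ℝ) : ℂ)) := by
    intro x
    rw [ENNReal.toReal_ofReal (Real.exp_pos _).le, Complex.real_smul, Complex.ofReal_exp,
      ← Complex.exp_add]
    congr 1
    rw [real_inner_comm]
    push_cast
    ring
  simp only [h1]
  rw [h]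
  congr 1
  · congr 1
    · push_cast; field_simp
    · simp
  · congr 1
    rw [Complex.I_sq]
    push_cast
    ring

lemma total (n : ℕ) : ((∫ x : E n, Real.exp (-‖x‖ ^ 2 / 2) : ℝ) : ℂ) =
    ((2 * Real.pi : ℝ) : ℂ) ^ ((n : ℂ) / 2) := by
  have h := char_nu n 0
  rw [charFun_zero] at h
  simp only [norm_zero] at h
  have h2 : (nu n).real Set.univ = ∫ x : E n, Real.exp (-‖x‖ ^ 2 / 2) := by
    rw [measureReal_def, nu_univ, ENNReal.toReal_ofReal]
    exact integral_nonneg fun _ => (Real.exp_pos _).le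
  rw [h2] at h
  rw [h]
  simp

end LAWaux

open LAWaux in
theorem LAW_ok : S_LAW := by
  intro n M c a hL C hC
  set Z : ℝ := ∫ x : E n, Real.exp (-‖x‖ ^ 2 / 2) with hZ
  have hZ0 : 0 ≤ Z := integral_nonneg fun _ => (Real.exp_pos _).le
  have hprob : IsProbabilityMeasure ((gm M).map (T c a)) :=
    Measure.isProbabilityMeasure_map (T_cont c a).aemeasurable
  have hkey : nu n = (Real.toNNReal Z) • ((gm M).map (T c a)) := by
    apply Measure.ext_of_charFun
    funext ξ
    rw [char_nu, ← total n, ← hZ]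
    rw [charFun_apply, integral_smul_nnreal_measure, ← charFun_apply, char_T c a hL]
    rw [NNReal.smul_def, Real.coe_toNNReal _ hZ0, Complex.real_smul]
  have h1 := congrArg (fun m : Measure (E n) => (m C).toReal) hkey
  simp only [Measure.smul_apply] at h1
  rw [nu_apply n C hC.measurableSet, ENNReal.toReal_ofReal
    (integral_nonneg fun _ => (Real.exp_pos _).le),
    Measure.map_apply (T_cont c a).measurable hC.measurableSet] at h1
  rw [h1]
  have h2 : (T c a ⁻¹' C) = {g : Fin M → ℝ | ∑ j, (Real.sqrt (c j) * g j) • a j ∈ C} := rfl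
  rw [h2, ENNReal.smul_def, smul_eq_mul, ENNReal.toReal_mul, ENNReal.coe_toReal,
    Real.coe_toNNReal _ hZ0, mul_comm]

end Pool.Agent.H902R3.ZA
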