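import Pool.Agent.H902R3.ZA.Defs

set_option autoImplicit false

open MeasureTheory ProbabilityTheory Finset
open scoped RealInnerProductSpace ENNReal

namespace Pool.Agent.H902R3.ZA

namespace LBMaux

theorem compact_case {K1 K2 C : Set ℝ} (h1 : IsCompact K1) (h2 : IsCompact K2) (n1 : K1.Nonempty)
    (n2 : K2.Nonempty) (h : ∀ x ∈ K1, ∀ y ∈ K2, x + y ∈ C) :
    volume K1 + volume K2 ≤ volume C := by
  have ha := h1.sSup_mem n1
  have hb := h2.sInf_mem n2
  set a := sSup K1 with had
  set b := sInf K2 with hbd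
  have ua : ∀ x ∈ K1, x ≤ a := fun x hx => le_csSup h1.bddAbove hx
  have lb : ∀ x ∈ K2, b ≤ x := fun x hx => csInf_le h2.bddBelow hx
  have e1 : volume ((fun x => x + (-b)) ⁻¹' K1) = volume K1 := measure_preimage_add_right _ _ _
  have e2 : volume ((fun x => (-a) + x) ⁻¹' K2) = volume K2 := measure_preimage_add _ _ _
  have m2 : MeasurableSet ((fun x => (-a) + x) ⁻¹' K2) :=
    (measurable_const_add (-a)) h2.measurableSet
  have e3 : volume (((fun x => (-a) + x) ⁻¹' K2) \ {a + b}) = volume K2 := by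
    rw [measure_sdiff_null (by simp), e2]
  rw [← e1, ← e3, ← measure_union _ (m2.diff (measurableSet_singleton _))]
  · apply measure_mono
    rintro x (hx | hx)
    · have := h _ hx _ hb
      have e : x + -b + b = x := by ring
      rwa [e] at this
    · have := h _ ha _ hx.1
      have e : a + (-a + x) = x := by ring
      rwa [e] at this
  · rw [Set.disjoint_left]
    intro x hx hx'
    have q1 := ua _ hx
    have q2 := lb _ hx'.1
    apply hx'.2
    rw [Set.mem_singleton_iff]
    linarith

theorem add_case {A B C : Set ℝ} (mA : MeasurableSet A) (mB : MeasurableSet B) (nA : A.Nonempty)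
    (nB : B.Nonempty) (h : ∀ x ∈ A, ∀ y ∈ B, x + y ∈ C) : volume A + volume B ≤ volume C := by
  by_contra hc
  rw [not_le] at hc
  have hA0 : volume A ≠ 0 := by
    intro h0
    rw [h0, zero_add] at hc
    obtain ⟨a, ha⟩ := nA
    have e2 : volume ((fun x => (-a) + x) ⁻¹' B) = volume B := measure_preimage_add _ _ _
    rw [← e2] at hc
    refine absurd hc (not_lt.2 (measure_mono ?_))
    intro x hx
    have := h _ ha _ hx
    have e : a + (-a + x) = x := by ring
    rwa [e] at this
  have hB0 : volume B ≠ 0 := by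
    intro h0
    rw [h0, add_zero] at hc
    obtain ⟨b, hb⟩ := nB
    have e2 : volume ((fun x => x + (-b)) ⁻¹' A) = volume A := measure_preimage_add_right _ _ _
    rw [← e2] at hc
    refine absurd hc (not_lt.2 (measure_mono ?_))
    intro x hx
    have := h _ hx _ hb
    have e : x + -b + b = x := by ring
    rwa [e] at this
  obtain ⟨y, hy, z, hz, hyz⟩ := ENNReal.exists_lt_add_of_lt_add hc hA0 hB0
  obtain ⟨K1, hK1, cK1, v1⟩ := mA.exists_lt_isCompact hy
  obtain ⟨K2, hK2, cK2, v2⟩ := mB.exists_lt_isCompact hz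
  have n1 : K1.Nonempty := nonempty_of_measure_ne_zero (ne_bot_of_gt v1)
  have n2 : K2.Nonempty := nonempty_of_measure_ne_zero (ne_bot_of_gt v2)
  have := compact_case cK1 cK2 n1 n2 (C := C) (fun x hx y hy => h x (hK1 hx) y (hK2 hy))
  exact absurd (hyz.trans_le ((add_le_add v1.le v2.le).trans this)) (lt_irrefl _)

end LBMaux

theorem LBM_ok : S_LBM := by
  intro s hs hs1 A B C mA mB _ nA nB h
  have hs' : 0 < 1 - s := by linarith
  have e1 : volume ((fun x => s⁻¹ * x) ⁻¹' A) = ENNReal.ofReal s * volume A := by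
    rw [Real.volume_preimage_mul_left (inv_ne_zero hs.ne'), inv_inv, abs_of_pos hs]
  have e2 : volume ((fun x => (1 - s)⁻¹ * x) ⁻¹' B) = ENNReal.ofReal (1 - s) * volume B := by
    rw [Real.volume_preimage_mul_left (inv_ne_zero hs'.ne'), inv_inv, abs_of_pos hs']
  rw [← e1, ← e2]
  apply LBMaux.add_case
  · exact (measurable_const_mul _) mA
  · exact (measurable_const_mul _) mB
  · obtain ⟨x, hx⟩ := nA
    refine ⟨s * x, ?_⟩
    rw [Set.mem_preimage, inv_mul_cancel_left₀ hs.ne']
    exact hx
  · obtain ⟨x, hx⟩ := nB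
    refine ⟨(1 - s) * x, ?_⟩
    rw [Set.mem_preimage, inv_mul_cancel_left₀ hs'.ne']
    exact hx
  · intro x hx y hy
    have := h _ hx _ hy
    rwa [mul_inv_cancel_left₀ hs.ne', mul_inv_cancel_left₀ hs'.ne'] at this

end Pool.Agent.H902R3.ZA
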