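import Pool.Agent.H902R3.ZA.Defs

/-!
# LOW: lower bound for the one sided event
-/

set_option autoImplicit false

open MeasureTheory ProbabilityTheory Finset
open scoped RealInnerProductSpace ENNReal

namespace Pool.Agent.H902R3.ZA

open Pool.Agent.H172R2.ZS (E Zon Lew sg)

namespace LOWaux

/-- the cube -/
def box (M : ℕ) : Set (Fin M → ℝ) := Set.univ.pi fun _ => Set.Icc (-1 : ℝ) 1

theorem box_convex (M : ℕ) : Convex ℝ (box M) := convex_pi fun _ _ => convex_Icc _ _

theorem box_compact (M : ℕ) : IsCompact (box M) := isCompact_univ_pi fun _ => isCompact_Icc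

theorem mem_Zon {n M : ℕ} {u : Fin M → E n} {x : E n} :
    x ∈ Zon u ↔ ∃ t ∈ box M, x = Fintype.linearCombination ℝ u t := by
  constructor
  · rintro ⟨t, ht, rfl⟩
    exact ⟨t, fun j _ => ht j, by rw [Fintype.linearCombination_apply]⟩
  · rintro ⟨t, ht, rfl⟩
    exact ⟨t, fun j => ht j (Set.mem_univ j), by rw [Fintype.linearCombination_apply]⟩

theorem gauss_pos (n : ℕ) : 0 < ∫ x : E n, Real.exp (-‖x‖ ^ 2 / 2) := by
  have h := GaussianFourier.integral_rexp_neg_mul_sq_norm (V := E n) (b := 1 / 2) (by norm_num)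
  have e : ∀ x : E n, Real.exp (-‖x‖ ^ 2 / 2) = Real.exp (-(1 / 2) * ‖x‖ ^ 2) := fun x => by
    congr 1; ring
  simp only [e]
  rw [h]
  positivity

end LOWaux

open LOWaux

theorem LOW_ok (h1 : S_DOM) (h2 : S_SC) (h3 : S_LAW) (h4 : Pool.Agent.H172R2.ZS.S_GAU) :
    S_LOW := by
  intro n M c a hL τ r hτ hr hcτ σ hσ
  have hc0 := hL.1
  have hsτ : 0 < Real.sqrt τ := Real.sqrt_pos.2 hτ
  set s : ℝ := r * Real.sqrt τ with hs
  have hs0 : 0 < s := mul_pos hr hsτ
  set K : (Fin M → ℝ) →ₗ[ℝ] E n := Fintype.linearCombination ℝ (fun j => c j • a j) with hK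
  set L : (Fin M → ℝ) →ₗ[ℝ] E n := Fintype.linearCombination ℝ (fun j => Real.sqrt (c j) • a j)
    with hLd
  set D : Set (Fin M → ℝ) := L ⁻¹' ((s • K) '' box M) with hD
  have hDc : Convex ℝ D := ((box_convex M).linear_image (s • K)).linear_preimage L
  have hDcl : IsClosed D :=
    (((box_compact M).image (s • K).continuous_of_finiteDimensional).isClosed).preimage
      L.continuous_of_finiteDimensional
  have hDs : ∀ y ∈ D, -y ∈ D := by
    rintro y ⟨t, ht, h⟩
    refine ⟨-t, fun j hj => ?_, ?_⟩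
    · have := ht j hj
      rw [Set.mem_Icc] at this ⊢
      rw [Pi.neg_apply]
      constructor <;> linarith [this.1, this.2]
    · rw [map_neg, map_neg, h]
  have hsc := h2 M D hDc hDcl hDs (fun j => σ j * Real.sqrt (c j)) (fun _ => Real.sqrt τ)
    (fun j => mul_nonneg (hσ j).1 (Real.sqrt_nonneg _))
    (fun j => by
      calc σ j * Real.sqrt (c j) ≤ 1 * Real.sqrt (c j) :=
            mul_le_mul_of_nonneg_right (hσ j).2 (Real.sqrt_nonneg _)
        _ = Real.sqrt (c j) := one_mul _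
        _ ≤ Real.sqrt τ := Real.sqrt_le_sqrt (hcτ j))
  have hdom := h1 M (E n) (fun x j => σ j * c j * ⟪a j, x⟫) (fun x => s * hh c a x)
  -- the easy inclusion
  have hA : {g : Fin M → ℝ | (fun j => σ j * Real.sqrt (c j) * g j) ∈ D} ⊆
      {g | ∀ x, ∑ j, g j * (σ j * c j * ⟪a j, x⟫) ≤ s * hh c a x} := by
    rintro g ⟨t, ht, h⟩ x
    have e1 : ∑ j, g j * (σ j * c j * ⟪a j, x⟫) =
        ⟪L (fun j => σ j * Real.sqrt (c j) * g j), x⟫ := by
      rw [hLd, Fintype.linearCombination_apply, sum_inner]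
      refine Finset.sum_congr rfl fun j _ => ?_
      rw [smul_smul, real_inner_smul_left]
      have : Real.sqrt (c j) * Real.sqrt (c j) = c j := Real.mul_self_sqrt (hc0 j)
      calc g j * (σ j * c j * ⟪a j, x⟫) =
            g j * (σ j * (Real.sqrt (c j) * Real.sqrt (c j)) * ⟪a j, x⟫) := by rw [this]
        _ = _ := by ring
    rw [e1, ← h, LinearMap.smul_apply, real_inner_smul_left]
    refine mul_le_mul_of_nonneg_left ?_ hs0.le
    rw [hK, Fintype.linearCombination_apply, sum_inner]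
    unfold hh
    refine Finset.sum_le_sum fun j _ => ?_
    rw [smul_smul, real_inner_smul_left]
    have ht' := ht j (Set.mem_univ j)
    rw [Set.mem_Icc] at ht'
    have h5 : |t j| ≤ 1 := abs_le.2 ht'
    calc t j * c j * ⟪a j, x⟫ ≤ |t j * c j * ⟪a j, x⟫| := le_abs_self _
      _ = |t j| * (c j * |⟪a j, x⟫|) := by
          rw [abs_mul, abs_mul, abs_of_nonneg (hc0 j), mul_assoc]
      _ ≤ 1 * (c j * |⟪a j, x⟫|) :=
          mul_le_mul_of_nonneg_right h5 (mul_nonneg (hc0 j) (abs_nonneg _))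
      _ = c j * |⟪a j, x⟫| := one_mul _
  -- the event
  have hE : {g : Fin M → ℝ | ∀ x, ∑ j, g j * |σ j * c j * ⟪a j, x⟫| ≤ s * hh c a x} =
      {g | ∀ x, FF c a (fun j => σ j * g j) x ≤ s * hh c a x} := by
    ext g
    refine forall_congr' fun x => ?_
    have : ∑ j, g j * |σ j * c j * ⟪a j, x⟫| = FF c a (fun j => σ j * g j) x := by
      unfold FF
      refine Finset.sum_congr rfl fun j _ => ?_
      rw [abs_mul, abs_mul, abs_of_nonneg (hσ j).1, abs_of_nonneg (hc0 j)]
      ring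
    rw [this]
  -- the Gaussian vector
  set C : Set (E n) := {x : E n | ∃ y ∈ Zon (fun j => c j • a j), x = 0 + r • y} with hC
  have hCeq : C = (r • K) '' box M := by
    ext x
    rw [hC]
    constructor
    · rintro ⟨y, hy, rfl⟩
      obtain ⟨t, ht, rfl⟩ := mem_Zon.1 hy
      exact ⟨t, ht, by rw [zero_add, LinearMap.smul_apply]⟩
    · rintro ⟨t, ht, rfl⟩
      exact ⟨K t, mem_Zon.2 ⟨t, ht, rfl⟩, by rw [zero_add, LinearMap.smul_apply]⟩
  have hCcl : IsClosed C := by
    rw [hCeq]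
    exact ((box_compact M).image (r • K).continuous_of_finiteDimensional).isClosed
  have hB : {g : Fin M → ℝ | ∑ j, (Real.sqrt (c j) * g j) • a j ∈ C} ⊆
      {g | (fun j => Real.sqrt τ * g j) ∈ D} := by
    intro g hg
    have hg' : ∑ j, (Real.sqrt (c j) * g j) • a j ∈ (r • K) '' box M := by
      rw [← hCeq]; exact hg
    obtain ⟨t, ht, h⟩ := hg'
    refine ⟨t, ht, ?_⟩
    rw [LinearMap.smul_apply] at h ⊢
    have e1 : L (fun j => Real.sqrt τ * g j) =
        Real.sqrt τ • ∑ j, (Real.sqrt (c j) * g j) • a j := by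
      rw [hLd, Fintype.linearCombination_apply, Finset.smul_sum]
      refine Finset.sum_congr rfl fun j _ => ?_
      rw [smul_smul, smul_smul]
      congr 1
      ring
    rw [e1, ← h, smul_smul, hs, mul_comm r]
  have hlaw := h3 n M c a hL C hCcl
  have hgau := h4 n M c a hL r 0 hr
  have hI := gauss_pos n
  have hkey : Real.exp (-(9 * n / (8 * r ^ 2))) ≤
      ((gm M) {g | ∑ j, (Real.sqrt (c j) * g j) • a j ∈ C}).toReal := by
    rw [← hlaw] at hgau
    have h6 := le_of_mul_le_mul_right hgau hI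
    have e2 : -‖(0 : E n)‖ ^ 2 / 2 - 9 * (n : ℝ) / (8 * r ^ 2) = -(9 * n / (8 * r ^ 2)) := by
      simp
    rwa [e2] at h6
  refine hkey.trans ?_
  rw [← hE]
  refine ENNReal.toReal_mono (measure_ne_top _ _) ?_
  exact ((measure_mono hB).trans hsc).trans ((measure_mono hA).trans hdom)

end Pool.Agent.H902R3.ZA
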