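import Pool.Agent.H902R3.ZA.Defs

/-!
# The mean of a perturbation of the Gaussian measure is short
-/

set_option autoImplicit false

open MeasureTheory ProbabilityTheory Finset
open scoped RealInnerProductSpace ENNReal

namespace Pool.Agent.H902R3.ZA

namespace MEANaux

theorem int_exp {M : ℕ} (b : Fin M → ℝ) :
    Integrable (fun g : Fin M → ℝ => Real.exp (∑ j, b j * g j)) (gm M) := by
  have h := Integrable.fintype_prod (μ := fun _ : Fin M => gaussianReal 0 1)
    (f := fun (j : Fin M) (x : ℝ) => Real.exp (b j * x))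
    (fun j => integrable_exp_mul_gaussianReal (b j))
  have e : (fun g : Fin M → ℝ => Real.exp (∑ j, b j * g j)) =
      fun g => ∏ j, Real.exp (b j * g j) := by
    funext g
    rw [Real.exp_sum]
  rw [e]
  exact h

theorem val_exp {M : ℕ} (b : Fin M → ℝ) :
    ∫ g, Real.exp (∑ j, b j * g j) ∂(gm M) = Real.exp ((∑ j, b j ^ 2) / 2) := by
  have h := integral_fintype_prod_eq_prod (μ := fun _ : Fin M => gaussianReal 0 1)
    (fun (j : Fin M) (x : ℝ) => Real.exp (b j * x))
  have e : (fun g : Fin M → ℝ => Real.exp (∑ j, b j * g j)) =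
      fun g => ∏ j, Real.exp (b j * g j) := by
    funext g
    rw [Real.exp_sum]
  rw [e]
  unfold gm
  rw [h, Finset.sum_div, Real.exp_sum]
  refine Finset.prod_congr rfl fun j _ => ?_
  have h2 := congrFun (mgf_fun_id_gaussianReal (μ := 0) (v := 1)) (b j)
  rw [mgf] at h2
  rw [h2]
  congr 1
  simp

theorem int_coord {M : ℕ} (j : Fin M) : Integrable (fun g : Fin M → ℝ => g j) (gm M) := by
  have h1 : Integrable (id : ℝ → ℝ) (gaussianReal 0 1) :=
    memLp_one_iff_integrable.1 (memLp_id_gaussianReal 1)
  have h2 : MeasurePreserving (Function.eval j) (gm M) (gaussianReal 0 1) :=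
    measurePreserving_eval (fun _ : Fin M => gaussianReal 0 1) j
  exact h2.integrable_comp_of_integrable h1

theorem int_bdd {M : ℕ} (F w : (Fin M → ℝ) → ℝ) (hF : Integrable F (gm M)) (hw : Continuous w)
    (h1 : ∀ g, |w g| ≤ 1) : Integrable (fun g => F g * w g) (gm M) := by
  refine hF.mul_bdd (c := 1) hw.aestronglyMeasurable (Filter.Eventually.of_forall fun g => ?_)
  rw [Real.norm_eq_abs]
  exact h1 g

end MEANaux

open MEANaux in
theorem MEAN_ok : S_MEAN := by
  intro M W hc h0 p b hp hb
  have hw : Continuous (fun g => Real.exp (-W g)) := Real.continuous_exp.comp hc.neg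
  have hw1 : ∀ g, |Real.exp (-W g)| ≤ 1 := fun g => by
    rw [abs_of_pos (Real.exp_pos _), Real.exp_le_one_iff]
    linarith [h0 g]
  have hwi : Integrable (fun g => Real.exp (-W g)) (gm M) := by
    have h := int_bdd (fun _ => (1 : ℝ)) _ (integrable_const _) hw hw1
    simpa using h
  have hp0 : 0 < p := by
    rw [hp]
    exact integral_exp_pos hwi
  have hp1 : p ≤ 1 := by
    rw [hp]
    have h := integral_mono hwi (integrable_const (1 : ℝ)) (fun g => (le_abs_self _).trans (hw1 g))
    simpa using h
  refine ⟨hp0, hp1, ?_⟩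
  set B : ℝ := ∑ j, b j ^ 2 with hB
  -- the upper estimate
  have hup : ∫ g, (Real.exp (-B) * Real.exp (∑ j, b j * g j)) * Real.exp (-W g) ∂(gm M) ≤
      Real.exp (-(B / 2)) := by
    have h1 : ∫ g, (Real.exp (-B) * Real.exp (∑ j, b j * g j)) * Real.exp (-W g) ∂(gm M) ≤
        ∫ g, Real.exp (-B) * Real.exp (∑ j, b j * g j) ∂(gm M) := by
      refine integral_mono (int_bdd _ _ ((int_exp b).const_mul _) hw hw1)
        ((int_exp b).const_mul _) fun g => ?_
      have h3 : (0 : ℝ) < Real.exp (-B) * Real.exp (∑ j, b j * g j) := by positivity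
      have h4 : Real.exp (-W g) ≤ 1 := (le_abs_self _).trans (hw1 g)
      show (Real.exp (-B) * Real.exp (∑ j, b j * g j)) * Real.exp (-W g) ≤
        Real.exp (-B) * Real.exp (∑ j, b j * g j)
      nlinarith
    refine h1.trans ?_
    rw [integral_const_mul, val_exp, ← Real.exp_add]
    apply Real.exp_le_exp.2
    rw [← hB]
    linarith
  -- the lower estimate
  have hlow : p ≤ ∫ g, (Real.exp (-B) * Real.exp (∑ j, b j * g j)) * Real.exp (-W g) ∂(gm M) := by
    have hi1 : Integrable (fun g : Fin M → ℝ => (∑ j, b j * (g j * Real.exp (-W g)))) (gm M) :=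
      integrable_finsetSum _ fun j _ => (int_bdd _ _ (int_coord j) hw hw1).const_mul _
    have h1 : ∫ g, ((1 - B) * Real.exp (-W g) + ∑ j, b j * (g j * Real.exp (-W g))) ∂(gm M) = p := by
      rw [integral_add (hwi.const_mul _) hi1, integral_const_mul, ← hp,
        integral_finsetSum _ fun j _ => (int_bdd _ _ (int_coord j) hw hw1).const_mul _]
      have h2 : ∀ j, ∫ g, b j * (g j * Real.exp (-W g)) ∂(gm M) = p * b j ^ 2 := by
        intro j
        rw [integral_const_mul, ← hb j]
        ring
      rw [Finset.sum_congr rfl fun j _ => h2 j, ← Finset.mul_sum, ← hB]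
      ring
    rw [← h1]
    refine integral_mono ((hwi.const_mul _).add hi1)
      (int_bdd _ _ ((int_exp b).const_mul _) hw hw1) fun g => ?_
    show (1 - B) * Real.exp (-W g) + ∑ j, b j * (g j * Real.exp (-W g)) ≤
      (Real.exp (-B) * Real.exp (∑ j, b j * g j)) * Real.exp (-W g)
    have h5 : ∑ j, b j * (g j * Real.exp (-W g)) = (∑ j, b j * g j) * Real.exp (-W g) := by
      rw [Finset.sum_mul]
      exact Finset.sum_congr rfl fun j _ => by ring
    rw [h5, ← add_mul, ← Real.exp_add]
    refine mul_le_mul_of_nonneg_right ?_ (Real.exp_pos _).le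
    have h6 := Real.add_one_le_exp (-B + ∑ j, b j * g j)
    linarith
  have hfin : p ≤ Real.exp (-(B / 2)) := hlow.trans hup
  have hlog : Real.log p ≤ -(B / 2) := by
    have h := Real.log_le_log hp0 hfin
    rwa [Real.log_exp] at h
  rw [one_div, Real.log_inv]
  linarith

end Pool.Agent.H902R3.ZA
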