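import Pool.Agent.H902R3.ZA.Defs

set_option autoImplicit false

open MeasureTheory ProbabilityTheory Finset
open scoped RealInnerProductSpace ENNReal

namespace Pool.Agent.H902R3.ZA

open Pool.Agent.H172R2.ZS (E Zon Lew sg)

namespace PHIaux

variable {n M : ℕ} {c : Fin M → ℝ} {a : Fin M → E n}

theorem hh_nonneg (hc : ∀ j, 0 ≤ c j) (x : E n) : 0 ≤ hh c a x :=
  Finset.sum_nonneg fun j _ => mul_nonneg (hc j) (abs_nonneg _)

theorem FF_abs (hc : ∀ j, 0 ≤ c j) (y : Fin M → ℝ) (x : E n) :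
    |FF c a y x| ≤ ‖y‖ * hh c a x := by
  unfold FF hh
  refine (Finset.abs_sum_le_sum_abs _ _).trans ?_
  rw [Finset.mul_sum]
  refine Finset.sum_le_sum fun j _ => ?_
  rw [abs_mul, abs_of_nonneg (mul_nonneg (hc j) (abs_nonneg _))]
  refine mul_le_mul_of_nonneg_right ?_ (mul_nonneg (hc j) (abs_nonneg _))
  rw [← Real.norm_eq_abs]
  exact norm_le_pi_norm y j

theorem FF_add (y z : Fin M → ℝ) (x : E n) : FF c a (y + z) x = FF c a y x + FF c a z x := by
  unfold FF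
  rw [← Finset.sum_add_distrib]
  refine Finset.sum_congr rfl fun j _ => ?_
  simp only [Pi.add_apply]; ring

theorem FF_smul (s : ℝ) (y : Fin M → ℝ) (x : E n) : FF c a (s • y) x = s * FF c a y x := by
  unfold FF
  rw [Finset.mul_sum]
  refine Finset.sum_congr rfl fun j _ => ?_
  simp only [Pi.smul_apply, smul_eq_mul]; ring

theorem quot_le (hc : ∀ j, 0 ≤ c j) (y : Fin M → ℝ) (s : ℝ) (hs : 0 ≤ s) (x : E n)
    (h : FF c a y x ≤ s * hh c a x) : FF c a y x / hh c a x ≤ s := by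
  rcases (hh_nonneg (a := a) hc x).eq_or_lt with h0 | h0
  · rw [← h0, div_zero]; exact hs
  · exact (div_le_iff₀ h0).2 h

theorem bdd (hc : ∀ j, 0 ≤ c j) (y : Fin M → ℝ) :
    BddAbove (Set.range fun x : E n => FF c a y x / hh c a x) := by
  refine ⟨‖y‖, ?_⟩
  rintro _ ⟨x, rfl⟩
  exact quot_le hc y _ (norm_nonneg _) x ((le_abs_self _).trans (FF_abs hc y x))

theorem Phi_iff (hc : ∀ j, 0 ≤ c j) (y : Fin M → ℝ) (s : ℝ) (hs : 0 ≤ s) :
    Phi c a y ≤ s ↔ ∀ x, FF c a y x ≤ s * hh c a x := by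
  constructor
  · intro h x
    have h1 : FF c a y x / hh c a x ≤ s := (le_ciSup (bdd (a := a) hc y) x).trans h
    rcases (hh_nonneg (a := a) hc x).eq_or_lt with h0 | h0
    · have h2 := FF_abs (a := a) hc y x
      rw [← h0, mul_zero] at h2
      rw [← h0, mul_zero]
      exact (le_abs_self _).trans h2
    · exact (div_le_iff₀ h0).1 h1
  · intro h
    exact ciSup_le fun x => quot_le hc y s hs x (h x)

theorem Phi_nonneg (hc : ∀ j, 0 ≤ c j) (y : Fin M → ℝ) : 0 ≤ Phi c a y := by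
  have h1 := le_ciSup (bdd (a := a) hc y) (0 : E n)
  have h2 : FF c a y (0 : E n) / hh c a 0 = 0 := by simp [FF]
  rw [h2] at h1
  exact h1

theorem Phi_le (hc : ∀ j, 0 ≤ c j) (y : Fin M → ℝ) : Phi c a y ≤ ‖y‖ :=
  (Phi_iff hc y _ (norm_nonneg _)).2 fun x => (le_abs_self _).trans (FF_abs hc y x)

theorem FF_le (hc : ∀ j, 0 ≤ c j) (y : Fin M → ℝ) (x : E n) :
    FF c a y x ≤ Phi c a y * hh c a x :=
  (Phi_iff hc y _ (Phi_nonneg hc y)).1 le_rfl x

theorem Phi_lip (hc : ∀ j, 0 ≤ c j) (y z : Fin M → ℝ) :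
    Phi c a y ≤ Phi c a z + ‖y - z‖ := by
  rw [Phi_iff hc y _ (add_nonneg (Phi_nonneg hc z) (norm_nonneg _))]
  intro x
  have h1 : FF c a y x = FF c a z x + FF c a (y - z) x := by
    rw [← FF_add]; congr 1; simp
  rw [h1, add_mul]
  exact add_le_add (FF_le hc z x) ((le_abs_self _).trans (FF_abs hc _ x))

end PHIaux

theorem PHI_ok : S_PHI := by
  intro n M c a hc
  refine ⟨⟨convex_univ, ?_⟩, fun y => ⟨PHIaux.Phi_nonneg hc y, PHIaux.Phi_le hc y⟩, ?_,
    fun y s hs => PHIaux.Phi_iff hc y s hs⟩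
  · intro y _ z _ s t hs ht hst
    have h0 : 0 ≤ s • Phi c a y + t • Phi c a z :=
      add_nonneg (mul_nonneg hs (PHIaux.Phi_nonneg hc y)) (mul_nonneg ht (PHIaux.Phi_nonneg hc z))
    rw [PHIaux.Phi_iff hc _ _ h0]
    intro x
    rw [PHIaux.FF_add, PHIaux.FF_smul, PHIaux.FF_smul]
    have h1 := mul_le_mul_of_nonneg_left (PHIaux.FF_le (a := a) hc y x) hs
    have h2 := mul_le_mul_of_nonneg_left (PHIaux.FF_le (a := a) hc z x) ht
    simp only [smul_eq_mul]
    nlinarith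
  · have hL : LipschitzWith 1 (Phi c a) := by
      refine LipschitzWith.of_le_add fun y z => ?_
      rw [dist_eq_norm]
      exact PHIaux.Phi_lip hc y z
    exact hL.continuous

end Pool.Agent.H902R3.ZA
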