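import Pool.Agent.H902R3.ZA.Defs

/-!
# One dimensional Gaussian Prekopa-Leindler inequality
-/

set_option autoImplicit false

open MeasureTheory ProbabilityTheory Finset
open scoped RealInnerProductSpace ENNReal

namespace Pool.Agent.H902R3.ZA

namespace PLAaux

/-- layer cake for functions bounded by one -/
theorem cake (f : ℝ → ℝ≥0∞) (hf : Measurable f) (h1 : ∀ x, f x ≤ 1) :
    ∫⁻ x, f x = ∫⁻ t in Set.Ioi (0 : ℝ), volume {x | t < (f x).toReal} := by
  rw [← lintegral_eq_lintegral_meas_lt volume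
    (Filter.Eventually.of_forall fun x => ENNReal.toReal_nonneg) hf.ennreal_toReal.aemeasurable]
  refine lintegral_congr fun x => ?_
  rw [ENNReal.ofReal_toReal]
  exact ne_top_of_le_ne_top ENNReal.one_ne_top (h1 x)

theorem meas_anti (f : ℝ → ℝ) : Measurable fun t : ℝ => volume {x | t < f x} :=
  Antitone.measurable fun _ _ hst => measure_mono fun _ hx => lt_of_le_of_lt hst hx

theorem amgm (s : ℝ) (hs : 0 < s) (hs1 : s < 1) (a b : ℝ≥0∞) :
    a ^ s * b ^ (1 - s) ≤ ENNReal.ofReal s * a + ENNReal.ofReal (1 - s) * b := by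
  have h1s : 0 < 1 - s := by linarith
  have e1 : ENNReal.ofReal s ≠ 0 := by simpa using hs
  have e2 : ENNReal.ofReal (1 - s) ≠ 0 := by simpa using hs1
  rcases eq_or_ne a ⊤ with ha | ha
  · rw [ha, ENNReal.mul_top e1]; simp
  rcases eq_or_ne b ⊤ with hb | hb
  · rw [hb, ENNReal.mul_top e2]; simp
  have key := Real.geom_mean_le_arith_mean2_weighted hs.le h1s.le
    (ENNReal.toReal_nonneg (a := a)) (ENNReal.toReal_nonneg (a := b)) (by ring)
  have ha' : a = ENNReal.ofReal a.toReal := (ENNReal.ofReal_toReal ha).symm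
  have hb' : b = ENNReal.ofReal b.toReal := (ENNReal.ofReal_toReal hb).symm
  rw [ha', hb']
  rw [ENNReal.ofReal_rpow_of_nonneg ENNReal.toReal_nonneg hs.le,
    ENNReal.ofReal_rpow_of_nonneg ENNReal.toReal_nonneg h1s.le,
    ← ENNReal.ofReal_mul (by positivity), ← ENNReal.ofReal_mul hs.le,
    ← ENNReal.ofReal_mul h1s.le, ← ENNReal.ofReal_add (by positivity) (by positivity)]
  exact ENNReal.ofReal_le_ofReal key

/-- normalised functions -/
theorem norm1 (hL : S_LBM) (s : ℝ) (hs : 0 < s) (hs1 : s < 1) (f g h : ℝ → ℝ≥0∞)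
    (hf : Measurable f) (hg : Measurable g) (hh : Measurable h)
    (hf1 : ⨆ x, f x = 1) (hg1 : ⨆ x, g x = 1)
    (hfg : ∀ x y, f x ^ s * g y ^ (1 - s) ≤ h (s * x + (1 - s) * y)) :
    (∫⁻ x, f x) ^ s * (∫⁻ x, g x) ^ (1 - s) ≤ ∫⁻ x, h x := by
  have h1s : 0 < 1 - s := by linarith
  have hfle : ∀ x, f x ≤ 1 := fun x => hf1 ▸ le_iSup f x
  have hgle : ∀ x, g x ≤ 1 := fun x => hg1 ▸ le_iSup g x
  refine (amgm s hs hs1 _ _).trans ?_
  have hm : ∫⁻ x, min (h x) 1 ≤ ∫⁻ x, h x := lintegral_mono fun x => min_le_left _ _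
  refine le_trans ?_ hm
  rw [cake f hf hfle, cake g hg hgle, cake (fun x => min (h x) 1) (hh.min measurable_const)
    (fun x => min_le_right _ _), ← lintegral_const_mul _ (meas_anti _),
    ← lintegral_const_mul _ (meas_anti _),
    ← lintegral_add_left ((meas_anti _).const_mul _)]
  refine setLIntegral_mono' measurableSet_Ioi fun t ht => ?_
  rw [Set.mem_Ioi] at ht
  rcases lt_or_ge t 1 with ht1 | ht1
  · -- the main case
    have htE : ENNReal.ofReal t < 1 := by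
      rw [← ENNReal.ofReal_one]
      exact (ENNReal.ofReal_lt_ofReal_iff one_pos).2 ht1
    have htE0 : ENNReal.ofReal t ≠ 0 := by simpa using ht
    have conv : ∀ (u : ℝ → ℝ≥0∞), (∀ x, u x ≤ 1) → ∀ x,
        (t < (u x).toReal ↔ ENNReal.ofReal t < u x) := by
      intro u hu x
      exact (ENNReal.ofReal_lt_iff_lt_toReal ht.le
        (ne_top_of_le_ne_top ENNReal.one_ne_top (hu x))).symm
    refine hL s hs hs1 _ _ _ ?_ ?_ ?_ ?_ ?_ ?_
    · exact measurableSet_lt measurable_const hf.ennreal_toReal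
    · exact measurableSet_lt measurable_const hg.ennreal_toReal
    · exact measurableSet_lt measurable_const (hh.min measurable_const).ennreal_toReal
    · rw [← hf1] at htE
      obtain ⟨x, hx⟩ := lt_iSup_iff.1 htE
      exact ⟨x, (conv f hfle x).2 hx⟩
    · rw [← hg1] at htE
      obtain ⟨x, hx⟩ := lt_iSup_iff.1 htE
      exact ⟨x, (conv g hgle x).2 hx⟩
    · intro x hx y hy
      have hx' := (conv f hfle x).1 hx
      have hy' := (conv g hgle y).1 hy
      refine (conv (fun x => min (h x) 1) (fun x => min_le_right _ _) _).2 ?_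
      refine lt_min (lt_of_lt_of_le ?_ (hfg x y)) htE
      have e : ENNReal.ofReal t = ENNReal.ofReal t ^ s * ENNReal.ofReal t ^ (1 - s) := by
        rw [← ENNReal.rpow_add _ _ htE0 ENNReal.ofReal_ne_top]
        simp
      rw [e]
      exact ENNReal.mul_lt_mul (ENNReal.rpow_lt_rpow hx' hs) (ENNReal.rpow_lt_rpow hy' h1s)
  · have e0 : ∀ (u : ℝ → ℝ≥0∞), (∀ x, u x ≤ 1) → volume {x | t < (u x).toReal} = 0 := by
      intro u hu
      have : {x | t < (u x).toReal} = ∅ := by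
        ext x
        simp only [Set.mem_ofPred_eq, Set.mem_empty_iff_false, iff_false, not_lt]
        refine le_trans ?_ ht1
        have := ENNReal.toReal_mono ENNReal.one_ne_top (hu x)
        simpa using this
      rw [this, measure_empty]
    rw [e0 f hfle, e0 g hgle]
    simp

/-- the general inequality for bounded functions -/
theorem main (hL : S_LBM) (s : ℝ) (hs : 0 < s) (hs1 : s < 1) (f g h : ℝ → ℝ≥0∞)
    (hf : Measurable f) (hg : Measurable g) (hh : Measurable h)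
    (hf1 : ∀ x, f x ≤ 1) (hg1 : ∀ x, g x ≤ 1)
    (hfg : ∀ x y, f x ^ s * g y ^ (1 - s) ≤ h (s * x + (1 - s) * y)) :
    (∫⁻ x, f x) ^ s * (∫⁻ x, g x) ^ (1 - s) ≤ ∫⁻ x, h x := by
  have h1s : 0 < 1 - s := by linarith
  set A : ℝ≥0∞ := ⨆ x, f x with hA
  set B : ℝ≥0∞ := ⨆ x, g x with hB
  have hAt : A ≠ ⊤ := ne_top_of_le_ne_top ENNReal.one_ne_top (iSup_le hf1)
  have hBt : B ≠ ⊤ := ne_top_of_le_ne_top ENNReal.one_ne_top (iSup_le hg1)
  rcases eq_or_ne A 0 with hA0 | hA0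
  · have : ∀ x, f x = 0 := fun x => le_antisymm (hA0 ▸ le_iSup f x) zero_le
    simp [this, hs]
  rcases eq_or_ne B 0 with hB0 | hB0
  · have : ∀ x, g x = 0 := fun x => le_antisymm (hB0 ▸ le_iSup g x) zero_le
    simp [this, h1s]
  have hAi : A⁻¹ ≠ ⊤ := ENNReal.inv_ne_top.2 hA0
  have hBi : B⁻¹ ≠ ⊤ := ENNReal.inv_ne_top.2 hB0
  have key := norm1 hL s hs hs1 (fun x => A⁻¹ * f x) (fun x => B⁻¹ * g x)
    (fun x => (A⁻¹ ^ s * B⁻¹ ^ (1 - s)) * h x) (hf.const_mul _) (hg.const_mul _)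
    (hh.const_mul _) (by rw [← ENNReal.mul_iSup, ← hA, ENNReal.inv_mul_cancel hA0 hAt])
    (by rw [← ENNReal.mul_iSup, ← hB, ENNReal.inv_mul_cancel hB0 hBt]) (by
      intro x y
      rw [ENNReal.mul_rpow_of_nonneg _ _ hs.le, ENNReal.mul_rpow_of_nonneg _ _ h1s.le]
      calc A⁻¹ ^ s * f x ^ s * (B⁻¹ ^ (1 - s) * g y ^ (1 - s))
          = (A⁻¹ ^ s * B⁻¹ ^ (1 - s)) * (f x ^ s * g y ^ (1 - s)) := by ring
        _ ≤ _ := by gcongr; exact hfg x y)
  rw [lintegral_const_mul _ hf, lintegral_const_mul _ hg, lintegral_const_mul _ hh,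
    ENNReal.mul_rpow_of_nonneg _ _ hs.le, ENNReal.mul_rpow_of_nonneg _ _ h1s.le] at key
  have hc0 : A⁻¹ ^ s * B⁻¹ ^ (1 - s) ≠ 0 := by
    refine mul_ne_zero ?_ ?_
    · exact (ENNReal.rpow_pos (ENNReal.inv_pos.2 hAt) hAi).ne'
    · exact (ENNReal.rpow_pos (ENNReal.inv_pos.2 hBt) hBi).ne'
  have hct : A⁻¹ ^ s * B⁻¹ ^ (1 - s) ≠ ⊤ :=
    ENNReal.mul_ne_top (ENNReal.rpow_ne_top_of_nonneg hs.le hAi)
      (ENNReal.rpow_ne_top_of_nonneg h1s.le hBi)
  have e : A⁻¹ ^ s * (∫⁻ x, f x) ^ s * (B⁻¹ ^ (1 - s) * (∫⁻ x, g x) ^ (1 - s)) =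
      (A⁻¹ ^ s * B⁻¹ ^ (1 - s)) * ((∫⁻ x, f x) ^ s * (∫⁻ x, g x) ^ (1 - s)) := by ring
  rw [e] at key
  exact (ENNReal.mul_le_mul_iff_right hc0 hct).1 key

theorem pdf_le (x : ℝ) : gaussianPDFReal 0 1 x ≤ 1 := by
  unfold gaussianPDFReal
  have h1 : (Real.sqrt (2 * Real.pi * ((1 : NNReal) : ℝ)))⁻¹ ≤ 1 := by
    apply inv_le_one_of_one_le₀
    rw [Real.one_le_sqrt]
    have := Real.pi_gt_three
    simp only [NNReal.coe_one]
    linarith
  have h2 : Real.exp (-(x - 0) ^ 2 / (2 * ((1 : NNReal) : ℝ))) ≤ 1 := by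
    rw [Real.exp_le_one_iff]
    simp only [NNReal.coe_one]
    nlinarith [sq_nonneg (x - 0)]
  calc _ ≤ (1 : ℝ) * 1 := by
        apply mul_le_mul h1 h2 (Real.exp_pos _).le zero_le_one
    _ = 1 := one_mul 1

theorem pdf_conv (s : ℝ) (hs : 0 < s) (hs1 : s < 1) (x y : ℝ) :
    gaussianPDFReal 0 1 x ^ s * gaussianPDFReal 0 1 y ^ (1 - s) ≤
      gaussianPDFReal 0 1 (s * x + (1 - s) * y) := by
  have h1s : 0 < 1 - s := by linarith
  unfold gaussianPDFReal
  simp only [NNReal.coe_one, mul_one, sub_zero]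
  have hc : 0 < (Real.sqrt (2 * Real.pi))⁻¹ := by
    have := Real.pi_pos
    positivity
  rw [Real.mul_rpow hc.le (Real.exp_pos _).le, Real.mul_rpow hc.le (Real.exp_pos _).le,
    ← Real.exp_mul, ← Real.exp_mul]
  have e1 : (Real.sqrt (2 * Real.pi))⁻¹ ^ s * Real.exp (-x ^ 2 / 2 * s) *
      ((Real.sqrt (2 * Real.pi))⁻¹ ^ (1 - s) * Real.exp (-y ^ 2 / 2 * (1 - s))) =
      ((Real.sqrt (2 * Real.pi))⁻¹ ^ s * (Real.sqrt (2 * Real.pi))⁻¹ ^ (1 - s)) *
        (Real.exp (-x ^ 2 / 2 * s) * Real.exp (-y ^ 2 / 2 * (1 - s))) := by ring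
  rw [e1, ← Real.rpow_add hc, ← Real.exp_add]
  have e2 : s + (1 - s) = 1 := by ring
  rw [e2, Real.rpow_one]
  refine mul_le_mul_of_nonneg_left (Real.exp_le_exp.2 ?_) hc.le
  nlinarith [mul_nonneg (mul_nonneg hs.le h1s.le) (sq_nonneg (x - y))]

end PLAaux

theorem PLA_ok (hL : S_LBM) : S_PLA := by
  intro s hs hs1 f g h hf hg hh hf1 hg1 hfg
  have h1s : 0 < 1 - s := by linarith
  have hφ : Measurable (gaussianPDF 0 1) := measurable_gaussianPDF 0 1
  have hint : ∀ u : ℝ → ℝ≥0∞, Measurable u →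
      ∫⁻ x, u x ∂(gaussianReal 0 1) = ∫⁻ x, gaussianPDF 0 1 x * u x := by
    intro u hu
    rw [gaussianReal_of_var_ne_zero 0 one_ne_zero,
      lintegral_withDensity_eq_lintegral_mul volume hφ hu]
    rfl
  have hφ1 : ∀ x, gaussianPDF 0 1 x ≤ 1 := by
    intro x
    rw [gaussianPDF]
    exact ENNReal.ofReal_le_one.2 (PLAaux.pdf_le x)
  rw [hint f hf, hint g hg, hint h hh]
  refine PLAaux.main hL s hs hs1 _ _ _ (hφ.mul hf) (hφ.mul hg) (hφ.mul hh) ?_ ?_ ?_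
  · intro x
    exact (mul_le_mul' (hφ1 x) (hf1 x)).trans (by rw [one_mul])
  · intro x
    exact (mul_le_mul' (hφ1 x) (hg1 x)).trans (by rw [one_mul])
  · intro x y
    rw [ENNReal.mul_rpow_of_nonneg _ _ hs.le, ENNReal.mul_rpow_of_nonneg _ _ h1s.le]
    have e1 : gaussianPDF 0 1 x ^ s * gaussianPDF 0 1 y ^ (1 - s) ≤
        gaussianPDF 0 1 (s * x + (1 - s) * y) := by
      unfold gaussianPDF
      rw [ENNReal.ofReal_rpow_of_pos (gaussianPDFReal_pos 0 1 x one_ne_zero),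
        ENNReal.ofReal_rpow_of_pos (gaussianPDFReal_pos 0 1 y one_ne_zero),
        ← ENNReal.ofReal_mul (Real.rpow_nonneg (gaussianPDFReal_nonneg 0 1 x) s)]
      exact ENNReal.ofReal_le_ofReal (PLAaux.pdf_conv s hs hs1 x y)
    calc gaussianPDF 0 1 x ^ s * f x ^ s * (gaussianPDF 0 1 y ^ (1 - s) * g y ^ (1 - s))
        = (gaussianPDF 0 1 x ^ s * gaussianPDF 0 1 y ^ (1 - s)) *
          (f x ^ s * g y ^ (1 - s)) := by ring
      _ ≤ _ := mul_le_mul' e1 (hfg x y)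

end Pool.Agent.H902R3.ZA
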