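import Pool.Agent.H902R3.ZA.Defs

/-!
# Task PLN: Gaussian Prekopa-Leindler inequality in dimension `M` from dimension one

Proved by helper528 for the project of helper902.
-/

set_option autoImplicit false

open MeasureTheory ProbabilityTheory Finset
open scoped RealInnerProductSpace ENNReal

namespace Pool.Agent.H902R3.ZA

namespace PLNaux

/-- splitting off the first coordinate -/
noncomputable def ee (M : ℕ) : ((Fin (M + 1)) → ℝ) ≃ᵐ ℝ × (Fin M → ℝ) :=
  MeasurableEquiv.piFinSuccAbove (fun _ : Fin (M + 1) => ℝ) 0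

lemma ee_symm_zero (M : ℕ) (x : ℝ) (z : Fin M → ℝ) : (ee M).symm (x, z) 0 = x := by
  simp [ee, MeasurableEquiv.piFinSuccAbove]

lemma ee_symm_succ (M : ℕ) (x : ℝ) (z : Fin M → ℝ) (i : Fin M) :
    (ee M).symm (x, z) i.succ = z i := by
  simp [ee, MeasurableEquiv.piFinSuccAbove]

lemma ee_comb (M : ℕ) (s x y : ℝ) (z w : Fin M → ℝ) :
    (fun i => s * (ee M).symm (x, z) i + (1 - s) * (ee M).symm (y, w) i) =
      (ee M).symm (s * x + (1 - s) * y, fun i => s * z i + (1 - s) * w i) := by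
  funext i
  refine Fin.cases ?_ (fun j => ?_) i
  · simp only [ee_symm_zero]
  · simp only [ee_symm_succ]

lemma mp (M : ℕ) : MeasurePreserving (ee M).symm ((gaussianReal 0 1).prod (gm M)) (gm (M + 1)) := by
  have h := measurePreserving_piFinSuccAbove (fun _ : Fin (M + 1) => gaussianReal 0 1) 0
  exact h.symm _

lemma lint (M : ℕ) (f : (Fin (M + 1) → ℝ) → ℝ≥0∞) (hf : Measurable f) :
    ∫⁻ x, f x ∂(gm (M + 1)) =
      ∫⁻ x, ∫⁻ z, f ((ee M).symm (x, z)) ∂(gm M) ∂(gaussianReal 0 1) := by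
  rw [← (mp M).lintegral_comp hf, lintegral_prod]
  exact (hf.comp (ee M).symm.measurable).aemeasurable

end PLNaux

open PLNaux

theorem PLN_ok (hA : S_PLA) : S_PLN := by
  intro M
  induction M with
  | zero =>
    intro s hs0 hs1 f g h _ _ _ _ _ hfg
    have hu : gm 0 Set.univ = 1 := measure_univ
    rw [lintegral_unique, lintegral_unique, lintegral_unique, hu, mul_one, mul_one, mul_one]
    have key : ∀ x y z : Fin 0 → ℝ, f x ^ s * g y ^ (1 - s) ≤ h z := by
      intro x y z
      have h1 := hfg x y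
      rwa [Subsingleton.elim (fun i => s * x i + (1 - s) * y i) z] at h1
    exact key _ _ _
  | succ M ih =>
    intro s hs0 hs1 f g h hf hg hh hf1 hg1 hfg
    rw [lint M f hf, lint M g hg, lint M h hh]
    have meas : ∀ φ : (Fin (M + 1) → ℝ) → ℝ≥0∞, Measurable φ →
        Measurable fun p : ℝ × (Fin M → ℝ) => φ ((ee M).symm p) :=
      fun φ hφ => hφ.comp (ee M).symm.measurable
    have meas1 : ∀ φ : (Fin (M + 1) → ℝ) → ℝ≥0∞, Measurable φ → ∀ x : ℝ,
        Measurable fun z : Fin M → ℝ => φ ((ee M).symm (x, z)) :=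
      fun φ hφ x => (meas φ hφ).comp measurable_prodMk_left
    have bound : ∀ φ : (Fin (M + 1) → ℝ) → ℝ≥0∞, (∀ x, φ x ≤ 1) → ∀ x : ℝ,
        ∫⁻ z, φ ((ee M).symm (x, z)) ∂(gm M) ≤ 1 := by
      intro φ hφ x
      calc ∫⁻ z, φ ((ee M).symm (x, z)) ∂(gm M) ≤ ∫⁻ _, 1 ∂(gm M) :=
            lintegral_mono fun z => hφ _
        _ = 1 := by simp
    refine hA s hs0 hs1 _ _ _ (meas f hf).lintegral_prod_right (meas g hg).lintegral_prod_right
      (meas h hh).lintegral_prod_right (bound f hf1) (bound g hg1) ?_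
    intro x y
    refine ih s hs0 hs1 _ _ _ (meas1 f hf x) (meas1 g hg y) (meas1 h hh _) (fun z => hf1 _)
      (fun z => hg1 _) ?_
    intro z w
    have := hfg ((ee M).symm (x, z)) ((ee M).symm (y, w))
    rwa [ee_comb] at this

end Pool.Agent.H902R3.ZA
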