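import Pool.Agent.H902R3.ZA.Defs
import Mathlib.Analysis.Convex.Approximation

set_option autoImplicit false

open MeasureTheory ProbabilityTheory Finset
open scoped RealInnerProductSpace ENNReal

namespace Pool.Agent.H902R3.ZA

namespace QJaux

theorem int_exp {M : ℕ} {V : (Fin M → ℝ) → ℝ} (hc : Continuous V) (h0 : ∀ g, 0 ≤ V g) :
    Integrable (fun g => Real.exp (-V g)) (gm M) := by
  apply Integrable.of_bound (C := 1)
  · exact (Real.continuous_exp.comp hc.neg).aestronglyMeasurable
  · refine Filter.Eventually.of_forall (fun g => ?_)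
    rw [Real.norm_eq_abs, abs_of_pos (Real.exp_pos _), Real.exp_le_one_iff]
    linarith [h0 g]

theorem int_Vexp {M : ℕ} {V : (Fin M → ℝ) → ℝ} (hc : Continuous V) (h0 : ∀ g, 0 ≤ V g) :
    Integrable (fun g => V g * Real.exp (-V g)) (gm M) := by
  apply Integrable.of_bound (C := 1)
  · exact (hc.mul (Real.continuous_exp.comp hc.neg)).aestronglyMeasurable
  · refine Filter.Eventually.of_forall (fun g => ?_)
    have h1 := h0 g
    rw [Real.norm_eq_abs, abs_of_nonneg (mul_nonneg h1 (Real.exp_pos _).le), Real.exp_neg,
      ← div_eq_mul_inv, div_le_one (Real.exp_pos _)]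
    linarith [Real.add_one_le_exp (V g)]

theorem int_coord {M : ℕ} (j : Fin M) : Integrable (fun g : Fin M → ℝ => g j) (gm M) := by
  have h1 : Integrable (fun x : ℝ => x) (gaussianReal 0 1) :=
    (memLp_id_gaussianReal 1).integrable (by norm_num)
  exact integrable_comp_eval (μ := fun _ : Fin M => gaussianReal 0 1) (i := j) h1

theorem int_coord_exp {M : ℕ} {V : (Fin M → ℝ) → ℝ} (hc : Continuous V) (h0 : ∀ g, 0 ≤ V g)
    (j : Fin M) : Integrable (fun g => g j * Real.exp (-V g)) (gm M) := by
  apply (int_coord j).mono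
  · exact ((continuous_apply j).mul (Real.continuous_exp.comp hc.neg)).aestronglyMeasurable
  · refine Filter.Eventually.of_forall (fun g => ?_)
    rw [norm_mul]
    have h1 : ‖Real.exp (-V g)‖ ≤ 1 := by
      rw [Real.norm_eq_abs, abs_of_pos (Real.exp_pos _), Real.exp_le_one_iff]
      linarith [h0 g]
    calc ‖g j‖ * ‖Real.exp (-V g)‖ ≤ ‖g j‖ * 1 := by gcongr
      _ = ‖g j‖ := mul_one _

end QJaux

open QJaux in
theorem QJ_ok : S_QJ := by
  intro M V hconv hcont h0 P m hP hm
  have i1 := int_exp hcont h0
  have i2 := int_Vexp hcont h0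
  have i3 := int_coord_exp hcont h0
  have hPpos : 0 < P := by
    rw [hP]
    exact integral_exp_pos i1
  -- entropy
  have e1 : ∫ g, V g * Real.exp (-V g) ∂(gm M) ≤ -(P * Real.log P) := by
    have h1 : ∀ g, V g * Real.exp (-V g) ≤
        (-Real.log P - 1) * Real.exp (-V g) + P := by
      intro g
      have h2 := Real.log_le_sub_one_of_pos (x := P / Real.exp (-V g))
        (div_pos hPpos (Real.exp_pos _))
      rw [Real.log_div hPpos.ne' (Real.exp_pos _).ne', Real.log_exp] at h2
      have h3 := Real.exp_pos (-V g)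
      have h4 : (Real.log P - -V g) * Real.exp (-V g) ≤
          (P / Real.exp (-V g) - 1) * Real.exp (-V g) := mul_le_mul_of_nonneg_right h2 h3.le
      rw [sub_mul (P / Real.exp (-V g)), div_mul_cancel₀ _ h3.ne'] at h4
      nlinarith
    have h2 : ∫ g, V g * Real.exp (-V g) ∂(gm M) ≤
        ∫ g, ((-Real.log P - 1) * Real.exp (-V g) + P) ∂(gm M) :=
      integral_mono i2 ((i1.const_mul _).add (integrable_const _)) h1
    rw [integral_add (i1.const_mul _) (integrable_const _), integral_const_mul, ← hP,
      integral_const] at h2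
    simp only [probReal_univ, smul_eq_mul, one_mul] at h2
    linarith
  -- supporting hyperplanes
  have e2 : ∀ a, a < V m → P * a ≤ ∫ g, V g * Real.exp (-V g) ∂(gm M) := by
    intro a ha
    obtain ⟨l, c, h1, h2⟩ := ConvexOn.exists_affine_le_of_lt (𝕜 := ℝ) (Set.mem_univ m) ha
      isClosed_univ (hcont.lowerSemicontinuous.lowerSemicontinuousOn _) hconv
    have h3 : ∀ g, l g + c ≤ V g := by
      intro g
      have := h1 ⟨g, Set.mem_univ g⟩
      simpa using this
    have h4 : l m + c = a := by simpa using h2
    have hl : ∀ g : Fin M → ℝ, l g = ∑ j, g j * l (fun k => if j = k then (1:ℝ) else 0) := by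
      intro g
      exact LinearMap.pi_apply_eq_sum_univ (l : (Fin M → ℝ) →ₗ[ℝ] ℝ) g
    have h5 : ∫ g, (l g + c) * Real.exp (-V g) ∂(gm M) = P * a := by
      have e : ∀ g : Fin M → ℝ, (l g + c) * Real.exp (-V g) =
          (∑ j, l (fun k => if j = k then (1:ℝ) else 0) * (g j * Real.exp (-V g))) + c * Real.exp (-V g) := by
        intro g
        rw [hl g, add_mul, Finset.sum_mul]
        congr 1
        apply Finset.sum_congr rfl
        intro j _
        ring
      simp_rw [e]
      rw [integral_add (integrable_finsetSum _ (fun j _ => (i3 j).const_mul _))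
        (i1.const_mul _), integral_finsetSum _ (fun j _ => (i3 j).const_mul _),
        integral_const_mul, ← hP, ← h4, hl m, mul_add, Finset.mul_sum]
      congr 1
      · apply Finset.sum_congr rfl
        intro j _
        rw [integral_const_mul, ← hm j]
        ring
      · ring
    rw [← h5]
    apply integral_mono _ i2 (fun g => mul_le_mul_of_nonneg_right (h3 g) (Real.exp_pos _).le)
    have e : ∀ g : Fin M → ℝ, (l g + c) * Real.exp (-V g) =
          (∑ j, l (fun k => if j = k then (1:ℝ) else 0) * (g j * Real.exp (-V g))) + c * Real.exp (-V g) := by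
      intro g
      rw [hl g, add_mul, Finset.sum_mul]
      congr 1
      apply Finset.sum_congr rfl
      intro j _
      ring
    simp_rw [e]
    exact (integrable_finsetSum _ (fun j _ => (i3 j).const_mul _)).add (i1.const_mul _)
  have e3 : V m ≤ -Real.log P := by
    apply le_of_forall_lt_imp_le_of_dense
    intro a ha
    have h1 := (e2 a ha).trans e1
    have h2 : P * a ≤ P * (-Real.log P) := by linarith
    exact le_of_mul_le_mul_left h2 hPpos
  rw [← Real.log_le_iff_le_exp hPpos]
  linarith

end Pool.Agent.H902R3.ZA
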