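import Pool.Agent.H902R3.ZA.Defs

set_option autoImplicit false

open MeasureTheory ProbabilityTheory Finset
open scoped RealInnerProductSpace ENNReal

namespace Pool.Agent.H902R3.ZA

theorem RES_ok : S_RES := by
  intro M j f hf
  have h1 : (fun g : Fin M → ℝ => ∫⁻ s, f (Function.update g j s) ∂(gaussianReal 0 1)) =
      ∫⋯∫⁻_({j} : Finset (Fin M)), f ∂(fun _ : Fin M => gaussianReal 0 1) := by
    rw [lmarginal_singleton]
  have hg : Measurable
      (fun g : Fin M → ℝ => ∫⁻ s, f (Function.update g j s) ∂(gaussianReal 0 1)) := by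
    rw [h1]
    exact hf.lmarginal _
  unfold gm
  refine lintegral_eq_of_lmarginal_eq {j} hf hg ?_
  rw [lmarginal_singleton, lmarginal_singleton]
  funext x
  simp only [Function.update_idem, lintegral_const, measure_univ, mul_one]

end Pool.Agent.H902R3.ZA
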