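import Pool.Agent.H902R3.ZA.Defs

set_option autoImplicit false

open MeasureTheory ProbabilityTheory Finset
open scoped RealInnerProductSpace ENNReal

namespace Pool.Agent.H902R3.ZA

namespace ROTaux

/-- the rotation by 45 degrees followed by a reflection -/
noncomputable def R1 (z : ℝ × ℝ) : ℝ × ℝ := ((z.1 + z.2) / Real.sqrt 2, (z.1 - z.2) / Real.sqrt 2)

theorem mp_neg : MeasurePreserving (fun x : ℝ => -x) (gaussianReal 0 1) (gaussianReal 0 1) := by
  refine ⟨measurable_neg, ?_⟩
  rw [gaussianReal_map_neg, neg_zero]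

theorem mp_rot : MeasurePreserving (ContinuousLinearMap.rotation (E := ℝ) (Real.pi / 4))
    ((gaussianReal 0 1).prod (gaussianReal 0 1)) ((gaussianReal 0 1).prod (gaussianReal 0 1)) := by
  refine ⟨(ContinuousLinearMap.continuous _).measurable, ?_⟩
  refine IsGaussian.map_rotation_eq_self ?_ _
  simp

theorem mp_R1 : MeasurePreserving R1
    ((gaussianReal 0 1).prod (gaussianReal 0 1)) ((gaussianReal 0 1).prod (gaussianReal 0 1)) := by
  have h := ((MeasurePreserving.id (gaussianReal 0 1)).prod mp_neg).comp mp_rot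
  have he : R1 = (Prod.map id (fun x : ℝ => -x)) ∘
      (ContinuousLinearMap.rotation (E := ℝ) (Real.pi / 4)) := by
    funext z
    have h2 : Real.sqrt 2 / 2 = 1 / Real.sqrt 2 := by
      rw [div_eq_div_iff (by norm_num) (by positivity)]
      nlinarith [Real.mul_self_sqrt (show (0:ℝ) ≤ 2 by norm_num)]
    simp only [R1, Function.comp, ContinuousLinearMap.rotation_apply, Prod.map, id, smul_eq_mul,
      Real.cos_pi_div_four, Real.sin_pi_div_four, h2]
    ext
    · simp only []; ring
    · simp only []; ring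
  rw [he]
  exact h

/-- the map on vectors -/
noncomputable def T (M : ℕ) (z : (Fin M → ℝ) × (Fin M → ℝ)) : (Fin M → ℝ) × (Fin M → ℝ) :=
  (fun j => (z.1 j + z.2 j) / Real.sqrt 2, fun j => (z.1 j - z.2 j) / Real.sqrt 2)

theorem mp_T (M : ℕ) : MeasurePreserving (T M) ((gm M).prod (gm M)) ((gm M).prod (gm M)) := by
  have he := measurePreserving_arrowProdEquivProdArrow ℝ ℝ (Fin M)
    (fun _ => gaussianReal 0 1) (fun _ => gaussianReal 0 1)
  have hp := measurePreserving_pi (fun _ : Fin M => (gaussianReal 0 1).prod (gaussianReal 0 1))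
    (fun _ : Fin M => (gaussianReal 0 1).prod (gaussianReal 0 1)) (f := fun _ => R1)
    (fun _ => mp_R1)
  have hc := (he.comp hp).comp he.symm
  exact hc

end ROTaux

open ROTaux in
theorem ROT_ok : S_ROT := by
  intro M F hF
  have hT := mp_T M
  have hF2 : Integrable (fun z : (Fin M → ℝ) × (Fin M → ℝ) => F (T M z).1 (T M z).2)
      ((gm M).prod (gm M)) := (hT.integrable_comp hF.aestronglyMeasurable).2 hF
  rw [← integral_prod (fun z : (Fin M → ℝ) × (Fin M → ℝ) => F z.1 z.2) hF]
  have h2 := integral_prod (fun z : (Fin M → ℝ) × (Fin M → ℝ) => F (T M z).1 (T M z).2) hF2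
  simp only [T] at h2
  rw [← h2]
  conv_lhs => rw [← hT.map_eq]
  rw [integral_map hT.measurable.aemeasurable (by rw [hT.map_eq]; exact hF.aestronglyMeasurable)]
  rfl

end Pool.Agent.H902R3.ZA
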