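import Pool.Agent.H902R3.ZA.Defs

/-!
# Diagonal contractions
-/

set_option autoImplicit false

open MeasureTheory ProbabilityTheory Finset
open scoped RealInnerProductSpace ENNReal

namespace Pool.Agent.H902R3.ZA

namespace SCaux

theorem upd {M : ℕ} (c g : Fin M → ℝ) (j : Fin M) (s : ℝ) :
    (fun i => c i * Function.update g j s i) =
      Function.update (fun i => c i * g i) j (c j * s) := by
  funext i
  by_cases h : i = j
  · subst h
    simp
  · simp [Function.update_of_ne h]

theorem formula (h1 : S_RES) (M : ℕ) (D : Set (Fin M → ℝ)) (hD : IsClosed D) (c : Fin M → ℝ)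
    (j : Fin M) : (gm M) {g | (fun i => c i * g i) ∈ D} =
      ∫⁻ s, (gm M) {g | Function.update (fun i => c i * g i) j (c j * s) ∈ D}
        ∂(gaussianReal 0 1) := by
  have hcont : Continuous fun g : Fin M → ℝ => (fun i => c i * g i) :=
    continuous_pi fun i => continuous_const.mul (continuous_apply i)
  have hm : MeasurableSet {g : Fin M → ℝ | (fun i => c i * g i) ∈ D} :=
    (hD.preimage hcont).measurableSet
  have e1 := h1 M j (Set.indicator {g : Fin M → ℝ | (fun i => c i * g i) ∈ D} 1)
    (measurable_one.indicator hm)
  rw [lintegral_indicator_one hm] at e1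
  rw [e1, lintegral_lintegral_swap]
  · congr 1
    funext s
    have hset : MeasurableSet
        {g : Fin M → ℝ | Function.update (fun i => c i * g i) j (c j * s) ∈ D} :=
      (hD.preimage (hcont.update j continuous_const)).measurableSet
    rw [← lintegral_indicator_one hset]
    congr 1
    funext g
    have hiff : (Function.update g j s ∈ {g : Fin M → ℝ | (fun i => c i * g i) ∈ D}) ↔
        g ∈ {g : Fin M → ℝ | Function.update (fun i => c i * g i) j (c j * s) ∈ D} := by
      show (fun i => c i * Function.update g j s i) ∈ D ↔ _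
      rw [upd]
      rfl
    by_cases hg : g ∈ {g : Fin M → ℝ | Function.update (fun i => c i * g i) j (c j * s) ∈ D}
    · rw [Set.indicator_of_mem hg, Set.indicator_of_mem (hiff.2 hg)]
      rfl
    · rw [Set.indicator_of_notMem hg, Set.indicator_of_notMem (fun h => hg (hiff.1 h))]
  · have h2 : Measurable (fun p : (Fin M → ℝ) × ℝ =>
        Set.indicator {g : Fin M → ℝ | (fun i => c i * g i) ∈ D} (1 : (Fin M → ℝ) → ℝ≥0∞)
          (Function.update p.1 j p.2)) :=
      (measurable_one.indicator hm).comp (continuous_fst.update j continuous_snd).measurable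
    exact h2.aemeasurable

theorem step (h1 : S_RES) (h2 : S_SEC) (M : ℕ) (D : Set (Fin M → ℝ)) (hc : Convex ℝ D)
    (hD : IsClosed D) (hs : ∀ y ∈ D, -y ∈ D) (α β : Fin M → ℝ) (j : Fin M)
    (hne : ∀ i, i ≠ j → α i = β i) (h0 : 0 ≤ α j) (hle : α j ≤ β j) :
    (gm M) {g | (fun i => β i * g i) ∈ D} ≤ (gm M) {g | (fun i => α i * g i) ∈ D} := by
  rw [formula h1 M D hD β j, formula h1 M D hD α j]
  refine lintegral_mono fun s => ?_
  have e1 : ∀ (g : Fin M → ℝ) (y : ℝ), Function.update (fun i => α i * g i) j y =
      Function.update (fun i => β i * g i) j y := by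
    intro g y
    funext i
    by_cases h : i = j
    · subst h
      simp
    · simp [Function.update_of_ne h, hne i h]
  simp only [e1]
  rcases (h0.trans hle).eq_or_lt with hb | hb
  · have ha : α j = 0 := le_antisymm (hle.trans hb.ge) h0
    rw [← hb, ha]
  · have h3 := h2 M D hc hD hs β j (β j * s) (α j / β j) (div_nonneg h0 hb.le)
      ((div_le_one hb).2 hle)
    have e2 : α j / β j * (β j * s) = α j * s := by field_simp
    rwa [e2] at h3

end SCaux

theorem SC_ok (h1 : S_RES) (h2 : S_SEC) : S_SC := by
  intro M D hc hD hs α β h0 hle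
  have key : ∀ S : Finset (Fin M), (gm M) {g | (fun j => β j * g j) ∈ D} ≤
      (gm M) {g | (fun j => (if j ∈ S then α j else β j) * g j) ∈ D} := by
    intro S
    induction S using Finset.induction_on with
    | empty => simp
    | insert j S hj ih =>
      refine ih.trans ?_
      refine SCaux.step h1 h2 M D hc hD hs (fun i => if i ∈ insert j S then α i else β i)
        (fun i => if i ∈ S then α i else β i) j ?_ ?_ ?_
      · intro i hi
        by_cases h : i ∈ S
        · simp [h]
        · simp [h, hi]
      · simp [h0 j]
      · simp [hj, hle j]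
  have h := key univ
  simpa using h

end Pool.Agent.H902R3.ZA
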