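import Pool.Agent.H902R3.ZA.Defs

/-!
# SEC: sections of a symmetric closed convex set are unimodal
-/

set_option autoImplicit false

open MeasureTheory ProbabilityTheory Finset
open scoped RealInnerProductSpace ENNReal

namespace Pool.Agent.H902R3.ZA

namespace SECaux

theorem mp_neg (M : ℕ) : MeasurePreserving (fun g : Fin M → ℝ => fun i => - g i) (gm M) (gm M) := by
  have h : MeasurePreserving (fun x : ℝ => -x) (gaussianReal 0 1) (gaussianReal 0 1) := by
    refine ⟨measurable_neg, ?_⟩
    have := gaussianReal_map_neg (μ := 0) (v := 1)
    simpa using this
  unfold gm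
  exact measurePreserving_pi (fun _ => gaussianReal 0 1) (fun _ => gaussianReal 0 1) (fun _ => h)

theorem meas_sec (M : ℕ) (D : Set (Fin M → ℝ)) (hD : IsClosed D) (β : Fin M → ℝ) (j : Fin M)
    (y : ℝ) : MeasurableSet {g : Fin M → ℝ | Function.update (fun i => β i * g i) j y ∈ D} := by
  have hc : Continuous fun g : Fin M → ℝ => Function.update (fun i => β i * g i) j y := by
    have h1 : Continuous fun g : Fin M → ℝ => (fun i => β i * g i : Fin M → ℝ) :=
      continuous_pi fun i => continuous_const.mul (continuous_apply i)
    exact h1.update j continuous_const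
  exact (hD.preimage hc).measurableSet

end SECaux

open SECaux in
theorem SEC_ok (h : S_PLN) : S_SEC := by
  intro M D hcv hcl hsym β j y θ h0 h1
  by_cases hθ : θ = 1
  · subst hθ
    rw [one_mul]
  have hlt : θ < 1 := lt_of_le_of_ne h1 hθ
  set s : ℝ := (1 + θ) / 2 with hs
  have hs0 : 0 < s := by rw [hs]; linarith
  have hs1 : s < 1 := by rw [hs]; linarith
  set A : Set (Fin M → ℝ) := {g | Function.update (fun i => β i * g i) j y ∈ D} with hA
  set B : Set (Fin M → ℝ) := {g | Function.update (fun i => β i * g i) j (-y) ∈ D} with hB
  set C : Set (Fin M → ℝ) := {g | Function.update (fun i => β i * g i) j (θ * y) ∈ D} with hC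
  have mA : MeasurableSet A := meas_sec M D hcl β j y
  have mB : MeasurableSet B := meas_sec M D hcl β j (-y)
  have mC : MeasurableSet C := meas_sec M D hcl β j (θ * y)
  have hAB : (fun g : Fin M → ℝ => fun i => - g i) ⁻¹' A = B := by
    ext g
    simp only [Set.mem_preimage, hA, hB, Set.mem_ofPred_eq]
    have e : (Function.update (fun i => β i * (- g i)) j y : Fin M → ℝ)
        = - Function.update (fun i => β i * g i) j (-y) := by
      ext i
      by_cases hi : i = j
      · subst hi
        simp
      · simp [Function.update_of_ne hi]
    rw [e]
    constructor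
    · intro hx
      have := hsym _ hx
      rwa [neg_neg] at this
    · intro hx
      exact hsym _ hx
  have hmB : (gm M) B = (gm M) A := by
    rw [← hAB]
    exact (mp_neg M).measure_preimage mA.nullMeasurableSet
  have key := h M s hs0 hs1 (A.indicator 1) (B.indicator 1) (C.indicator 1)
    (measurable_one.indicator mA) (measurable_one.indicator mB) (measurable_one.indicator mC)
    (fun x => Set.indicator_le_self' (fun _ _ => zero_le) x)
    (fun x => Set.indicator_le_self' (fun _ _ => zero_le) x) ?_
  · rw [lintegral_indicator_one mA, lintegral_indicator_one mB, lintegral_indicator_one mC, hmB,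
      ← ENNReal.rpow_add_of_nonneg _ _ hs0.le (by linarith)] at key
    have e1 : s + (1 - s) = 1 := by ring
    rw [e1, ENNReal.rpow_one] at key
    exact key
  · intro x z
    by_cases hx : x ∈ A
    · by_cases hz : z ∈ B
      · have hm : (fun i => s * x i + (1 - s) * z i) ∈ C := by
          have e : (Function.update (fun i => β i * (s * x i + (1 - s) * z i)) j (θ * y) :
              Fin M → ℝ) = s • Function.update (fun i => β i * x i) j y
                + (1 - s) • Function.update (fun i => β i * z i) j (-y) := by
            ext i
            by_cases hi : i = j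
            · subst hi
              simp only [Function.update_self, Pi.add_apply, Pi.smul_apply, smul_eq_mul, hs]
              ring
            · simp only [Function.update_of_ne hi, Pi.add_apply, Pi.smul_apply, smul_eq_mul]
              ring
          simp only [hC, Set.mem_ofPred_eq]
          rw [e]
          exact hcv hx hz hs0.le (by linarith) (by ring)
        rw [Set.indicator_of_mem hx, Set.indicator_of_mem hz, Set.indicator_of_mem hm]
        simp
      · rw [Set.indicator_of_notMem hz, ENNReal.zero_rpow_of_pos (by linarith), mul_zero]
        exact zero_le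
    · rw [Set.indicator_of_notMem hx, ENNReal.zero_rpow_of_pos hs0, zero_mul]
      exact zero_le

end Pool.Agent.H902R3.ZA
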