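import Pool.Agent.H902R3.ZA.Defs

/-!
# Translates of symmetric sets under the Gaussian measure
-/

set_option autoImplicit false

open MeasureTheory ProbabilityTheory Finset
open scoped RealInnerProductSpace ENNReal

namespace Pool.Agent.H902R3.ZA

namespace SHIaux

/-- density of the translated Gaussian law -/
noncomputable def d1 (z t : ℝ) : ℝ≥0∞ := ENNReal.ofReal (Real.exp (z * t - z ^ 2 / 2))

theorem meas_d1 (z : ℝ) : Measurable (d1 z) := by
  unfold d1
  fun_prop

theorem one_dim (z : ℝ) : gaussianReal z 1 = (gaussianReal 0 1).withDensity (d1 z) := by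
  rw [gaussianReal_of_var_ne_zero z one_ne_zero, gaussianReal_of_var_ne_zero 0 one_ne_zero,
    ← withDensity_mul _ (measurable_gaussianPDF 0 1) (meas_d1 z)]
  congr 1
  funext t
  simp only [Pi.mul_apply, gaussianPDF, d1]
  rw [← ENNReal.ofReal_mul (gaussianPDFReal_nonneg 0 1 t)]
  congr 1
  simp only [gaussianPDFReal]
  have h : Real.exp (-(t - z) ^ 2 / (2 * ((1 : NNReal) : ℝ))) =
      Real.exp (-(t - 0) ^ 2 / (2 * ((1 : NNReal) : ℝ))) * Real.exp (z * t - z ^ 2 / 2) := by
    rw [← Real.exp_add]
    congr 1
    simp only [NNReal.coe_one]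
    ring
  rw [h]
  ring

theorem multi (M : ℕ) (z : Fin M → ℝ) :
    Measure.pi (fun i => gaussianReal (z i) 1) =
      (gm M).withDensity (fun g => ∏ i, d1 (z i) (g i)) := by
  refine Measure.pi_eq (fun s hs => ?_)
  rw [withDensity_apply _ (MeasurableSet.univ_pi hs),
    ← lintegral_indicator (MeasurableSet.univ_pi hs)]
  have h1 : (Set.univ.pi s).indicator (fun g : Fin M → ℝ => ∏ i, d1 (z i) (g i)) =
      fun g => ∏ i, ((s i).indicator (d1 (z i))) (g i) := by
    funext g
    by_cases hg : g ∈ Set.univ.pi s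
    · rw [Set.indicator_of_mem hg]
      refine Finset.prod_congr rfl (fun i _ => ?_)
      rw [Set.indicator_of_mem (hg i (Set.mem_univ i))]
    · rw [Set.indicator_of_notMem hg]
      have : ∃ i, g i ∉ s i := by
        by_contra hc
        push Not at hc
        exact hg (fun i _ => hc i)
      obtain ⟨i, hi⟩ := this
      exact (Finset.prod_eq_zero (Finset.mem_univ i) (Set.indicator_of_notMem hi _)).symm
  rw [h1]
  have hm : ∀ i, Measurable ((s i).indicator (d1 (z i))) := fun i =>
    (meas_d1 (z i)).indicator (hs i)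
  have h2 := lintegral_prod_eq_prod_lintegral_of_indepFun (μ := gm M) Finset.univ
    (fun (i : Fin M) (g : Fin M → ℝ) => ((s i).indicator (d1 (z i))) (g i))
    (by
      unfold gm
      exact iIndepFun_pi (X := fun i => (s i).indicator (d1 (z i)))
        (fun i => (hm i).aemeasurable))
    (fun i => (hm i).comp (measurable_pi_apply i))
  rw [h2]
  refine Finset.prod_congr rfl (fun i _ => ?_)
  have h3 : MeasurePreserving (Function.eval i) (gm M) (gaussianReal 0 1) := by
    unfold gm
    exact measurePreserving_eval _ i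
  have h4 := h3.lintegral_comp (hm i)
  have h5 : ∫⁻ g, ((s i).indicator (d1 (z i))) (g i) ∂(gm M) =
      ∫⁻ t, ((s i).indicator (d1 (z i))) t ∂(gaussianReal 0 1) := h4
  rw [h5, lintegral_indicator (hs i), one_dim (z i), withDensity_apply _ (hs i)]

theorem shift (M : ℕ) (z : Fin M → ℝ) :
    (gm M).map (fun g i => g i + z i) = Measure.pi (fun i => gaussianReal (z i) 1) := by
  unfold gm
  rw [Measure.pi_map_pi (f := fun i (t : ℝ) => t + z i)
    (fun i => (measurable_id.add_const (z i)).aemeasurable)]
  congr 1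
  funext i
  rw [gaussianReal_map_add_const, zero_add]

theorem negm (M : ℕ) : (gm M).map (fun g i => -g i) = gm M := by
  unfold gm
  rw [Measure.pi_map_pi (f := fun _ (t : ℝ) => -t) (fun i => measurable_neg.aemeasurable)]
  congr 1
  funext i
  rw [gaussianReal_map_neg, neg_zero]

theorem prod_d1 (M : ℕ) (z g : Fin M → ℝ) :
    ∏ i, d1 (z i) (g i) = ENNReal.ofReal (Real.exp (∑ i, z i * g i - (∑ i, z i ^ 2) / 2)) := by
  unfold d1
  rw [← ENNReal.ofReal_prod_of_nonneg (fun i _ => (Real.exp_pos _).le), ← Real.exp_sum]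
  congr 2
  rw [Finset.sum_sub_distrib, Finset.sum_div]

end SHIaux

open SHIaux in
theorem SHI_ok : S_SHI := by
  intro M B hB hsym z
  have hmeasD : Measurable (fun g : Fin M → ℝ => ∏ i, d1 (-z i) (g i)) :=
    Finset.measurable_fun_prod _ (fun i _ => (meas_d1 (-z i)).comp (measurable_pi_apply i))
  have hsh : Measurable (fun (g : Fin M → ℝ) i => g i + -z i) :=
    measurable_pi_lambda _ (fun i => (measurable_pi_apply i).add_const _)
  have hng : Measurable (fun (g : Fin M → ℝ) i => -g i) :=
    measurable_pi_lambda _ (fun i => (measurable_pi_apply i).neg)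
  have h1 : (gm M) {g | g - z ∈ B} = ∫⁻ g in B, ∏ i, d1 (-z i) (g i) ∂(gm M) := by
    have h2 : (gm M) {g | g - z ∈ B} = ((gm M).map (fun g i => g i + -z i)) B := by
      rw [Measure.map_apply hsh hB]
      congr 1
    rw [h2, shift M (fun i => -z i), multi M (fun i => -z i), withDensity_apply _ hB]
  have h3 : ∫⁻ g in B, ∏ i, d1 (-z i) (g i) ∂(gm M) =
      ∫⁻ g in B, ∏ i, d1 (-z i) (-g i) ∂(gm M) := by
    rw [← lintegral_indicator hB, ← lintegral_indicator hB]
    conv_lhs => rw [← negm M]
    rw [lintegral_map (hmeasD.indicator hB) hng]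
    refine lintegral_congr (fun g => ?_)
    by_cases hg : g ∈ B
    · have : (fun i => -g i) ∈ B := hsym g hg
      rw [Set.indicator_of_mem hg, Set.indicator_of_mem this]
    · have : (fun i => -g i) ∉ B := by
        intro hc
        apply hg
        have := hsym _ hc
        have h : -(fun i => -g i) = g := by
          funext i; simp
        rwa [h] at this
      rw [Set.indicator_of_notMem hg, Set.indicator_of_notMem this]
  have h4 : 2 * (ENNReal.ofReal (Real.exp (-(∑ j, z j ^ 2) / 2)) * (gm M) B) ≤
      2 * (gm M) {g | g - z ∈ B} := by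
    calc 2 * (ENNReal.ofReal (Real.exp (-(∑ j, z j ^ 2) / 2)) * (gm M) B)
        = ∫⁻ _ in B, 2 * ENNReal.ofReal (Real.exp (-(∑ j, z j ^ 2) / 2)) ∂(gm M) := by
          rw [setLIntegral_const, mul_assoc]
      _ ≤ ∫⁻ g in B, (∏ i, d1 (-z i) (g i) + ∏ i, d1 (-z i) (-g i)) ∂(gm M) := by
          refine lintegral_mono (fun g => ?_)
          have e1 := prod_d1 M (fun i => -z i) g
          have e2 := prod_d1 M (fun i => -z i) (fun i => -g i)
          simp only at e1 e2 ⊢
          rw [e1, e2]
          have e3 : ∑ i, -z i * g i = -(∑ i, z i * g i) := by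
            rw [← Finset.sum_neg_distrib]
            exact Finset.sum_congr rfl (fun i _ => by ring)
          have e4 : ∑ i, -z i * -g i = ∑ i, z i * g i :=
            Finset.sum_congr rfl (fun i _ => by ring)
          have e5 : ∑ i, (-z i) ^ 2 = ∑ i, z i ^ 2 :=
            Finset.sum_congr rfl (fun i _ => by ring)
          rw [e3, e4, e5, ← ENNReal.ofReal_add (Real.exp_pos _).le (Real.exp_pos _).le]
          have e6 : (2 : ℝ≥0∞) = ENNReal.ofReal 2 := by simp
          rw [e6, ← ENNReal.ofReal_mul (by norm_num)]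
          apply ENNReal.ofReal_le_ofReal
          set s := ∑ i, z i * g i
          set q := ∑ i, z i ^ 2
          have f1 : Real.exp (-s - q / 2) = Real.exp (-q / 2) * Real.exp (-s) := by
            rw [← Real.exp_add]; congr 1; ring
          have f2 : Real.exp (s - q / 2) = Real.exp (-q / 2) * Real.exp s := by
            rw [← Real.exp_add]; congr 1; ring
          rw [f1, f2, ← mul_add]
          have f3 : 2 ≤ Real.exp (-s) + Real.exp s := by
            have g1 := Real.one_le_cosh s
            rw [Real.cosh_eq] at g1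
            linarith
          have f4 := Real.exp_pos (-q / 2)
          nlinarith
      _ = ∫⁻ g in B, ∏ i, d1 (-z i) (g i) ∂(gm M) +
          ∫⁻ g in B, ∏ i, d1 (-z i) (-g i) ∂(gm M) := by
          rw [lintegral_add_left hmeasD]
      _ = 2 * (gm M) {g | g - z ∈ B} := by
          rw [← h3, ← h1, two_mul]
  have h5 : ENNReal.ofReal (Real.exp (-(∑ j, z j ^ 2) / 2)) * (gm M) B ≤
      (gm M) {g | g - z ∈ B} :=
    (ENNReal.mul_le_mul_iff_right (by norm_num) (by norm_num)).mp h4
  have h6 := ENNReal.toReal_mono (measure_ne_top _ _) h5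
  rwa [ENNReal.toReal_mul, ENNReal.toReal_ofReal (Real.exp_pos _).le] at h6

end Pool.Agent.H902R3.ZA
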