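import Pool.Agent.H902R3.ZA.Defs

/-!
# STEP (author helper234): one step in general position
-/

set_option autoImplicit false

open MeasureTheory ProbabilityTheory Finset
open scoped RealInnerProductSpace ENNReal

namespace Pool.Agent.H902R3.ZA

open Pool.Agent.H172R2.ZS (E Zon Lew sg)

namespace STEPaux

/-- sums over the copies -/
theorem sum_copies {N : ℕ} (k : Fin N → ℕ) (c0 G : Fin N → ℝ) (hk : ∀ j, k j = 0 → c0 j = 0) :
    ∑ i : Fin (∑ j, k j), c0 (finSigmaFinEquiv.symm i).1 / (k (finSigmaFinEquiv.symm i).1 : ℝ) *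
      G (finSigmaFinEquiv.symm i).1 = ∑ j, c0 j * G j := by
  rw [finSigmaFinEquiv.symm.sum_comp
    (fun p : (Σ j : Fin N, Fin (k j)) => c0 p.1 / (k p.1 : ℝ) * G p.1), Fintype.sum_sigma]
  refine Finset.sum_congr rfl fun j _ => ?_
  simp only [Finset.sum_const, Finset.card_univ, Fintype.card_fin, nsmul_eq_mul]
  by_cases h : k j = 0
  · rw [hk j h]; simp
  · have h' : (k j : ℝ) ≠ 0 := by exact_mod_cast h
    field_simp

end STEPaux

open STEPaux in
theorem STEP_ok (h1 : S_STEPL) (h2 : Pool.Agent.H172R2.ZS.S_LEW) (h3 : Pool.Agent.H172R2.ZS.S_BAS) :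
    S_STEP := by
  intro n N u hn hu hN
  obtain ⟨L, hL⟩ := h2 n N u hu
  have hn0 : (0 : ℝ) < n := by exact_mod_cast hn
  have hNn : 1000 * (n : ℝ) ≤ N := by exact_mod_cast hN
  have hN0 : (0 : ℝ) < N := by linarith
  set c0 : Fin N → ℝ := fun j => ‖L (u j)‖ with hc0
  set a0 : Fin N → E n := fun j => (‖L (u j)‖)⁻¹ • L (u j) with ha0
  have hca : ∀ j, c0 j • a0 j = L (u j) := by
    intro j
    simp only [hc0, ha0, smul_smul]
    by_cases h : L (u j) = 0
    · rw [h]; simp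
    · rw [mul_inv_cancel₀ (norm_ne_zero_iff.2 h), one_smul]
  have hc0n : ∀ j, 0 ≤ c0 j := fun j => norm_nonneg _
  have hna : ∀ j, c0 j * ‖a0 j‖ ^ 2 = c0 j := by
    intro j
    simp only [hc0, ha0]
    by_cases h : L (u j) = 0
    · rw [h]; simp
    · have h' : ‖L (u j)‖ ≠ 0 := norm_ne_zero_iff.2 h
      rw [norm_smul, norm_inv, norm_norm, inv_mul_cancel₀ h']; ring
  have hsq : ∀ x : E n, ∑ j, c0 j * ⟪a0 j, x⟫ ^ 2 = ‖x‖ ^ 2 := by
    intro x
    rw [← hL x]
    refine Finset.sum_congr rfl fun j _ => ?_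
    simp only [hc0, ha0]
    rw [real_inner_smul_left]
    by_cases h : L (u j) = 0
    · rw [h]; simp
    · have h' : ‖L (u j)‖ ≠ 0 := norm_ne_zero_iff.2 h
      field_simp
  have hlew0 : Lew c0 a0 := ⟨hc0n, hna, hsq⟩
  have hsum0 : ∑ j, c0 j = n := (h3 n N c0 a0 hlew0).1
  set τ : ℝ := 100 * n / N with hτ
  have hτ0 : 0 < τ := by positivity
  set k : Fin N → ℕ := fun j => ⌈c0 j / τ⌉₊ with hk
  have hk1 : ∀ j, c0 j / τ ≤ k j := fun j => Nat.le_ceil _
  have hk2 : ∀ j, (k j : ℝ) ≤ c0 j / τ + 1 := fun j =>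
    (Nat.ceil_lt_add_one (div_nonneg (hc0n j) hτ0.le)).le
  have hk0 : ∀ j, k j = 0 → c0 j = 0 := by
    intro j h
    have h4 := hk1 j
    rw [h, Nat.cast_zero, div_le_iff₀ hτ0, zero_mul] at h4
    exact le_antisymm h4 (hc0n j)
  set c : Fin (∑ j, k j) → ℝ := fun i =>
    c0 (finSigmaFinEquiv.symm i).1 / (k (finSigmaFinEquiv.symm i).1 : ℝ) with hc
  set a : Fin (∑ j, k j) → E n := fun i => a0 (finSigmaFinEquiv.symm i).1 with ha
  have hlew : Lew c a := by
    refine ⟨fun i => div_nonneg (hc0n _) (Nat.cast_nonneg _), fun i => ?_, fun x => ?_⟩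
    · simp only [hc, ha]
      rw [div_mul_eq_mul_div, hna]
    · have := sum_copies k c0 (fun j => ⟪a0 j, x⟫ ^ 2) hk0
      simp only [hc, ha]
      rw [this, hsq x]
  have hcτ : ∀ i, c i ≤ τ := by
    intro i
    simp only [hc]
    set p := finSigmaFinEquiv.symm i with hp
    have hpos : 0 < k p.1 := p.2.pos
    have hpos' : (0 : ℝ) < k p.1 := by exact_mod_cast hpos
    rw [div_le_iff₀ hpos']
    have h4 := hk1 p.1
    rw [div_le_iff₀ hτ0] at h4
    linarith
  have hMcast : ((∑ j, k j : ℕ) : ℝ) = ∑ j, (k j : ℝ) := by push_cast; rfl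
  have hnτ : (n : ℝ) / τ = N / 100 := by
    rw [hτ]; field_simp
  have hsdiv : ∑ j, c0 j / τ = N / 100 := by
    rw [← Finset.sum_div, hsum0, hnτ]
  have hM1 : (N : ℝ) / 100 ≤ ((∑ j, k j : ℕ) : ℝ) := by
    rw [hMcast, ← hsdiv]
    exact Finset.sum_le_sum fun j _ => hk1 j
  have hM2 : ((∑ j, k j : ℕ) : ℝ) ≤ N / 100 + N := by
    rw [hMcast]
    calc ∑ j, (k j : ℝ) ≤ ∑ j, (c0 j / τ + 1) := Finset.sum_le_sum fun j _ => hk2 j
      _ = N / 100 + N := by
          rw [Finset.sum_add_distrib, hsdiv]; simp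
  have hM10 : 10 * n ≤ ∑ j, k j := by
    have : 10 * (n : ℝ) ≤ ((∑ j, k j : ℕ) : ℝ) := by linarith
    exact_mod_cast this
  obtain ⟨N', w, f, hw, hN', hx⟩ := h1 n _ c a hlew τ hτ0 hcτ hn hM10
  refine ⟨N', fun q => L.symm (w q • a (f q)), ?_, fun x => ?_⟩
  · refine hN'.trans ?_
    have h4 : 9 * (n : ℝ) / (1024 * τ) = 9 / 1024 * (N / 100) := by
      rw [← hnτ]; ring
    rw [h4]
    linarith
  · set y : E n := LinearMap.adjoint (L.symm : E n →ₗ[ℝ] E n) x with hy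
    have hadj : ∀ p : E n, ⟪p, y⟫ = ⟪L.symm p, x⟫ := fun p => by
      rw [hy, LinearMap.adjoint_inner_right]; rfl
    have e1 : ∀ q, |⟪L.symm (w q • a (f q)), x⟫| = w q * |⟪a (f q), y⟫| := by
      intro q
      rw [← hadj, real_inner_smul_left, abs_mul, abs_of_nonneg (hw q)]
    have e2 : ∑ j, |⟪u j, x⟫| = hh c a y := by
      have h5 := sum_copies k c0 (fun j => |⟪a0 j, y⟫|) hk0
      unfold hh
      simp only [hc, ha]
      rw [h5]
      refine Finset.sum_congr rfl fun j _ => ?_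
      have h6 : ⟪u j, x⟫ = c0 j * ⟪a0 j, y⟫ := by
        rw [← real_inner_smul_left, hca, hadj, LinearEquiv.symm_apply_apply]
      rw [h6, abs_mul, abs_of_nonneg (hc0n j)]
    have e3 : 200 * Real.sqrt τ = 2000 * Real.sqrt ((n : ℝ) / N) := by
      have : τ = 10 ^ 2 * ((n : ℝ) / N) := by rw [hτ]; ring
      rw [this, Real.sqrt_mul (by positivity), Real.sqrt_sq (by norm_num)]; ring
    have h7 := hx y
    simp only [e1]
    rw [e2, ← e3]
    exact h7

end Pool.Agent.H902R3.ZA
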