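import Pool.Agent.H902R3.ZA.Defs

/-!
# STEPL: one step in Lewis position
-/

set_option autoImplicit false

open MeasureTheory ProbabilityTheory Finset
open scoped RealInnerProductSpace ENNReal

namespace Pool.Agent.H902R3.ZA

open Pool.Agent.H172R2.ZS (E Zon Lew sg)

namespace STEPLaux

variable {n M : ℕ}

lemma FF_lin (c : Fin M → ℝ) (a : Fin M → E n) (σ y z : Fin M → ℝ) (s t : ℝ) (x : E n) :
    FF c a (fun j => σ j * (s • y + t • z) j) x =
      s * FF c a (fun j => σ j * y j) x + t * FF c a (fun j => σ j * z j) x := by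
  unfold FF
  rw [Finset.mul_sum, Finset.mul_sum, ← Finset.sum_add_distrib]
  refine Finset.sum_congr rfl fun j _ => ?_
  simp only [Pi.add_apply, Pi.smul_apply, smul_eq_mul]
  ring

lemma hh_nonneg (c : Fin M → ℝ) (a : Fin M → E n) (hc : ∀ j, 0 ≤ c j) (x : E n) :
    0 ≤ hh c a x := by
  unfold hh
  exact Finset.sum_nonneg fun j _ => mul_nonneg (hc j) (abs_nonneg _)

/-- the convex set -/
def BB (c : Fin M → ℝ) (a : Fin M → E n) (σ : Fin M → ℝ) (s : ℝ) : Set (Fin M → ℝ) :=
  {k | ∀ x, |FF c a (fun j => σ j * k j) x| ≤ s * hh c a x}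

lemma BB_convex (c : Fin M → ℝ) (a : Fin M → E n) (σ : Fin M → ℝ) (s : ℝ) :
    Convex ℝ (BB c a σ s) := by
  intro y hy z hz α β hα hβ hαβ x
  rw [FF_lin]
  have h1 := hy x
  have h2 := hz x
  calc |α * FF c a (fun j => σ j * y j) x + β * FF c a (fun j => σ j * z j) x|
      ≤ |α * FF c a (fun j => σ j * y j) x| + |β * FF c a (fun j => σ j * z j) x| :=
        abs_add_le _ _
    _ = α * |FF c a (fun j => σ j * y j) x| + β * |FF c a (fun j => σ j * z j) x| := by
        rw [abs_mul, abs_mul, abs_of_nonneg hα, abs_of_nonneg hβ]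
    _ ≤ α * (s * hh c a x) + β * (s * hh c a x) :=
        add_le_add (mul_le_mul_of_nonneg_left h1 hα) (mul_le_mul_of_nonneg_left h2 hβ)
    _ = s * hh c a x := by rw [← add_mul, hαβ, one_mul]

lemma BB_closed (c : Fin M → ℝ) (a : Fin M → E n) (σ : Fin M → ℝ) (s : ℝ) :
    IsClosed (BB c a σ s) := by
  unfold BB
  rw [Set.ofPred_forall]
  refine isClosed_iInter fun x => ?_
  refine isClosed_le ?_ continuous_const
  unfold FF
  refine continuous_abs.comp ?_
  refine continuous_finsetSum _ fun j _ => ?_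
  exact ((continuous_const.mul (continuous_apply j)).mul continuous_const)

lemma FF_neg (c : Fin M → ℝ) (a : Fin M → E n) (y : Fin M → ℝ) (x : E n) :
    FF c a (fun j => - y j) x = - FF c a y x := by
  unfold FF
  rw [← Finset.sum_neg_distrib]
  exact Finset.sum_congr rfl fun j _ => by ring

lemma BB_symm (c : Fin M → ℝ) (a : Fin M → E n) (σ : Fin M → ℝ) (s : ℝ) :
    ∀ y ∈ BB c a σ s, -y ∈ BB c a σ s := by
  intro y hy x
  have : FF c a (fun j => σ j * (-y) j) x = - FF c a (fun j => σ j * y j) x := by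
    rw [← FF_neg]
    congr 1
    funext j
    simp
  rw [this, abs_neg]
  exact hy x

/-- the final step: from a signed partial colouring with many `-1` -/
lemma final (c : Fin M → ℝ) (a : Fin M → E n) (hc : ∀ j, 0 ≤ c j) (m : Fin M → ℕ)
    (hm : ∀ j, 0 < m j) (δ : (Σ j : Fin M, Fin (m j)) → ℝ)
    (hδ : ∀ i, δ i = 0 ∨ δ i = 1 ∨ δ i = -1)
    (hcard : (∑ j, (m j : ℝ)) ≤ 20 * ((univ.filter fun i => δ i = -1).card : ℝ))
    (s L : ℝ) (hL : (∑ j, (m j : ℝ)) ≤ L)
    (hF : ∀ x, |FF c a (fun j => (∑ l : Fin (m j), δ ⟨j, l⟩) / m j) x| ≤ s * hh c a x) :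
    ∃ (N' : ℕ) (w : Fin N' → ℝ) (f : Fin N' → Fin M), (∀ k, 0 ≤ w k) ∧
      (N' : ℝ) ≤ 95 / 100 * L ∧
      ∀ x : E n, abs ((∑ k, w k * |⟪a (f k), x⟫|) - hh c a x) ≤ s * hh c a x := by
  classical
  set S : Finset (Σ j : Fin M, Fin (m j)) := univ.filter fun i => ¬ (δ i = -1) with hS
  set W : (Σ j : Fin M, Fin (m j)) → ℝ := fun i => (1 + δ i) * (c i.1 / m i.1) with hW
  have hW0 : ∀ i, 0 ≤ W i := by
    intro i
    refine mul_nonneg ?_ (div_nonneg (hc _) (Nat.cast_nonneg _))
    rcases hδ i with h | h | h <;> rw [h] <;> norm_num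
  let e := S.equivFin
  refine ⟨S.card, fun k => W (e.symm k).1, fun k => (e.symm k).1.1, fun k => hW0 _, ?_, ?_⟩
  · have h1 : (univ.filter fun i => δ i = -1).card + S.card
        = Fintype.card (Σ j : Fin M, Fin (m j)) := by
      rw [hS]
      have := Finset.card_filter_add_card_filter_not (s := (univ : Finset (Σ j : Fin M, Fin (m j))))
        (fun i => δ i = -1)
      rw [Finset.card_univ] at this
      exact this
    have h2 : (Fintype.card (Σ j : Fin M, Fin (m j)) : ℝ) = ∑ j, (m j : ℝ) := by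
      rw [Fintype.card_sigma]
      push_cast
      simp
    have h3 : ((univ.filter fun i => δ i = -1).card : ℝ) + (S.card : ℝ) = ∑ j, (m j : ℝ) := by
      rw [← h2]; exact_mod_cast h1
    linarith
  · intro x
    have h1 : (∑ k : Fin S.card, W (e.symm k).1 * |⟪a (e.symm k).1.1, x⟫|)
        = ∑ i ∈ S, W i * |⟪a i.1, x⟫| := by
      rw [← Finset.sum_coe_sort S (fun i => W i * |⟪a i.1, x⟫|)]
      exact Equiv.sum_comp e.symm (fun i : S => W i.1 * |⟪a i.1.1, x⟫|)
    have h2 : (∑ i ∈ S, W i * |⟪a i.1, x⟫|) = ∑ i, W i * |⟪a i.1, x⟫| := by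
      refine Finset.sum_subset (Finset.subset_univ _) fun i _ hi => ?_
      have : δ i = -1 := by
        by_contra h
        exact hi (by rw [hS, Finset.mem_filter]; exact ⟨Finset.mem_univ _, h⟩)
      simp [hW, this]
    have h3 : (∑ i, W i * |⟪a i.1, x⟫|)
        = hh c a x + FF c a (fun j => (∑ l : Fin (m j), δ ⟨j, l⟩) / m j) x := by
      rw [Fintype.sum_sigma]
      unfold hh FF
      rw [← Finset.sum_add_distrib]
      refine Finset.sum_congr rfl fun j _ => ?_
      have hmj : (m j : ℝ) ≠ 0 := by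
        exact_mod_cast (hm j).ne'
      have h4 : (∑ l : Fin (m j), W ⟨j, l⟩ * |⟪a (⟨j, l⟩ : Σ j : Fin M, Fin (m j)).1, x⟫|)
          = (∑ l : Fin (m j), (1 + δ ⟨j, l⟩)) * (c j / m j * |⟪a j, x⟫|) := by
        rw [Finset.sum_mul]
        exact Finset.sum_congr rfl fun l _ => by simp only [hW]; ring
      rw [h4, Finset.sum_add_distrib]
      simp only [Finset.sum_const, Finset.card_univ, Fintype.card_fin, nsmul_eq_mul, mul_one]
      field_simp
    rw [h1, h2, h3]
    simpa using hF x

end STEPLaux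

open STEPLaux in
theorem STEPL_ok (h1 : S_TWO) (h2 : S_COL) : S_STEPL := by
  classical
  intro n M c a hLew τ hτ hcτ hn hM
  have hc : ∀ j, 0 ≤ c j := hLew.1
  obtain ⟨σ, m, hσ, hm, hsum, hgm⟩ := h1 n M c a hLew τ 4 hτ (by norm_num) hcτ
  have hMr : (10 : ℝ) * n ≤ M := by exact_mod_cast hM
  have hM4 : 4 ≤ M := by omega
  have hexp : Real.exp (-(3 * (M : ℝ) / 200)) / 2 ≤
      ((gm M) (BB c a σ (5 * 4 * Real.sqrt τ))).toReal := by
    refine le_trans ?_ hgm
    have : -(3 * (M : ℝ) / 200) ≤ -(9 * (n : ℝ) / (4 * 4 ^ 2)) := by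
      have : (n : ℝ) ≤ M / 10 := by linarith
      norm_num
      linarith
    have := Real.exp_le_exp.mpr this
    linarith
  obtain ⟨δ, hδ, hcard, hmem⟩ := h2 M (BB c a σ (5 * 4 * Real.sqrt τ)) (BB_convex _ _ _ _)
    (BB_closed _ _ _ _) (BB_symm _ _ _ _) σ m (fun j => (hσ j).1) hm hM4 hexp
  have hm0 : ∀ j, 0 < m j := by
    intro j
    have h := hm j
    have : 0 < 1 / σ j ^ 2 := by have := (hσ j).1; positivity
    have h' : (0 : ℝ) < m j := lt_of_lt_of_le this h
    exact_mod_cast h'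
  have hF : ∀ x, |FF c a (fun j => (∑ l : Fin (m j), δ ⟨j, l⟩) / m j) x|
      ≤ 200 * Real.sqrt τ * hh c a x := by
    intro x
    have h := hmem x
    have h5 : FF c a (fun j => σ j * ((1 / 10 : ℝ) * ((∑ l : Fin (m j), δ ⟨j, l⟩) / m j) / σ j)) x
        = (1 / 10) * FF c a (fun j => (∑ l : Fin (m j), δ ⟨j, l⟩) / m j) x := by
      unfold FF
      rw [Finset.mul_sum]
      refine Finset.sum_congr rfl fun j _ => ?_
      have := (hσ j).1.ne'
      field_simp
    rw [h5, abs_mul, abs_of_pos (by norm_num : (0 : ℝ) < 1 / 10)] at h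
    linarith
  have hL : (∑ j, (m j : ℝ)) ≤ M + 9 * n / (1024 * τ) := by
    refine hsum.trans (le_of_eq ?_)
    norm_num
  -- choose the sign
  have hcount : ((univ.filter fun i => δ i ≠ 0).card : ℝ) ≤
      ((univ.filter fun i => δ i = -1).card : ℝ) + ((univ.filter fun i => δ i = 1).card : ℝ) := by
    have : (univ.filter fun i => δ i ≠ 0) ⊆
        (univ.filter fun i => δ i = -1) ∪ (univ.filter fun i => δ i = 1) := by
      intro i hi
      rw [Finset.mem_filter] at hi
      rw [Finset.mem_union, Finset.mem_filter, Finset.mem_filter]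
      rcases hδ i with h | h | h
      · exact absurd h hi.2
      · exact Or.inr ⟨Finset.mem_univ _, h⟩
      · exact Or.inl ⟨Finset.mem_univ _, h⟩
    have h := (Finset.card_le_card this).trans (Finset.card_union_le _ _)
    exact_mod_cast h
  rcases le_total ((univ.filter fun i => δ i = 1).card : ℝ)
    ((univ.filter fun i => δ i = -1).card : ℝ) with hle | hle
  · exact final c a hc m hm0 δ hδ (by linarith) (200 * Real.sqrt τ) _ hL hF
  · refine final c a hc m hm0 (fun i => - δ i) (fun i => ?_) ?_ (200 * Real.sqrt τ) _ hL ?_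
    · rcases hδ i with h | h | h
      · left; simp [h]
      · right; right; simp [h]
      · right; left; simp [h]
    · have : (univ.filter fun i => - δ i = -1) = (univ.filter fun i => δ i = 1) := by
        refine Finset.filter_congr fun i _ => ?_
        constructor
        · intro h; linarith
        · intro h; linarith
      rw [this]
      linarith
    · intro x
      have : FF c a (fun j => (∑ l : Fin (m j), - δ ⟨j, l⟩) / m j) x =
          - FF c a (fun j => (∑ l : Fin (m j), δ ⟨j, l⟩) / m j) x := by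
        rw [← FF_neg]
        congr 1
        funext j
        rw [Finset.sum_neg_distrib, neg_div]
      rw [this, abs_neg]
      exact hF x

end Pool.Agent.H902R3.ZA
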