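import Pool.Agent.H902R3.ZA.Defs

set_option autoImplicit false

open MeasureTheory ProbabilityTheory Finset
open scoped RealInnerProductSpace ENNReal

namespace Pool.Agent.H902R3.ZA

open Pool.Agent.H172R2.ZS (E Zon Lew sg)

namespace TWOaux

variable {n M : ℕ} (c : Fin M → ℝ) (a : Fin M → E n)

theorem FF_add (y y' : Fin M → ℝ) (x : E n) :
    FF c a (fun j => y j + y' j) x = FF c a y x + FF c a y' x := by
  simp [FF, add_mul, Finset.sum_add_distrib]

theorem FF_smul (t : ℝ) (y : Fin M → ℝ) (x : E n) :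
    FF c a (fun j => t * y j) x = t * FF c a y x := by
  simp [FF, Finset.mul_sum, mul_assoc]

theorem hh_nonneg (hc : ∀ j, 0 ≤ c j) (x : E n) : 0 ≤ hh c a x :=
  Finset.sum_nonneg fun j _ => mul_nonneg (hc j) (abs_nonneg _)

theorem abs_FF_le (hc : ∀ j, 0 ≤ c j) {y : Fin M → ℝ} {u : ℝ} (hy : ∀ j, |y j| ≤ u) (x : E n) :
    |FF c a y x| ≤ u * hh c a x := by
  unfold FF hh
  rw [Finset.mul_sum]
  refine (Finset.abs_sum_le_sum_abs _ _).trans (Finset.sum_le_sum fun j _ => ?_)
  rw [abs_mul, abs_of_nonneg (mul_nonneg (hc j) (abs_nonneg _))]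
  exact mul_le_mul_of_nonneg_right (hy j) (mul_nonneg (hc j) (abs_nonneg _))

end TWOaux

open TWOaux in
theorem TWO_ok (h1 : S_LOW) (h2 : S_PHI) (h3 : S_JEN) (h4 : S_MEAN) (h5 : S_FIX) : S_TWO := by
  intro n M c a hL τ r hτ hr hcτ
  have hc : ∀ j, 0 ≤ c j := hL.1
  obtain ⟨hconv, hbd, hcont, hiff⟩ := h2 n M c a hc
  set u : ℝ := r * Real.sqrt τ with hu
  have hu0 : 0 < u := mul_pos hr (Real.sqrt_pos.2 hτ)
  set p0 : ℝ := Real.exp (-(9 * n / (8 * r ^ 2))) with hp0
  have hp0pos : 0 < p0 := Real.exp_pos _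
  have hp01 : p0 ≤ 1 := Real.exp_le_one_iff.2 (by
    have : 0 ≤ 9 * (n : ℝ) / (8 * r ^ 2) := by positivity
    linarith)
  set Λ : ℝ := Real.log (2 / p0 ^ 2) with hΛ
  have hΛ0 : 0 < Λ := Real.log_pos (by
    rw [lt_div_iff₀ (by positivity)]; nlinarith)
  set β : ℝ := Λ / u with hβ
  have hβ0 : 0 < β := by positivity
  have hβu : β * u = Λ := by rw [hβ]; field_simp
  obtain ⟨σ, hσ⟩ := h5 n M c a hc u β hu0 hβ0
  set b : Fin M → ℝ := bb c a u β σ with hb
  have hmax : ∀ j, 0 < max u |b j| := fun j => lt_max_of_lt_left hu0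
  have hσ0 : ∀ j, 0 < σ j := fun j => by rw [hσ j]; exact div_pos hu0 (hmax j)
  have hσ1 : ∀ j, σ j ≤ 1 := fun j => by
    rw [hσ j]; exact (div_le_one (hmax j)).2 (le_max_left _ _)
  have hσb : ∀ j, |σ j * b j| ≤ u := fun j => by
    rw [abs_mul, abs_of_pos (hσ0 j), hσ j, div_mul_eq_mul_div, div_le_iff₀ (hmax j)]
    exact mul_le_mul_of_nonneg_left (le_max_right _ _) hu0.le
  set W : (Fin M → ℝ) → ℝ := WW c a u β σ with hW
  have hPc : Continuous fun g : Fin M → ℝ => Phi c a (fun j => σ j * g j) :=
    hcont.comp (by fun_prop)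
  have hWcont : Continuous W := by
    rw [hW]; unfold WW
    exact continuous_const.mul (continuous_const.max (hPc.sub continuous_const))
  have hWnn : ∀ g, 0 ≤ W g := fun g => mul_nonneg hβ0.le (le_max_left _ _)
  have hWconv : ConvexOn ℝ Set.univ W := by
    have e1 : ConvexOn ℝ Set.univ (fun g : Fin M → ℝ => Phi c a (fun j => σ j * g j)) := by
      refine ⟨convex_univ, fun g _ g' _ s t hs ht hst => ?_⟩
      have := hconv.2 (Set.mem_univ (fun j => σ j * g j)) (Set.mem_univ (fun j => σ j * g' j))
        hs ht hst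
      refine le_trans (le_of_eq ?_) this
      show Phi c a (fun j => σ j * (s • g + t • g') j) = _
      congr 1
      funext j
      simp only [Pi.add_apply, Pi.smul_apply, smul_eq_mul]
      ring
    have e2 := e1.add_const (-u)
    have e3 := (convexOn_const (0 : ℝ) (convex_univ (𝕜 := ℝ) (E := Fin M → ℝ))).sup e2
    have e4 := e3.smul hβ0.le
    refine e4.congr fun g _ => ?_
    simp only [hW, WW, Pi.sup_apply, smul_eq_mul, sub_eq_add_neg, Pi.add_apply]
  have hint : Integrable (fun g => Real.exp (-W g)) (gm M) := by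
    refine Integrable.of_bound (C := 1)
      ((Real.continuous_exp.comp hWcont.neg).aestronglyMeasurable) (Filter.Eventually.of_forall
        fun g => ?_)
    rw [Real.norm_eq_abs, abs_of_pos (Real.exp_pos _)]
    exact Real.exp_le_one_iff.2 (by linarith [hWnn g])
  set A : Set (Fin M → ℝ) := {g | Phi c a (fun j => σ j * g j) ≤ u} with hAd
  have hA : {g : Fin M → ℝ | ∀ x, FF c a (fun j => σ j * g j) x ≤
      r * Real.sqrt τ * hh c a x} = A := by
    ext g; exact (hiff _ u hu0.le).symm
  have hAm : MeasurableSet A := (isClosed_le hPc continuous_const).measurableSet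
  set p : ℝ := pp c a u β σ with hp
  have hpI : p = ∫ g, Real.exp (-W g) ∂(gm M) := rfl
  have hpp0 : p0 ≤ p := by
    have l := h1 n M c a hL τ r hτ hr hcτ σ (fun j => ⟨(hσ0 j).le, hσ1 j⟩)
    rw [hA] at l
    refine l.trans ?_
    have e : ((gm M) A).toReal = ∫ g, A.indicator (1 : (Fin M → ℝ) → ℝ) g ∂gm M :=
      (integral_indicator_one hAm).symm
    rw [e, hpI]
    refine integral_mono ((integrable_const (1 : ℝ)).indicator hAm) hint (fun g => ?_)
    by_cases hg : g ∈ A
    · rw [Set.indicator_of_mem hg, Pi.one_apply]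
      have : W g = 0 := by
        have h0 : Phi c a (fun j => σ j * g j) - u ≤ 0 := by
          have : Phi c a (fun j => σ j * g j) ≤ u := hg
          linarith
        simp only [hW, WW]
        rw [max_eq_left h0, mul_zero]
      rw [this]; simp
    · rw [Set.indicator_of_notMem hg]
      exact (Real.exp_pos _).le
  have hppos : 0 < p := hp0pos.trans_le hpp0
  have hbp : ∀ j, p * b j = ∫ g, g j * Real.exp (-W g) ∂(gm M) := fun j => by
    rw [hb]; unfold bb; exact mul_div_cancel₀ _ hppos.ne'
  obtain ⟨-, hp1, hbsum⟩ := h4 M W hWcont hWnn p b hpI hbp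
  have hJ := h3 M W hWconv hWcont hWnn p b hpI hbp
  refine ⟨σ, fun j => ⌈1 / σ j ^ 2⌉₊, fun j => ⟨hσ0 j, hσ1 j⟩, fun j => Nat.le_ceil _, ?_, ?_⟩
  · have hterm : ∀ j, ((⌈1 / σ j ^ 2⌉₊ : ℕ) : ℝ) ≤ 1 + b j ^ 2 / u ^ 2 := fun j => by
      rcases le_or_gt |b j| u with h | h
      · have e : σ j = 1 := by rw [hσ j, max_eq_left h, div_self hu0.ne']
        rw [e]
        have : 0 ≤ b j ^ 2 / u ^ 2 := by positivity
        norm_num
        exact this
      · have e : σ j = u / |b j| := by rw [hσ j, max_eq_right h.le]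
        have e2 : 1 / σ j ^ 2 = b j ^ 2 / u ^ 2 := by
          rw [e, div_pow, sq_abs, one_div_div]
        have := Nat.ceil_lt_add_one (a := 1 / σ j ^ 2) (by positivity)
        rw [e2] at this ⊢
        linarith
    have s1 : ∑ j, ((⌈1 / σ j ^ 2⌉₊ : ℕ) : ℝ) ≤ M + (∑ j, b j ^ 2) / u ^ 2 := by
      refine (Finset.sum_le_sum fun j _ => hterm j).trans (le_of_eq ?_)
      rw [Finset.sum_add_distrib, Finset.sum_div]
      simp
    have s2 : Real.log (1 / p) ≤ 9 * n / (8 * r ^ 2) := by
      have : Real.log (1 / p) ≤ Real.log (1 / p0) :=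
        Real.log_le_log (by positivity) (one_div_le_one_div_of_le hp0pos hpp0)
      refine this.trans (le_of_eq ?_)
      rw [one_div, Real.log_inv, hp0, Real.log_exp, neg_neg]
    have hu2 : u ^ 2 = r ^ 2 * τ := by rw [hu, mul_pow, Real.sq_sqrt hτ.le]
    have s3 : (∑ j, b j ^ 2) / u ^ 2 ≤ 9 * n / (4 * r ^ 4 * τ) := by
      rw [hu2, div_le_iff₀ (by positivity)]
      have : 9 * n / (4 * r ^ 4 * τ) * (r ^ 2 * τ) = 2 * (9 * n / (8 * r ^ 2)) := by
        field_simp; ring
      rw [this]
      linarith
    linarith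
  · set B : Set (Fin M → ℝ) := {k | ∀ x, |FF c a (fun j => σ j * k j) x| ≤
      5 * r * Real.sqrt τ * hh c a x} with hBd
    have hBc : IsClosed B := by
      have : B = ⋂ x, {k | |FF c a (fun j => σ j * k j) x| ≤ 5 * r * Real.sqrt τ * hh c a x} := by
        ext k; simp [hBd]
      rw [this]
      refine isClosed_iInter fun x => isClosed_le ?_ continuous_const
      unfold FF
      fun_prop
    have hs2 : 0 < Real.sqrt 2 := Real.sqrt_pos.2 (by norm_num)
    have key : ∀ k : Fin M → ℝ, k ∉ B →
        Real.exp (-W (fun j => b j + k j / Real.sqrt 2)) *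
          Real.exp (-W (fun j => b j - k j / Real.sqrt 2)) ≤ p0 ^ 2 / 2 := by
      intro k hk
      by_contra hcon
      push Not at hcon
      apply hk
      rw [← Real.exp_add] at hcon
      have hlt : -W (fun j => b j + k j / Real.sqrt 2) + -W (fun j => b j - k j / Real.sqrt 2) >
          -Λ := by
        have : Real.exp (-Λ) = p0 ^ 2 / 2 := by
          rw [hΛ, Real.exp_neg, Real.exp_log (by positivity), inv_div]
        rw [← this] at hcon
        exact Real.exp_lt_exp.1 hcon
      have hW1 : W (fun j => b j + k j / Real.sqrt 2) < Λ := by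
        linarith [hWnn (fun j => b j - k j / Real.sqrt 2)]
      have hW2 : W (fun j => b j - k j / Real.sqrt 2) < Λ := by
        linarith [hWnn (fun j => b j + k j / Real.sqrt 2)]
      have hgen : ∀ g, W g < Λ → ∀ x, FF c a (fun j => σ j * g j) x ≤ 2 * u * hh c a x := by
        intro g hg
        rw [← hiff _ (2 * u) (by positivity)]
        have h0 : β * (Phi c a (fun j => σ j * g j) - u) ≤ β * u := by
          rw [hβu]
          refine le_trans ?_ hg.le
          simp only [hW, WW]
          exact mul_le_mul_of_nonneg_left (le_max_right _ _) hβ0.le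
        have := le_of_mul_le_mul_left h0 hβ0
        linarith
      intro x
      have g1 := hgen _ hW1 x
      have g2 := hgen _ hW2 x
      have gb := abs_FF_le c a hc hσb x
      have e1 : FF c a (fun j => σ j * (b j + k j / Real.sqrt 2)) x =
          FF c a (fun j => σ j * b j) x + 1 / Real.sqrt 2 * FF c a (fun j => σ j * k j) x := by
        rw [← FF_smul, ← FF_add]
        congr 1; funext j; ring
      have e2 : FF c a (fun j => σ j * (b j - k j / Real.sqrt 2)) x =
          FF c a (fun j => σ j * b j) x + -(1 / Real.sqrt 2) * FF c a (fun j => σ j * k j) x := by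
        rw [← FF_smul, ← FF_add]
        congr 1; funext j; ring
      rw [e1] at g1
      rw [e2] at g2
      have hhn := hh_nonneg c a hc x
      have hub := abs_le.1 gb
      have hX : |1 / Real.sqrt 2 * FF c a (fun j => σ j * k j) x| ≤ 3 * u * hh c a x := by
        rw [abs_le]
        constructor <;> nlinarith [hub.1, hub.2]
      rw [abs_mul, abs_of_pos (by positivity : (0 : ℝ) < 1 / Real.sqrt 2)] at hX
      have hX2 : |FF c a (fun j => σ j * k j) x| ≤ Real.sqrt 2 * (3 * u * hh c a x) := by
        have := mul_le_mul_of_nonneg_left hX hs2.le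
        rw [← mul_assoc, mul_one_div_cancel hs2.ne', one_mul] at this
        exact this
      refine hX2.trans ?_
      have hs15 : Real.sqrt 2 ≤ 5 / 3 := by
        rw [Real.sqrt_le_left (by norm_num)]; norm_num
      have : 0 ≤ 3 * u * hh c a x := by positivity
      calc Real.sqrt 2 * (3 * u * hh c a x) ≤ 5 / 3 * (3 * u * hh c a x) :=
            mul_le_mul_of_nonneg_right hs15 this
        _ = 5 * r * Real.sqrt τ * hh c a x := by rw [hu]; ring
    have hup : ∫ k, Real.exp (-W (fun j => b j + k j / Real.sqrt 2)) *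
        Real.exp (-W (fun j => b j - k j / Real.sqrt 2)) ∂(gm M) ≤
        ((gm M) B).toReal + p0 ^ 2 / 2 := by
      have e : ((gm M) B).toReal = ∫ g, B.indicator (1 : (Fin M → ℝ) → ℝ) g ∂gm M :=
        (integral_indicator_one hBc.measurableSet).symm
      have hi1 : Integrable (B.indicator (1 : (Fin M → ℝ) → ℝ)) (gm M) :=
        (integrable_const (1 : ℝ)).indicator hBc.measurableSet
      have e2 : ((gm M) B).toReal + p0 ^ 2 / 2 =
          ∫ g, (B.indicator (1 : (Fin M → ℝ) → ℝ) g + p0 ^ 2 / 2) ∂gm M := by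
        rw [integral_add hi1 (integrable_const _), ← e]
        simp
      rw [e2]
      have hle1 : ∀ k : Fin M → ℝ, Real.exp (-W (fun j => b j + k j / Real.sqrt 2)) *
          Real.exp (-W (fun j => b j - k j / Real.sqrt 2)) ≤ 1 := fun k => by
        rw [← Real.exp_add]
        refine Real.exp_le_one_iff.2 ?_
        linarith [hWnn (fun j => b j - k j / Real.sqrt 2),
          hWnn (fun j => b j + k j / Real.sqrt 2)]
      refine integral_mono ?_ (hi1.add (integrable_const _)) (fun k => ?_)
      · refine Integrable.of_bound (C := 1) (Continuous.aestronglyMeasurable ?_)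
          (Filter.Eventually.of_forall fun k => ?_)
        · have c1 : Continuous fun k : Fin M → ℝ => W (fun j => b j + k j / Real.sqrt 2) :=
            hWcont.comp (by fun_prop)
          have c2 : Continuous fun k : Fin M → ℝ => W (fun j => b j - k j / Real.sqrt 2) :=
            hWcont.comp (by fun_prop)
          exact (Real.continuous_exp.comp c1.neg).mul (Real.continuous_exp.comp c2.neg)
        · rw [Real.norm_eq_abs, abs_of_pos (mul_pos (Real.exp_pos _) (Real.exp_pos _))]
          exact hle1 k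
      · by_cases hk : k ∈ B
        · rw [Set.indicator_of_mem hk, Pi.one_apply]
          have : 0 ≤ p0 ^ 2 / 2 := by positivity
          linarith [hle1 k]
        · rw [Set.indicator_of_notMem hk, zero_add]
          exact key k hk
    have hfin : Real.exp (-(9 * n / (4 * r ^ 2))) / 2 = p0 ^ 2 - p0 ^ 2 / 2 := by
      have : p0 ^ 2 = Real.exp (-(9 * n / (4 * r ^ 2))) := by
        rw [hp0, ← Real.exp_nat_mul]
        congr 1
        push_cast
        field_simp
        ring
      rw [this]; ring
    rw [hfin]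
    have : p0 ^ 2 ≤ p ^ 2 := by gcongr
    linarith

end Pool.Agent.H902R3.ZA
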