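import Pool.Agent.H902R3.ZA.Defs

/-!
# ZOND: a zonoid is close to an origin-symmetric zonotope
-/

set_option autoImplicit false

open MeasureTheory ProbabilityTheory Finset
open scoped RealInnerProductSpace ENNReal

namespace Pool.Agent.H902R3.ZA

open Pool.Agent.H172R2.ZS (E Zon Lew sg)

namespace ZONDaux

variable {n N : ℕ}

theorem zon_zero (u : Fin N → E n) : (0 : E n) ∈ Zon u :=
  ⟨fun _ => 0, fun _ => by simp, by simp⟩

theorem zon_neg (u : Fin N → E n) {x : E n} (hx : x ∈ Zon u) : -x ∈ Zon u := by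
  obtain ⟨t, ht, rfl⟩ := hx
  refine ⟨fun j => - t j, fun j => ?_, ?_⟩
  · have := ht j
    rw [Set.mem_Icc] at this ⊢
    constructor <;> linarith
  · rw [← Finset.sum_neg_distrib]
    exact Finset.sum_congr rfl fun j _ => by rw [neg_smul]

theorem zon_half (u : Fin N → E n) {x y : E n} (hx : x ∈ Zon u) (hy : y ∈ Zon u) :
    (1 / 2 : ℝ) • (x - y) ∈ Zon u := by
  obtain ⟨t, ht, rfl⟩ := hx
  obtain ⟨s, hs, rfl⟩ := hy
  refine ⟨fun j => (t j - s j) / 2, fun j => ?_, ?_⟩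
  · have h1 := ht j
    have h2 := hs j
    rw [Set.mem_Icc] at h1 h2 ⊢
    constructor <;> linarith
  · rw [← Finset.sum_sub_distrib, Finset.smul_sum]
    refine Finset.sum_congr rfl fun j _ => ?_
    rw [← sub_smul, smul_smul]
    congr 1
    ring

theorem zon_image (u : Fin N → E n) :
    Zon u = (fun t : Fin N → ℝ => ∑ j, t j • u j) '' (Set.pi Set.univ fun _ => Set.Icc (-1) 1) := by
  ext x
  constructor
  · rintro ⟨t, ht, rfl⟩
    exact ⟨t, fun j _ => ht j, rfl⟩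
  · rintro ⟨t, ht, rfl⟩
    exact ⟨t, fun j => ht j (Set.mem_univ _), rfl⟩

theorem zon_compact (u : Fin N → E n) : IsCompact (Zon u) := by
  rw [zon_image]
  refine (isCompact_univ_pi fun _ => isCompact_Icc).image ?_
  fun_prop

theorem zon_convex (u : Fin N → E n) : Convex ℝ (Zon u) := by
  rintro x ⟨t, ht, rfl⟩ y ⟨s, hs, rfl⟩ a b ha hb hab
  refine ⟨fun j => a * t j + b * s j, fun j => ?_, ?_⟩
  · have h1 := ht j
    have h2 := hs j
    rw [Set.mem_Icc] at h1 h2 ⊢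
    constructor <;> nlinarith
  · rw [Finset.smul_sum, Finset.smul_sum, ← Finset.sum_add_distrib]
    refine Finset.sum_congr rfl fun j _ => ?_
    rw [add_smul, smul_smul, smul_smul]

theorem ball_in {K : Set (E n)} (hc : Convex ℝ K) (hi : (interior K).Nonempty)
    (hs : ∀ x ∈ K, -x ∈ K) : ∃ ρ : ℝ, 0 < ρ ∧ Metric.ball (0 : E n) ρ ⊆ K := by
  obtain ⟨x, hx⟩ := hi
  have hneg : -x ∈ interior K := by
    have h1 : K = (Homeomorph.neg (E n)) ⁻¹' K := by
      ext y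
      constructor
      · intro hy; exact hs y hy
      · intro hy
        have := hs _ hy
        simpa using this
    have h2 : interior K = (Homeomorph.neg (E n)) ⁻¹' (interior K) := by
      conv_lhs => rw [h1]
      exact ((Homeomorph.neg (E n)).preimage_interior K).symm
    rw [h2]
    simpa using hx
  have h0 : (0 : E n) ∈ interior K := by
    have := hc.interior hx hneg (by norm_num : (0 : ℝ) ≤ 1 / 2) (by norm_num : (0 : ℝ) ≤ 1 / 2)
      (by norm_num)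
    simpa using this
  obtain ⟨ρ, hρ, hb⟩ := Metric.isOpen_iff.1 isOpen_interior 0 h0
  exact ⟨ρ, hρ, hb.trans interior_subset⟩

end ZONDaux

open ZONDaux

theorem ZOND_ok : S_ZOND := by
  intro n K hK κ hκ
  obtain ⟨hc, hcomp, hi, hsym, happ⟩ := hK
  obtain ⟨ρ, hρ, hball⟩ := ball_in hc hi hsym
  have hK0 : (0 : E n) ∈ K := hball (Metric.mem_ball_self hρ)
  have hκ1 : 0 < 1 + κ := by linarith
  obtain ⟨q, hq⟩ : ∃ q : ℝ, q = κ / (1 + κ) := ⟨_, rfl⟩
  have hq0 : 0 < q := by rw [hq]; positivity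
  have hqκ : q ≤ κ := by
    rw [hq, div_le_iff₀ hκ1]
    nlinarith
  have hq1 : (1 - q) * (1 + κ) = 1 := by
    rw [hq]; field_simp; ring
  obtain ⟨N, Z, ⟨z, u, hZ⟩, hd⟩ := happ (q * ρ) (by positivity)
  have hmemZ : ∀ s ∈ Zon u, z + s ∈ Z := by
    intro s hs
    rw [hZ]
    exact ⟨s, hs, rfl⟩
  have hZne : Z.Nonempty := ⟨z + 0, hmemZ 0 (zon_zero u)⟩
  have hZb : Bornology.IsBounded Z := by
    have h1 : Z = (fun s => z + s) '' Zon u := by
      rw [hZ]
      ext x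
      constructor
      · rintro ⟨y, hy, rfl⟩; exact ⟨y, hy, rfl⟩
      · rintro ⟨y, hy, rfl⟩; exact ⟨y, hy, rfl⟩
    rw [h1]
    exact ((zon_compact u).image (by fun_prop)).isBounded
  have hfin : Metric.hausdorffEDist K Z ≠ ⊤ :=
    Metric.hausdorffEDist_ne_top_of_nonempty_of_bounded ⟨0, hK0⟩ hZne hcomp.isBounded hZb
  -- first claim
  have c1 : ∀ s ∈ Zon u, (1 + κ)⁻¹ • s ∈ K := by
    intro s hs
    obtain ⟨k1, hk1, hd1⟩ := Metric.exists_dist_lt_of_hausdorffDist_lt' (hmemZ s hs) hd hfin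
    obtain ⟨k2, hk2, hd2⟩ :=
      Metric.exists_dist_lt_of_hausdorffDist_lt' (hmemZ (-s) (zon_neg u hs)) hd hfin
    rw [dist_eq_norm] at hd1 hd2
    have hk : (1 / 2 : ℝ) • k1 + (1 / 2 : ℝ) • (-k2) ∈ K :=
      hc hk1 (hsym _ hk2) (by norm_num) (by norm_num) (by norm_num)
    obtain ⟨b, hb⟩ : ∃ b : E n, b = (κ⁻¹ * (1 / 2)) • ((k2 - (z + -s)) - (k1 - (z + s))) :=
      ⟨_, rfl⟩
    have hbK : b ∈ K := by
      apply hball
      rw [mem_ball_zero_iff, hb, norm_smul, Real.norm_of_nonneg (by positivity)]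
      have h1 : ‖(k2 - (z + -s)) - (k1 - (z + s))‖ < 2 * (q * ρ) :=
        (norm_sub_le _ _).trans_lt (by linarith)
      calc κ⁻¹ * (1 / 2) * ‖(k2 - (z + -s)) - (k1 - (z + s))‖
          < κ⁻¹ * (1 / 2) * (2 * (q * ρ)) := by
            exact mul_lt_mul_of_pos_left h1 (by positivity)
        _ = κ⁻¹ * q * ρ := by ring
        _ ≤ κ⁻¹ * κ * ρ := by gcongr
        _ = ρ := by rw [inv_mul_cancel₀ hκ.ne', one_mul]
    have hcomb := hc hk hbK (by positivity : (0 : ℝ) ≤ (1 + κ)⁻¹)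
      (by positivity : (0 : ℝ) ≤ κ * (1 + κ)⁻¹) (by field_simp)
    have heq : (1 + κ)⁻¹ • ((1 / 2 : ℝ) • k1 + (1 / 2 : ℝ) • (-k2)) + (κ * (1 + κ)⁻¹) • b =
        (1 + κ)⁻¹ • s := by
      rw [hb, smul_smul, show κ * (1 + κ)⁻¹ * (κ⁻¹ * (1 / 2)) = (1 + κ)⁻¹ * (1 / 2) by
        field_simp, mul_smul, ← smul_add]
      congr 1
      module
    rwa [heq] at hcomb
  -- second claim
  have c2 : ∀ x ∈ K, (1 + κ)⁻¹ • x ∈ Zon u := by
    intro x hx
    by_contra hnot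
    obtain ⟨f, c, hf1, hf2⟩ := geometric_hahn_banach_closed_point (zon_convex u)
      (zon_compact u).isClosed hnot
    have hc0 : 0 < c := by
      have := hf1 0 (zon_zero u)
      rwa [map_zero] at this
    obtain ⟨k0, hk0, hmax⟩ := hcomp.exists_isMaxOn ⟨0, hK0⟩ f.continuous.continuousOn
    have hmax' : ∀ k ∈ K, f k ≤ f k0 := fun k hk => hmax hk
    have hfx : (1 + κ) * c < f k0 := by
      have h1 := hmax' x hx
      rw [map_smul, smul_eq_mul] at hf2
      have h2 : (1 + κ) * c < (1 + κ) * ((1 + κ)⁻¹ * f x) := mul_lt_mul_of_pos_left hf2 hκ1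
      rw [← mul_assoc, mul_inv_cancel₀ hκ1.ne', one_mul] at h2
      linarith
    obtain ⟨y1, hy1, hd1⟩ := Metric.exists_dist_lt_of_hausdorffDist_lt hk0 hd hfin
    obtain ⟨y2, hy2, hd2⟩ := Metric.exists_dist_lt_of_hausdorffDist_lt (hsym _ hk0) hd hfin
    rw [hZ] at hy1 hy2
    obtain ⟨s1, hs1, rfl⟩ := hy1
    obtain ⟨s2, hs2, rfl⟩ := hy2
    rw [dist_eq_norm] at hd1 hd2
    obtain ⟨b, hb⟩ : ∃ b : E n, b = (q⁻¹ * (1 / 2)) • ((k0 - (z + s1)) - (-k0 - (z + s2))) :=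
      ⟨_, rfl⟩
    have hbK : b ∈ K := by
      apply hball
      rw [mem_ball_zero_iff, hb, norm_smul, Real.norm_of_nonneg (by positivity)]
      have h1 : ‖(k0 - (z + s1)) - (-k0 - (z + s2))‖ < 2 * (q * ρ) :=
        (norm_sub_le _ _).trans_lt (by linarith)
      calc q⁻¹ * (1 / 2) * ‖(k0 - (z + s1)) - (-k0 - (z + s2))‖
          < q⁻¹ * (1 / 2) * (2 * (q * ρ)) := by
            exact mul_lt_mul_of_pos_left h1 (by positivity)
        _ = q⁻¹ * q * ρ := by ring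
        _ = ρ := by rw [inv_mul_cancel₀ hq0.ne', one_mul]
    have heq : k0 = (1 / 2 : ℝ) • (s1 - s2) + q • b := by
      rw [hb, smul_smul, show q * (q⁻¹ * (1 / 2)) = 1 / 2 by field_simp]
      module
    have h1 : f k0 = f ((1 / 2 : ℝ) • (s1 - s2)) + q * f b := by
      conv_lhs => rw [heq]
      rw [map_add, map_smul f q b, smul_eq_mul]
    have h2 := hf1 _ (zon_half u hs1 hs2)
    have h3 := hmax' b hbK
    have h4 : (1 - q) * f k0 < c := by nlinarith
    have h5 : (1 + κ) * ((1 - q) * f k0) < (1 + κ) * c := mul_lt_mul_of_pos_left h4 hκ1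
    have h6 : (1 + κ) * ((1 - q) * f k0) = f k0 := by
      rw [← mul_assoc, mul_comm (1 + κ), hq1, one_mul]
    linarith
  refine ⟨N, u, fun x hx => ⟨(1 + κ)⁻¹ • x, c1 x hx, ?_⟩,
    fun x hx => ⟨(1 + κ)⁻¹ • x, c2 x hx, ?_⟩, ?_⟩
  · rw [smul_smul, mul_inv_cancel₀ hκ1.ne', one_smul]
  · rw [smul_smul, mul_inv_cancel₀ hκ1.ne', one_smul]
  · intro x hx
    by_contra hne
    have hxn : 0 < ‖x‖ := norm_pos_iff.2 hne
    have hkK : (ρ / (2 * ‖x‖)) • x ∈ K := by
      apply hball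
      rw [mem_ball_zero_iff, norm_smul, Real.norm_of_nonneg (by positivity)]
      have : ρ / (2 * ‖x‖) * ‖x‖ = ρ / 2 := by field_simp
      rw [this]
      linarith
    obtain ⟨t, ht, hts⟩ := c2 _ hkK
    have h1 : ⟪(1 + κ)⁻¹ • (ρ / (2 * ‖x‖)) • x, x⟫ = 0 := by
      rw [hts, sum_inner]
      refine Finset.sum_eq_zero fun j _ => ?_
      rw [real_inner_smul_left, hx j, mul_zero]
    rw [real_inner_smul_left, real_inner_smul_left, real_inner_self_eq_norm_sq] at h1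
    have h2 : 0 < (1 + κ)⁻¹ * (ρ / (2 * ‖x‖) * ‖x‖ ^ 2) := by positivity
    linarith

end Pool.Agent.H902R3.ZA
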