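import Pool.Agent.H902R3.ZA.Defs

set_option autoImplicit false

open MeasureTheory ProbabilityTheory Finset
open scoped RealInnerProductSpace ENNReal

namespace Pool.Agent.H902R3.ZA

open Pool.Agent.H172R2.ZS (E Zon Lew sg)

namespace ZSUPaux

theorem image_eq {n N : ℕ} (u : Fin N → E n) (s : ℝ) :
    {w : E n | ∃ z ∈ Zon u, w = s • z}
      = (fun t : Fin N → ℝ => s • ∑ j, t j • u j) '' (Set.pi Set.univ fun _ => Set.Icc (-1 : ℝ) 1) := by
  ext w
  constructor
  · rintro ⟨z, ⟨t, ht, rfl⟩, rfl⟩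
    exact ⟨t, fun j _ => ht j, rfl⟩
  · rintro ⟨t, ht, rfl⟩
    exact ⟨_, ⟨t, fun j => ht j (Set.mem_univ j), rfl⟩, rfl⟩

theorem isCompact' {n N : ℕ} (u : Fin N → E n) (s : ℝ) :
    IsCompact {w : E n | ∃ z ∈ Zon u, w = s • z} := by
  rw [image_eq]
  refine IsCompact.image (isCompact_univ_pi (fun _ => isCompact_Icc)) ?_
  fun_prop

theorem convex' {n N : ℕ} (u : Fin N → E n) (s : ℝ) :
    Convex ℝ {w : E n | ∃ z ∈ Zon u, w = s • z} := by
  rintro w1 ⟨z1, ⟨t1, ht1, rfl⟩, rfl⟩ w2 ⟨z2, ⟨t2, ht2, rfl⟩, rfl⟩ a b ha hb hab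
  refine ⟨∑ j, (a * t1 j + b * t2 j) • u j, ⟨fun j => a * t1 j + b * t2 j, fun j => ?_, rfl⟩, ?_⟩
  · have h1 := ht1 j
    have h2 := ht2 j
    constructor
    · have h3 := mul_le_mul_of_nonneg_left h1.1 ha
      have h4 := mul_le_mul_of_nonneg_left h2.1 hb
      linarith
    · have h3 := mul_le_mul_of_nonneg_left h1.2 ha
      have h4 := mul_le_mul_of_nonneg_left h2.2 hb
      linarith
  · simp only [add_smul, Finset.sum_add_distrib, smul_add, Finset.smul_sum, smul_smul]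
    congr 1
    · refine Finset.sum_congr rfl (fun j _ => ?_)
      congr 1
      ring
    · refine Finset.sum_congr rfl (fun j _ => ?_)
      congr 1
      ring

end ZSUPaux

/-- ZSUP -/
theorem ZSUP_ok : S_ZSUP := by
  intro n N N' u v s hs h y hy
  by_contra hne
  have hy2 : y ∉ {w : E n | ∃ z ∈ Zon u, w = s • z} := by
    rintro ⟨z, hz, hw⟩
    exact hne ⟨z, hz, hw⟩
  obtain ⟨f, r, hf1, hf2⟩ := geometric_hahn_banach_closed_point (ZSUPaux.convex' u s)
    (ZSUPaux.isCompact' u s).isClosed hy2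
  set x : E n := (InnerProductSpace.toDual ℝ (E n)).symm f with hx
  have hfx : ∀ w : E n, f w = ⟪x, w⟫ := fun w => by
    rw [hx, InnerProductSpace.toDual_symm_apply]
  obtain ⟨t', ht', rfl⟩ := hy
  set t : Fin N → ℝ := fun j => if 0 ≤ ⟪u j, x⟫ then 1 else -1 with ht
  have hz : ∑ j, t j • u j ∈ Zon u := by
    refine ⟨t, fun j => ?_, rfl⟩
    simp only [ht]
    split_ifs
    · norm_num
    · norm_num
  have h1 := hf1 (s • ∑ j, t j • u j) ⟨_, hz, rfl⟩
  have h2 : f (s • ∑ j, t j • u j) = s * ∑ j, |⟪u j, x⟫| := by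
    rw [hfx, inner_smul_right, inner_sum]
    congr 1
    refine Finset.sum_congr rfl (fun j _ => ?_)
    rw [inner_smul_right, real_inner_comm]
    simp only [ht]
    split_ifs with h0
    · rw [abs_of_nonneg h0, one_mul]
    · rw [abs_of_neg (not_le.mp h0)]
      ring
  have h3 : f (∑ k, t' k • v k) ≤ ∑ k, |⟪v k, x⟫| := by
    rw [hfx, inner_sum]
    refine Finset.sum_le_sum (fun k _ => ?_)
    rw [inner_smul_right, real_inner_comm]
    have h4 : |t' k| ≤ 1 := abs_le.mpr (ht' k)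
    calc t' k * ⟪v k, x⟫ ≤ |t' k * ⟪v k, x⟫| := le_abs_self _
      _ = |t' k| * |⟪v k, x⟫| := abs_mul _ _
      _ ≤ 1 * |⟪v k, x⟫| := mul_le_mul_of_nonneg_right h4 (abs_nonneg _)
      _ = |⟪v k, x⟫| := one_mul _
  have h5 := h x
  rw [h2] at h1
  linarith

end Pool.Agent.H902R3.ZA
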